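import Pool.Agent.QUD.Cod
import Mathlib.Algebra.TrivSqZeroExt.Basic
import Mathlib.RingTheory.Derivation.Basic

/-!
# QUW/Der: the two derivations of `ℚ(α, β)` and the fundamental elements

`dA`, `dB` are the partial derivatives.  `der_ne`: a fundamental element is not constant.  `der_ind`: if `0, 1, ∞, s, t` is a
`U_{2,5}` over the group, the differentials of `s` and `t` are independent.
-/

set_option autoImplicit false

noncomputable section

namespace Pool.Agent.QW

open Pool.Agent.FRM Pool.Agent.QUD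

/-- `f` is a derivation of the field -/
structure IsD {K : Type} [Field K] (f : K → K) : Prop where
  add : ∀ x y, f (x + y) = f x + f y
  mul : ∀ x y, f (x * y) = x * f y + y * f x

section gen

variable {K : Type} [Field K] {f g : K → K}

theorem IsD.zero (h : IsD f) : f 0 = 0 := by
  have h1 := h.add 0 0
  rw [add_zero] at h1
  exact left_eq_add.1 h1

theorem IsD.one (h : IsD f) : f 1 = 0 := by
  have h1 := h.mul 1 1
  rw [mul_one, one_mul] at h1
  exact left_eq_add.1 h1

theorem IsD.neg (h : IsD f) (x : K) : f (-x) = -f x := by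
  have h1 := h.add x (-x)
  rw [add_neg_cancel, h.zero] at h1
  exact (neg_eq_of_add_eq_zero_right h1.symm).symm

theorem IsD.sub (h : IsD f) (x y : K) : f (x - y) = f x - f y := by
  rw [sub_eq_add_neg, h.add, h.neg, sub_eq_add_neg]

theorem IsD.inv (h : IsD f) {x : K} (hx : x ≠ 0) : f x⁻¹ = -(f x * (x⁻¹ * x⁻¹)) := by
  have h1 := h.mul x x⁻¹
  rw [mul_inv_cancel₀ hx, h.one] at h1
  have h2 : f x⁻¹ = -(x⁻¹ * (x⁻¹ * f x)) := by
    have h3 : x⁻¹ * (x * f x⁻¹ + x⁻¹ * f x) = 0 := by rw [← h1, mul_zero]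
    rw [mul_add, ← mul_assoc, inv_mul_cancel₀ hx, one_mul] at h3
    exact eq_neg_of_add_eq_zero_left h3
  rw [h2]
  ring

theorem IsD.div (h : IsD f) (x : K) {y : K} (hy : y ≠ 0) : f (x / y) = (y * f x - x * f y) * (y⁻¹ * y⁻¹) := by
  rw [div_eq_mul_inv, h.mul, h.inv hy]
  field_simp
  ring

theorem IsD.sum {ι : Type} (h : IsD f) (s : Finset ι) (u : ι → K) : f (∑ x ∈ s, u x) = ∑ x ∈ s, f (u x) := by
  classical
  induction s using Finset.induction_on with
  | empty => simpa using h.zero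
  | insert a s ha ih => rw [Finset.sum_insert ha, Finset.sum_insert ha, h.add, ih]

theorem IsD.comb (hf : IsD f) (hg : IsD g) (a b : K) : IsD fun x => a * f x + b * g x := by
  constructor
  · intro x y
    simp only [hf.add, hg.add]
    ring
  · intro x y
    simp only [hf.mul, hg.mul]
    ring

private theorem ld_mul (hD : IsD f) {x y p q : K} (hx : f x = p * x) (hy : f y = q * y) : f (x * y) = (p + q) * (x * y) := by
  rw [hD.mul, hx, hy]
  ring

private theorem ld_nat (hD : IsD f) {x p : K} (hx : f x = p * x) (n : ℕ) : f (x ^ n) = (n * p) * x ^ n := by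
  induction n with
  | zero => rw [pow_zero, hD.one, Nat.cast_zero, zero_mul, zero_mul]
  | succ n ih =>
    rw [pow_succ, ld_mul hD ih hx, Nat.cast_succ]
    ring

private theorem ld_zpow (hD : IsD f) {x p : K} (h0 : x ≠ 0) (hx : f x = p * x) (n : ℤ) : f (x ^ n) = (n * p) * x ^ n := by
  rcases Int.eq_nat_or_neg n with ⟨m, rfl | rfl⟩
  · rw [zpow_natCast, ld_nat hD hx, Int.cast_natCast]
  · rw [zpow_neg, zpow_natCast, hD.inv (pow_ne_zero _ h0), ld_nat hD hx, Int.cast_neg, Int.cast_natCast]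
    field_simp

private theorem ld_of {x : K} (h0 : x ≠ 0) : f x = (f x / x) * x := by
  rw [div_mul_cancel₀ _ h0]

private theorem ld_ev (hD : IsD f) {x1 x2 x3 x4 x5 : K} (h1 : x1 ≠ 0) (h2 : x2 ≠ 0) (h3 : x3 ≠ 0) (h4 : x4 ≠ 0) (h5 : x5 ≠ 0)
    (n1 n2 n3 n4 n5 : ℤ) (n6 : ℕ) : f (x1 ^ n1 * x2 ^ n2 * x3 ^ n3 * x4 ^ n4 * x5 ^ n5 * (-1) ^ n6) =
    (n1 * (f x1 / x1) + n2 * (f x2 / x2) + n3 * (f x3 / x3) + n4 * (f x4 / x4) + n5 * (f x5 / x5)) *
      (x1 ^ n1 * x2 ^ n2 * x3 ^ n3 * x4 ^ n4 * x5 ^ n5 * (-1) ^ n6) := by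
  have e6 : f ((-1 : K) ^ n6) = ((n6 : K) * 0) * (-1 : K) ^ n6 :=
    ld_nat hD (by rw [hD.neg, hD.one, neg_zero, zero_mul]) n6
  rw [ld_mul hD (ld_mul hD (ld_mul hD (ld_mul hD (ld_mul hD (ld_zpow hD h1 (ld_of h1) n1) (ld_zpow hD h2 (ld_of h2) n2))
    (ld_zpow hD h3 (ld_of h3) n3)) (ld_zpow hD h4 (ld_of h4) n4)) (ld_zpow hD h5 (ld_of h5) n5)) e6, mul_zero, add_zero]

/-- extension of a derivation of the polynomials to the field of fractions -/
private theorem ex_dv [Algebra (MvPolynomial (Fin 2) ℚ) K] [IsFractionRing (MvPolynomial (Fin 2) ℚ) K] (a b : K) :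
    ∃ f : K → K, IsD f ∧ f (algebraMap (MvPolynomial (Fin 2) ℚ) K (MvPolynomial.X 0)) = a ∧
      f (algebraMap (MvPolynomial (Fin 2) ℚ) K (MvPolynomial.X 1)) = b := by
  let P := MvPolynomial (Fin 2) ℚ
  let c : ℚ →+* K := (algebraMap P K).comp MvPolynomial.C
  let x : Fin 2 → TrivSqZeroExt K K := ![TrivSqZeroExt.inl (algebraMap P K (MvPolynomial.X 0)) + TrivSqZeroExt.inr a,
    TrivSqZeroExt.inl (algebraMap P K (MvPolynomial.X 1)) + TrivSqZeroExt.inr b]
  let φ : P →+* TrivSqZeroExt K K := MvPolynomial.eval₂Hom ((TrivSqZeroExt.inlHom K K).comp c) x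
  have hφ : ∀ p : P, (φ p).fst = algebraMap P K p := by
    intro p
    have h : ((TrivSqZeroExt.fstHom K K K).toRingHom.comp φ) = algebraMap P K := by
      apply MvPolynomial.ringHom_ext
      · intro r
        change ((φ (MvPolynomial.C r)).fst : K) = algebraMap P K (MvPolynomial.C r)
        rw [MvPolynomial.eval₂Hom_C]
        rfl
      · intro i
        change ((φ (MvPolynomial.X i)).fst : K) = algebraMap P K (MvPolynomial.X i)
        rw [MvPolynomial.eval₂Hom_X']
        fin_cases i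
        · change (TrivSqZeroExt.inl (algebraMap P K (MvPolynomial.X 0)) + TrivSqZeroExt.inr a : TrivSqZeroExt K K).fst =
            algebraMap P K (MvPolynomial.X 0)
          rw [TrivSqZeroExt.fst_add, TrivSqZeroExt.fst_inl, TrivSqZeroExt.fst_inr, add_zero]
        · change (TrivSqZeroExt.inl (algebraMap P K (MvPolynomial.X 1)) + TrivSqZeroExt.inr b : TrivSqZeroExt K K).fst =
            algebraMap P K (MvPolynomial.X 1)
          rw [TrivSqZeroExt.fst_add, TrivSqZeroExt.fst_inl, TrivSqZeroExt.fst_inr, add_zero]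
    exact DFunLike.congr_fun h p
  have hu : ∀ y : nonZeroDivisors P, IsUnit (φ y) := by
    intro y
    rw [TrivSqZeroExt.isUnit_iff_isUnit_fst, hφ]
    exact IsLocalization.map_units K y
  let ψ : K →+* TrivSqZeroExt K K := IsLocalization.lift (M := nonZeroDivisors P) (g := φ) hu
  have hψ : ∀ p : P, ψ (algebraMap P K p) = φ p := fun p => IsLocalization.lift_eq _ _
  have hf : ∀ z : K, (ψ z).fst = z := by
    intro z
    have h : ((TrivSqZeroExt.fstHom K K K).toRingHom.comp ψ) = RingHom.id K := by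
      apply IsLocalization.ringHom_ext (nonZeroDivisors P)
      apply RingHom.ext
      intro p
      change (ψ (algebraMap P K p)).fst = algebraMap P K p
      rw [hψ, hφ]
    exact DFunLike.congr_fun h z
  refine ⟨fun z => (ψ z).snd, ⟨?_, ?_⟩, ?_, ?_⟩
  · intro y z
    simp only [map_add, TrivSqZeroExt.snd_add]
  · intro y z
    simp only [map_mul, TrivSqZeroExt.snd_mul, hf, smul_eq_mul, op_smul_eq_smul]
  · change (ψ (algebraMap P K (MvPolynomial.X 0))).snd = a
    rw [hψ, MvPolynomial.eval₂Hom_X']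
    change (TrivSqZeroExt.inl (algebraMap P K (MvPolynomial.X 0)) + TrivSqZeroExt.inr a : TrivSqZeroExt K K).snd = _
    rw [TrivSqZeroExt.snd_add, TrivSqZeroExt.snd_inl, TrivSqZeroExt.snd_inr, zero_add]
  · change (ψ (algebraMap P K (MvPolynomial.X 1))).snd = b
    rw [hψ, MvPolynomial.eval₂Hom_X']
    change (TrivSqZeroExt.inl (algebraMap P K (MvPolynomial.X 1)) + TrivSqZeroExt.inr b : TrivSqZeroExt K K).snd = _
    rw [TrivSqZeroExt.snd_add, TrivSqZeroExt.snd_inl, TrivSqZeroExt.snd_inr, zero_add]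

end gen

private theorem ex_kv (a b : KU) : ∃ f : KU → KU, IsD f ∧ f al = a ∧ f be = b := ex_dv a b

/-- the derivation with `α ↦ a` and `β ↦ b` -/
def dv (a b : KU) : KU → KU := (ex_kv a b).choose

theorem dv_isD (a b : KU) : IsD (dv a b) := (ex_kv a b).choose_spec.1

theorem dv_al (a b : KU) : dv a b al = a := (ex_kv a b).choose_spec.2.1

theorem dv_be (a b : KU) : dv a b be = b := (ex_kv a b).choose_spec.2.2

/-- the partial derivative with respect to `α` -/
def dA : KU → KU := dv 1 0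

/-- the partial derivative with respect to `β` -/
def dB : KU → KU := dv 0 1

theorem dA_isD : IsD dA := dv_isD 1 0

theorem dB_isD : IsD dB := dv_isD 0 1

theorem dA_al : dA al = 1 := dv_al 1 0

theorem dA_be : dA be = 0 := dv_be 1 0

theorem dB_al : dB al = 0 := dv_al 0 1

theorem dB_be : dB be = 1 := dv_be 0 1

private theorem rat_smul_gen {A : Type} [AddCommGroup A] (m1 m2 : Module ℚ A) (f : A → A) (h0 : ∀ x y, f (x + y) = f x + f y) (r : ℚ) (x : A) :
    f (m1.toSMul.smul r x) = m2.toSMul.smul r (f x) := by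
  have h := @map_rat_smul A A _ _ m1 m2 _ _ _ (AddMonoidHom.mk' f h0) r x
  exact h

/-- as a bundled derivation -/
def IsD.der {f : KU → KU} (hf : IsD f) : Derivation ℚ KU KU where
  toFun := f
  map_add' := hf.add
  map_smul' := by
    intro r x
    rw [RingHom.id_apply]
    refine rat_smul_gen (A := KU) ?_ ?_ f hf.add r x
  map_one_eq_zero' := hf.one
  leibniz' := hf.mul

theorem IsD.der_apply {f : KU → KU} (hf : IsD f) (x : KU) : hf.der x = f x := rfl

theorem isD_der (D : Derivation ℚ KU KU) : IsD fun x => D x :=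
  ⟨fun x y => map_add D x y, fun x y => D.leibniz x y⟩

/-! ### the logarithmic derivative -/

/-- the logarithmic derivative of an element of the group -/
def LD (f : KU → KU) (u : XG) : KU :=
  u.1 * (f al / al) + u.2.1 * (f be / be) + u.2.2.1 * (f (1 - al) / (1 - al)) + u.2.2.2.1 * (f (1 - be) / (1 - be)) +
    u.2.2.2.2.1 * (f (al - be) / (al - be))

theorem D_ev {f : KU → KU} (hD : IsD f) (u : XG) : f (ev u) = LD f u * ev u :=
  ld_ev hD al_ne be_ne al_ne_one be_ne_one al_ne_be u.1 u.2.1 u.2.2.1 u.2.2.2.1 u.2.2.2.2.1 _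

theorem LD_A (u : XG) : LD dA u * (al * (1 - al) * (al - be)) =
    u.1 * ((1 - al) * (al - be)) - u.2.2.1 * (al * (al - be)) + u.2.2.2.2.1 * (al * (1 - al)) := by
  have h1 := al_ne
  have h2 := be_ne
  have h3 := al_ne_one
  have h4 := be_ne_one
  have h5 := al_ne_be
  rw [LD, dA_isD.sub, dA_isD.sub, dA_isD.sub, dA_al, dA_be, dA_isD.one]
  field_simp
  ring

theorem LD_B (u : XG) : LD dB u * (be * (1 - be) * (al - be)) =
    u.2.1 * ((1 - be) * (al - be)) - u.2.2.2.1 * (be * (al - be)) - u.2.2.2.2.1 * (be * (1 - be)) := by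
  have h1 := al_ne
  have h2 := be_ne
  have h3 := al_ne_one
  have h4 := be_ne_one
  have h5 := al_ne_be
  rw [LD, dB_isD.sub, dB_isD.sub, dB_isD.sub, dB_al, dB_be, dB_isD.one]
  field_simp
  ring

/-! ### evaluation at `α = 2`, `β = 3` -/

private abbrev MP := MvPolynomial (Fin 2) ℚ

private theorem ev23 {p : MP} (h : algebraMap MP KU p = 0) : MvPolynomial.eval ![(2 : ℚ), 3] p = 0 := by
  rw [((IsFractionRing.injective MP KU).eq_iff' (map_zero _)).1 h, map_zero]

/-- the logarithmic derivative `dA` at the point, multiplied by `2` -/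
def LA (u : XG) : ℤ := u.1 + 2 * u.2.2.1 - 2 * u.2.2.2.2.1

/-- the logarithmic derivative `dB` at the point, multiplied by `6` -/
def LB (u : XG) : ℤ := 2 * u.2.1 + 3 * u.2.2.2.1 + 6 * u.2.2.2.2.1

private theorem pA (u : XG) : ∃ p : MP, algebraMap MP KU p = LD dA u * (al * (1 - al) * (al - be)) ∧
    MvPolynomial.eval ![(2 : ℚ), 3] p = LA u := by
  refine ⟨(u.1 : MP) * ((1 - MvPolynomial.X 0) * (MvPolynomial.X 0 - MvPolynomial.X 1)) -
    (u.2.2.1 : MP) * (MvPolynomial.X 0 * (MvPolynomial.X 0 - MvPolynomial.X 1)) +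
    (u.2.2.2.2.1 : MP) * (MvPolynomial.X 0 * (1 - MvPolynomial.X 0)), ?_, ?_⟩
  · rw [LD_A]
    simp only [map_add, map_sub, map_mul, map_one, map_intCast, al, be]
  · simp only [map_add, map_sub, map_mul, map_one, map_intCast, MvPolynomial.eval_X, LA]
    norm_num
    ring

private theorem pB (u : XG) : ∃ p : MP, algebraMap MP KU p = LD dB u * (be * (1 - be) * (al - be)) ∧
    MvPolynomial.eval ![(2 : ℚ), 3] p = LB u := by
  refine ⟨(u.2.1 : MP) * ((1 - MvPolynomial.X 1) * (MvPolynomial.X 0 - MvPolynomial.X 1)) -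
    (u.2.2.2.1 : MP) * (MvPolynomial.X 1 * (MvPolynomial.X 0 - MvPolynomial.X 1)) -
    (u.2.2.2.2.1 : MP) * (MvPolynomial.X 1 * (1 - MvPolynomial.X 1)), ?_, ?_⟩
  · rw [LD_B]
    simp only [map_sub, map_mul, map_one, map_intCast, al, be]
  · simp only [map_sub, map_mul, map_one, map_intCast, MvPolynomial.eval_X, LB]
    norm_num
    ring

private theorem ck1 : (OM.all fun p => !(decide (LA p.1 = 0) && decide (LB p.1 = 0))) = true := by
  decide +kernel

private theorem ck2 : (OM.all fun p => OM.all fun q => !(FL.contains (q.1 - p.1)) || !(decide (LA p.1 * LB q.1 = LA q.1 * LB p.1))) =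
    true := by
  decide +kernel

theorem der_ne {u : KU} (h : InG u) (h' : InG (1 - u)) : ¬ (dA u = 0 ∧ dB u = 0) := by
  rintro ⟨h1, h2⟩
  obtain ⟨p, hp, rfl, -⟩ := code_pair h h'
  rw [D_ev dA_isD, mul_eq_zero] at h1
  rw [D_ev dB_isD, mul_eq_zero] at h2
  have h3 := h1.resolve_right (ev_ne_zero _)
  have h4 := h2.resolve_right (ev_ne_zero _)
  obtain ⟨P, hP, hP'⟩ := pA p.1
  obtain ⟨Q, hQ, hQ'⟩ := pB p.1
  rw [h3, zero_mul] at hP
  rw [h4, zero_mul] at hQ
  have h5 := ev23 hP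
  have h6 := ev23 hQ
  rw [hP'] at h5
  rw [hQ'] at h6
  have h7 : LA p.1 = 0 := by exact_mod_cast h5
  have h8 : LB p.1 = 0 := by exact_mod_cast h6
  have h9 := List.all_eq_true.1 ck1 p hp
  rw [decide_eq_true h7, decide_eq_true h8] at h9
  exact Bool.noConfusion h9

theorem der_ind {s t : KU} (hs : InG s) (hs' : InG (1 - s)) (ht : InG t) (ht' : InG (1 - t)) (hst : InG (s - t)) :
    dA s * dB t ≠ dA t * dB s := by
  intro h
  obtain ⟨p, hp, rfl, -⟩ := code_pair hs hs'
  obtain ⟨q, hq, rfl, -⟩ := code_pair ht ht'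
  have h0 := (mem_FL _).1 (fu_of_sub hst)
  rw [D_ev dA_isD, D_ev dA_isD, D_ev dB_isD, D_ev dB_isD] at h
  have h1 : LD dA p.1 * LD dB q.1 - LD dA q.1 * LD dB p.1 = 0 := by
    have h2 : (LD dA p.1 * LD dB q.1 - LD dA q.1 * LD dB p.1) * (ev p.1 * ev q.1) = 0 := by
      linear_combination h
    exact (mul_eq_zero.1 h2).resolve_right (mul_ne_zero (ev_ne_zero _) (ev_ne_zero _))
  obtain ⟨P, hP, hP'⟩ := pA p.1
  obtain ⟨Q, hQ, hQ'⟩ := pB p.1
  obtain ⟨P2, hP2, hP2'⟩ := pA q.1
  obtain ⟨Q2, hQ2, hQ2'⟩ := pB q.1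
  have h3 : algebraMap MP KU (P * Q2 - P2 * Q) = 0 := by
    rw [map_sub, map_mul, map_mul, hP, hQ, hP2, hQ2]
    linear_combination ((al * (1 - al) * (al - be)) * (be * (1 - be) * (al - be))) * h1
  have h4 := ev23 h3
  rw [map_sub, map_mul, map_mul, hP', hQ', hP2', hQ2'] at h4
  have h5 : LA p.1 * LB q.1 = LA q.1 * LB p.1 := by
    have h6 : LA p.1 * LB q.1 - LA q.1 * LB p.1 = 0 := by exact_mod_cast h4
    linarith
  have h9 := List.all_eq_true.1 (List.all_eq_true.1 ck2 p hp) q hq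
  rw [List.contains_eq_mem, decide_eq_true h0, decide_eq_true h5] at h9
  exact Bool.noConfusion h9

end Pool.Agent.QW
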