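import Pool.Agent.QUW.Phi
import Pool.Agent.QUW.Der
import Pool.Agent.QUN.Defs

/-!
# QUW/Ln: the forms of the derivations on four point lines and on rich boxes

`S := tu Φ`, `U2M Φ`, `T1`, `T2` the forms of two derivations `d1`, `d2` of `KU`.
`bil_zero`: a form which vanishes on the pairs of a fundamental vector and a fundamental circuit vanishes. `val_of_eq`: if the form of a derivation is
diagonal on a box, the derivation satisfies `dl (fv a c) = (l c - l a) * fv a c`, so it vanishes on the cross ratios (`cr_zero`); `eq_of_val`: the converse.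
`ln_one`, `ln_two`, `rich_no`: the conclusions for four point lines and for rich boxes.
-/

set_option autoImplicit false

noncomputable section

open scoped Classical

namespace Pool.Agent.QW

open Pool.Agent.FRM Pool.Agent.QUS Pool.Agent.QUE Pool.Agent.QUY
open Pool.Agent.QU (Fm van spt dg EqOn EqD InV Itv Sub Rich HasLn gs)

section

variable {K : Type} [Field K] {E : Type} [Fintype E] {Φ : Submodule K (E → K)} {S : Finset E}

theorem fo_expand (hS : IsB Φ S) {d : E → K} (hd : d ∈ orth Φ) : d = ∑ e ∈ Sᶜ, d e • fo Φ S e := by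
  refine orth_ext hS hd ?_ fun x hx => ?_
  · exact Submodule.sum_mem _ fun e he => Submodule.smul_mem _ _ (fo_mem hS (Finset.mem_compl.1 he))
  · rw [Finset.sum_apply, Finset.sum_eq_single x]
    · rw [Pi.smul_apply, fo_self, smul_eq_mul, mul_one]
    · intro y _ hy
      rw [Pi.smul_apply, fo_out hx hy.symm, smul_zero]
    · intro hx'
      exact absurd (Finset.mem_compl.2 hx) hx'

/-- a form is determined by its values on the fundamental vectors and the fundamental circuits -/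
theorem bil_zero (hS : IsB Φ S) (R : Fm K E) {v d : E → K} (hv : v ∈ Φ) (hd : d ∈ orth Φ)
    (h : ∀ s ∈ S, ∀ j, j ∉ S → v s ≠ 0 → d j ≠ 0 → R (fv Φ S s) (fo Φ S j) = 0) : R v d = 0 := by
  have e1 : R v d = ∑ s ∈ S, ∑ j ∈ Sᶜ, v s * (d j * R (fv Φ S s) (fo Φ S j)) := by
    have e0 : ∀ w : E → K, R w d = ∑ j ∈ Sᶜ, d j * R w (fo Φ S j) := by
      intro w
      conv_lhs => rw [fo_expand hS hd]
      rw [map_sum]
      refine Finset.sum_congr rfl fun j _ => ?_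
      rw [map_smul, smul_eq_mul]
    conv_lhs => rw [expand hS hv]
    rw [map_sum, LinearMap.sum_apply]
    refine Finset.sum_congr rfl fun s _ => ?_
    rw [map_smul, LinearMap.smul_apply, e0, smul_eq_mul, Finset.mul_sum]
  rw [e1]
  refine Finset.sum_eq_zero fun s hs => Finset.sum_eq_zero fun j hj => ?_
  by_cases h1 : v s = 0
  · rw [h1, zero_mul]
  by_cases h2 : d j = 0
  · rw [h2, zero_mul, mul_zero]
  rw [h s hs j (Finset.mem_compl.1 hj) h1 h2, mul_zero, mul_zero]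

/-- the diagonal form at a fundamental vector and a fundamental circuit -/
theorem dg_fo (hS : IsB Φ S) {i j : E} (hi : i ∈ S) (hj : j ∉ S) (l : E → K) :
    dg l (fv Φ S i) (fo Φ S j) = (l j - l i) * fv Φ S i j := by
  have hij : i ≠ j := fun h => hj (h ▸ hi)
  rw [Pool.Agent.QU.dg_apply, Finset.sum_eq_add i j hij]
  · rw [fv_self hS hi, fo_in hj hi, fo_self]
    ring
  · rintro x - ⟨hxi, hxj⟩
    by_cases hx : x ∈ S
    · rw [fv_oth hS hi hx hxi, zero_mul, mul_zero]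
    · rw [fo_out hx hxj, mul_zero, mul_zero]
  · intro h
    exact absurd (Finset.mem_univ i) h
  · intro h
    exact absurd (Finset.mem_univ j) h

end

section

variable {E : Type} [Fintype E] {Φ : Submodule KU (E → KU)} {S : Finset E} {dl : Derivation ℚ KU KU} {T : Fm KU E}

/-- the form of a derivation at a fundamental vector and a fundamental circuit -/
theorem form_fo (hT : ∀ c ∈ Φ, ∀ d ∈ (tu Φ).W, T c d = ∑ x, dl (c x) * d x) (hS : IsB Φ S) {i j : E} (hi : i ∈ S) (hj : j ∉ S) :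
    T (fv Φ S i) (fo Φ S j) = dl (fv Φ S i j) := by
  rw [hT _ (fv_mem hS hi) _ (fo_mem hS hj), Finset.sum_eq_single j]
  · rw [fo_self, mul_one]
  · intro x _ hxj
    by_cases hx : x ∈ S
    · by_cases hxi : x = i
      · rw [hxi, fv_self hS hi, Derivation.map_one_eq_zero, zero_mul]
      · rw [fv_oth hS hi hx hxi, map_zero, zero_mul]
    · rw [fo_out hx hxj, mul_zero]
  · intro h
    exact absurd (Finset.mem_univ j) h

variable {q : Itv E}

/-- necessary condition for a diagonal form -/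
theorem val_of_eq (hT : ∀ c ∈ Φ, ∀ d ∈ (tu Φ).W, T c d = ∑ x, dl (c x) * d x) (hS : IsB Φ S)
    (h1 : ∀ b ∈ S, b ∉ q.1 → ∀ e ∈ q.1, fv Φ S b e = 0) (h2 : ∀ b ∈ S, b ∉ q.2 → ∀ e ∈ q.2, fv Φ S b e = 0) {l : E → KU}
    (hl : EqOn Φ (orth Φ) q T (dg l)) {a c : E} (ha : a ∈ S) (haq : a ∉ q.1) (hc : c ∉ S) (hcq : c ∈ q.2) :
    dl (fv Φ S a c) = (l c - l a) * fv Φ S a c := by
  rw [← form_fo hT hS ha hc, ← dg_fo hS ha hc l]
  refine hl _ ⟨fv_mem hS ha, h1 a ha haq⟩ _ ⟨fo_mem hS hc, fun x hx => ?_⟩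
  by_cases hxS : x ∈ S
  · rw [fo_in hc hxS, h2 x hxS hx c hcq, neg_zero]
  · exact fo_out hxS fun h => hx (h ▸ hcq)

/-- sufficient condition for a diagonal form -/
theorem eq_of_val (hT : ∀ c ∈ Φ, ∀ d ∈ (tu Φ).W, T c d = ∑ x, dl (c x) * d x) (hS : IsB Φ S)
    (h1 : ∀ b ∈ S, b ∉ q.1 → ∀ e ∈ q.1, fv Φ S b e = 0) (h2 : ∀ b ∈ S, b ∉ q.2 → ∀ e ∈ q.2, fv Φ S b e = 0) {l : E → KU}
    (h : ∀ a ∈ S, a ∈ gs q → ∀ c ∈ gs q, c ∉ S → dl (fv Φ S a c) = (l c - l a) * fv Φ S a c) :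
    EqOn Φ (orth Φ) q T (dg l) := by
  intro v hv d hd
  have key : (T - dg l) v d = 0 := by
    refine bil_zero hS _ hv.1 hd.1 fun s hs j hj hvs hdj => ?_
    rw [LinearMap.sub_apply, LinearMap.sub_apply, form_fo hT hS hs hj, dg_fo hS hs hj]
    have hs1 : s ∉ q.1 := fun h3 => hvs (hv.2 s h3)
    have hj2 : j ∈ q.2 := by
      by_contra h3
      exact hdj (hd.2 j h3)
    by_cases hs2 : s ∈ q.2
    · by_cases hj1 : j ∈ q.1
      · rw [h1 s hs hs1 j hj1, map_zero, mul_zero, sub_zero]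
      · rw [h s hs (Finset.mem_sdiff.2 ⟨hs2, hs1⟩) j (Finset.mem_sdiff.2 ⟨hj2, hj1⟩) hj, sub_self]
    · rw [h2 s hs hs2 j hj2, map_zero, mul_zero, sub_zero]
  rw [LinearMap.sub_apply, LinearMap.sub_apply] at key
  exact sub_eq_zero.1 key

/-- the derivation vanishes on the cross ratios -/
theorem cr_zero {ac ae bc be' : KU} {la lb lc le : KU} (n2 : ae ≠ 0) (n3 : bc ≠ 0)
    (h1 : dl ac = (lc - la) * ac) (h2 : dl ae = (le - la) * ae) (h3 : dl bc = (lc - lb) * bc) (h4 : dl be' = (le - lb) * be') :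
    dl (ac * be' * (ae * bc)⁻¹) = 0 := by
  have e1 : dl (ac * be') = (lc - la + (le - lb)) * (ac * be') := by
    rw [Derivation.leibniz, h1, h4, smul_eq_mul, smul_eq_mul]
    ring
  have e2 : dl (ae * bc) = (lc - la + (le - lb)) * (ae * bc) := by
    rw [Derivation.leibniz, h2, h3, smul_eq_mul, smul_eq_mul]
    ring
  have hne : ae * bc ≠ 0 := mul_ne_zero n2 n3
  have e3 : dl (ac * be' * (ae * bc)⁻¹ * (ae * bc)) = dl (ac * be') := by
    rw [mul_assoc, inv_mul_cancel₀ hne, mul_one]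
  rw [Derivation.leibniz, e1, e2, smul_eq_mul, smul_eq_mul] at e3
  have e4 : ac * be' * (ae * bc)⁻¹ * (ae * bc) = ac * be' := by rw [mul_assoc, inv_mul_cancel₀ hne, mul_one]
  have e5 : ae * bc * dl (ac * be' * (ae * bc)⁻¹) = 0 := by
    linear_combination e3 - (lc - la + (le - lb)) * e4
  exact (mul_eq_zero.1 e5).resolve_left hne

/-- and conversely -/
theorem cr_val {ac ae bc be' : KU} (n1 : ac ≠ 0) (n2 : ae ≠ 0) (n3 : bc ≠ 0) (n4 : be' ≠ 0)
    (h : dl (ac * be' * (ae * bc)⁻¹) = 0) : dl ae * ae⁻¹ - dl ac * ac⁻¹ + dl bc * bc⁻¹ = dl be' * be'⁻¹ := by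
  have hne : ae * bc ≠ 0 := mul_ne_zero n2 n3
  have e3 : dl (ac * be' * (ae * bc)⁻¹ * (ae * bc)) = dl (ac * be') := by
    rw [mul_assoc, inv_mul_cancel₀ hne, mul_one]
  rw [Derivation.leibniz, h, smul_zero, add_zero, Derivation.leibniz, Derivation.leibniz] at e3
  simp only [smul_eq_mul] at e3
  field_simp at e3 ⊢
  linear_combination e3

end

section

variable {K : Type} [Field K] {E : Type} [Fintype E] {Φ : Submodule K (E → K)} {S : Finset E} {q : Itv E}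

omit [Fintype E] in
private theorem ln_gs {x : E} : x ∈ gs q ↔ x ∈ q.2 ∧ x ∉ q.1 := Finset.mem_sdiff

/-- the number of elements of an adapted basis -/
theorem card_bas (hS : IsB Φ S) (hq : q.1 ⊆ q.2) (h1 : ∀ b ∈ S, b ∉ q.1 → ∀ e ∈ q.1, fv Φ S b e = 0)
    (h2 : ∀ b ∈ S, b ∉ q.2 → ∀ e ∈ q.2, fv Φ S b e = 0) : ((S ∩ gs q).card : ℤ) = rk Φ q.2 - rk Φ q.1 := by
  have r1 := rk_eq hS h1
  have r2 := rk_eq hS h2
  have e1 : (S ∩ q.1) ∪ (S ∩ gs q) = S ∩ q.2 := by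
    ext x
    have h3 : x ∈ q.1 → x ∈ q.2 := fun h => hq h
    simp only [Finset.mem_union, Finset.mem_inter, ln_gs]
    tauto
  have e2 : Disjoint (S ∩ q.1) (S ∩ gs q) := by
    rw [Finset.disjoint_left]
    intro x hx hx'
    exact (ln_gs.1 (Finset.mem_inter.1 hx').2).2 (Finset.mem_inter.1 hx).2
  have e3 := Finset.card_union_of_disjoint e2
  rw [e1] at e3
  rw [r1, r2, e3]
  push_cast
  ring

/-- all sets of the right size are spanning -/
def Uni (r : Finset E → ℤ) (q : Itv E) : Prop :=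
  ∀ Z ⊆ gs q, (Z.card : ℤ) = r q.2 - r q.1 → r (q.1 ∪ Z) = r q.2

private theorem uni_van (hU : Uni (rk Φ) q) (hq : q.1 ⊆ q.2) {v : E → K} (hv : v ∈ Φ) (h0 : ∀ x ∈ q.1, v x = 0) {Z : Finset E}
    (hZ : Z ⊆ gs q) (hc : (Z.card : ℤ) = rk Φ q.2 - rk Φ q.1) (h1 : ∀ x ∈ Z, v x = 0) : ∀ x ∈ q.2, v x = 0 := by
  refine van_of_rk (A := q.1 ∪ Z) (B := q.2) (Finset.union_subset hq fun x hx => (ln_gs.1 (hZ hx)).1) (hU Z hZ hc) hv fun x hx => ?_
  rcases Finset.mem_union.1 hx with h | h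
  · exact h0 x h
  · exact h1 x h

section

variable (hU : Uni (rk Φ) q) (hS : IsB Φ S) (hq : q.1 ⊆ q.2) (h1 : ∀ b ∈ S, b ∉ q.1 → ∀ e ∈ q.1, fv Φ S b e = 0)
  (h2 : ∀ b ∈ S, b ∉ q.2 → ∀ e ∈ q.2, fv Φ S b e = 0)

include hU hS hq h1 h2

/-- the entries are not zero -/
theorem nz_ent {a c : E} (ha : a ∈ S) (haq : a ∈ gs q) (hc : c ∉ S) (hcq : c ∈ gs q) : fv Φ S a c ≠ 0 := by
  intro h0
  have hcard := card_bas hS hq h1 h2
  have haS : a ∈ S ∩ gs q := Finset.mem_inter.2 ⟨ha, haq⟩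
  have hcS : c ∉ (S ∩ gs q).erase a := fun h => hc (Finset.mem_inter.1 (Finset.mem_of_mem_erase h)).1
  have e1 : ((insert c ((S ∩ gs q).erase a)).card : ℤ) = rk Φ q.2 - rk Φ q.1 := by
    rw [← hcard, Finset.card_insert_of_notMem hcS, Finset.card_erase_add_one haS]
  have e2 := uni_van hU hq (fv_mem hS ha) (h1 a ha (ln_gs.1 haq).2) (Z := insert c ((S ∩ gs q).erase a)) (by
    intro x hx
    rcases Finset.mem_insert.1 hx with rfl | hx
    · exact hcq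
    · exact (Finset.mem_inter.1 (Finset.mem_of_mem_erase hx)).2) e1 (by
    intro x hx
    rcases Finset.mem_insert.1 hx with rfl | hx
    · exact h0
    · exact fv_oth hS ha (Finset.mem_inter.1 (Finset.mem_of_mem_erase hx)).1 (Finset.ne_of_mem_erase hx)) a (ln_gs.1 haq).1
  rw [fv_self hS ha] at e2
  exact one_ne_zero e2

/-- the minors of order two are not zero -/
theorem nz_min {a b c e : E} (ha : a ∈ S) (haq : a ∈ gs q) (hb : b ∈ S) (hbq : b ∈ gs q) (hab : a ≠ b) (hc : c ∉ S) (hcq : c ∈ gs q)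
    (he : e ∉ S) (heq : e ∈ gs q) (hce : c ≠ e) : fv Φ S a c * fv Φ S b e - fv Φ S a e * fv Φ S b c ≠ 0 := by
  intro h0
  have hcard := card_bas hS hq h1 h2
  have hbS : b ∈ S ∩ gs q := Finset.mem_inter.2 ⟨hb, hbq⟩
  have haS : a ∈ (S ∩ gs q).erase b := Finset.mem_erase.2 ⟨hab, Finset.mem_inter.2 ⟨ha, haq⟩⟩
  have hsub : ∀ x ∈ ((S ∩ gs q).erase b).erase a, x ∈ S ∧ x ∈ gs q ∧ x ≠ b ∧ x ≠ a := by
    intro x hx
    have h3 := Finset.mem_erase.1 hx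
    have h4 := Finset.mem_erase.1 h3.2
    have h5 := Finset.mem_inter.1 h4.2
    exact ⟨h5.1, h5.2, h4.1, h3.1⟩
  have n1 : e ∉ ((S ∩ gs q).erase b).erase a := fun h => he (hsub e h).1
  have n2 : c ∉ insert e (((S ∩ gs q).erase b).erase a) := by
    rw [Finset.mem_insert, not_or]
    exact ⟨hce, fun h => hc (hsub c h).1⟩
  have e1 : ((insert c (insert e (((S ∩ gs q).erase b).erase a))).card : ℤ) = rk Φ q.2 - rk Φ q.1 := by
    rw [← hcard, Finset.card_insert_of_notMem n2, Finset.card_insert_of_notMem n1, Finset.card_erase_add_one haS,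
      Finset.card_erase_add_one hbS]
  have e2 := uni_van hU hq (v := fv Φ S b c • fv Φ S a - fv Φ S a c • fv Φ S b)
    (Φ.sub_mem (Φ.smul_mem _ (fv_mem hS ha)) (Φ.smul_mem _ (fv_mem hS hb))) (by
      intro x hx
      rw [Pi.sub_apply, Pi.smul_apply, Pi.smul_apply, h1 a ha (ln_gs.1 haq).2 x hx, h1 b hb (ln_gs.1 hbq).2 x hx, smul_zero, smul_zero,
        sub_zero]) (Z := insert c (insert e (((S ∩ gs q).erase b).erase a))) (by
      intro x hx
      rcases Finset.mem_insert.1 hx with rfl | hx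
      · exact hcq
      · rcases Finset.mem_insert.1 hx with rfl | hx
        · exact heq
        · exact (hsub x hx).2.1) e1 (by
      intro x hx
      rw [Pi.sub_apply, Pi.smul_apply, Pi.smul_apply, smul_eq_mul, smul_eq_mul]
      rcases Finset.mem_insert.1 hx with rfl | hx
      · ring
      · rcases Finset.mem_insert.1 hx with rfl | hx
        · linear_combination -h0
        · rw [fv_oth hS ha (hsub x hx).1 (hsub x hx).2.2.2, fv_oth hS hb (hsub x hx).1 (hsub x hx).2.2.1]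
          ring) a (ln_gs.1 haq).1
  rw [Pi.sub_apply, Pi.smul_apply, Pi.smul_apply, smul_eq_mul, smul_eq_mul, fv_self hS ha, fv_oth hS hb ha hab] at e2
  exact nz_ent hU hS hq h1 h2 hb hbq hc hcq (by linear_combination e2)

end

end

section

variable {E : Type} [Fintype E] {Φ : Submodule KU (E → KU)} {S : Finset E}

omit [Fintype E] in
theorem u2_ent (hU : U2M Φ) (hS : IsB Φ S) {a c : E} (ha : a ∈ S) (hc : c ∉ S) (h0 : fv Φ S a c ≠ 0) : InG (fv Φ S a c) :=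
  (hU S hS a ha c hc).resolve_left h0

omit [Fintype E] in
theorem u2_min (hU : U2M Φ) (hS : IsB Φ S) {a b c e : E} (ha : a ∈ S) (hb : b ∈ S) (hab : a ≠ b) (hc : c ∉ S) (he : e ∉ S) (hce : c ≠ e)
    (hbc : fv Φ S b c ≠ 0) (h0 : fv Φ S a c * fv Φ S b e - fv Φ S a e * fv Φ S b c ≠ 0) :
    InG (fv Φ S a c * fv Φ S b e - fv Φ S a e * fv Φ S b c) := by
  have hu : IsUnit (fv Φ S b c) := isUnit_iff_ne_zero.2 hbc
  have h1 := piv_old_apply hS hb hc hu ha hab e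
  have h2 := hU _ (piv hS hb hc hu) a (mem_pv.2 (Or.inr ⟨hab, ha⟩)) e (fun h => by
    rcases mem_pv.1 h with h | h
    · exact hce h.symm
    · exact he h.2)
  have h3 : fv Φ (pv S b c) a e * fv Φ S b c = fv Φ S a e * fv Φ S b c - fv Φ S a c * fv Φ S b e := by
    rw [h1, sc, Ring.inverse_eq_inv']
    field_simp
  have h4 : fv Φ (pv S b c) a e ≠ 0 := by
    intro h5
    rw [h5, zero_mul] at h3
    exact h0 (by linear_combination h3)
  have h6 := inG_neg (inG_mul (h2.resolve_left h4) (u2_ent hU hS hb hc hbc))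
  rw [h3] at h6
  have h7 : -(fv Φ S a e * fv Φ S b c - fv Φ S a c * fv Φ S b e) = fv Φ S a c * fv Φ S b e - fv Φ S a e * fv Φ S b c := by ring
  rwa [h7] at h6

end

section

variable {E : Type} [Fintype E] {Φ : Submodule KU (E → KU)} {S : Finset E} {q : Itv E}

private theorem cr_in {ac ae bc be' : KU} (i1 : InG ac) (i2 : InG ae) (i3 : InG bc) (i4 : InG be') (i5 : InG (ac * be' - ae * bc)) :
    InG (ac * be' * (ae * bc)⁻¹) ∧ InG (1 - ac * be' * (ae * bc)⁻¹) := by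
  have n2 := inG_ne i2
  have n3 := inG_ne i3
  refine ⟨inG_mul (inG_mul i1 i4) (inG_inv (inG_mul i2 i3)), ?_⟩
  have h : 1 - ac * be' * (ae * bc)⁻¹ = -(ac * be' - ae * bc) * (ae * bc)⁻¹ := by
    field_simp
    ring
  rw [h]
  exact inG_mul (inG_neg i5) (inG_inv (inG_mul i2 i3))

/-- four point lines: the form of a derivation is diagonal if and only if the derivation vanishes on the cross ratio -/
theorem line_main (hM : U2M Φ) (hq : q.1 ⊆ q.2) (h4 : (gs q).card = 4) (hr : rk Φ q.2 = rk Φ q.1 + 2) (hU : Uni (rk Φ) q) :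
    ∃ u : KU, InG u ∧ InG (1 - u) ∧ ∀ (dl : Derivation ℚ KU KU) (T : Fm KU E),
      (∀ c ∈ Φ, ∀ d ∈ (tu Φ).W, T c d = ∑ x, dl (c x) * d x) → (EqD Φ (orth Φ) q T 0 ↔ dl u = 0) := by
  obtain ⟨S, hS, h1, h2⟩ := exists_chain Φ hq
  have hcard := card_bas hS hq h1 h2
  have c2 : (S ∩ gs q).card = 2 := by
    have h5 : ((S ∩ gs q).card : ℤ) = 2 := by rw [hcard, hr]; ring
    exact_mod_cast h5
  have c2' : (gs q \ S).card = 2 := by
    have h5 := Finset.card_sdiff_add_card_inter (gs q) S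
    rw [Finset.inter_comm, c2, h4] at h5
    omega
  obtain ⟨a, b, hab, hSN⟩ := Finset.card_eq_two.1 c2
  obtain ⟨c, e, hce, hNS⟩ := Finset.card_eq_two.1 c2'
  have ha : a ∈ S ∩ gs q := by rw [hSN]; exact Finset.mem_insert_self _ _
  have hb : b ∈ S ∩ gs q := by rw [hSN]; exact Finset.mem_insert_of_mem (Finset.mem_singleton_self _)
  have hc : c ∈ gs q \ S := by rw [hNS]; exact Finset.mem_insert_self _ _
  have he : e ∈ gs q \ S := by rw [hNS]; exact Finset.mem_insert_of_mem (Finset.mem_singleton_self _)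
  rw [Finset.mem_inter] at ha hb
  rw [Finset.mem_sdiff] at hc he
  have n1 := nz_ent hU hS hq h1 h2 ha.1 ha.2 hc.2 hc.1
  have n2 := nz_ent hU hS hq h1 h2 ha.1 ha.2 he.2 he.1
  have n3 := nz_ent hU hS hq h1 h2 hb.1 hb.2 hc.2 hc.1
  have n4 := nz_ent hU hS hq h1 h2 hb.1 hb.2 he.2 he.1
  have n5 := nz_min hU hS hq h1 h2 ha.1 ha.2 hb.1 hb.2 hab hc.2 hc.1 he.2 he.1 hce
  obtain ⟨i1, i2⟩ := cr_in (u2_ent hM hS ha.1 hc.2 n1) (u2_ent hM hS ha.1 he.2 n2) (u2_ent hM hS hb.1 hc.2 n3) (u2_ent hM hS hb.1 he.2 n4)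
    (u2_min hM hS ha.1 hb.1 hab hc.2 he.2 hce n3 n5)
  refine ⟨_, i1, i2, fun dl T hT => ⟨?_, fun h => ?_⟩⟩
  · rintro ⟨l, hl⟩
    rw [zero_add] at hl
    have g : ∀ {x : E}, x ∈ gs q → x ∈ q.2 ∧ x ∉ q.1 := fun hx => Finset.mem_sdiff.1 hx
    exact cr_zero n2 n3 (val_of_eq hT hS h1 h2 hl ha.1 (g ha.2).2 hc.2 (g hc.1).1) (val_of_eq hT hS h1 h2 hl ha.1 (g ha.2).2 he.2 (g he.1).1)
      (val_of_eq hT hS h1 h2 hl hb.1 (g hb.2).2 hc.2 (g hc.1).1) (val_of_eq hT hS h1 h2 hl hb.1 (g hb.2).2 he.2 (g he.1).1)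
  · have h5 := cr_val n1 n2 n3 n4 h
    have hac : a ≠ c := fun h => hc.2 (h ▸ ha.1)
    have hae : a ≠ e := fun h => he.2 (h ▸ ha.1)
    have hbc : b ≠ c := fun h => hc.2 (h ▸ hb.1)
    have hbe : b ≠ e := fun h => he.2 (h ▸ hb.1)
    refine ⟨fun x => if x = c then dl (fv Φ S a c) * (fv Φ S a c)⁻¹ else if x = e then dl (fv Φ S a e) * (fv Φ S a e)⁻¹ else
      if x = b then dl (fv Φ S a c) * (fv Φ S a c)⁻¹ - dl (fv Φ S b c) * (fv Φ S b c)⁻¹ else 0, ?_⟩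
    rw [zero_add]
    refine eq_of_val hT hS h1 h2 fun x hx hxq y hyq hyS => ?_
    have hx' : x ∈ S ∩ gs q := Finset.mem_inter.2 ⟨hx, hxq⟩
    have hy' : y ∈ gs q \ S := Finset.mem_sdiff.2 ⟨hyq, hyS⟩
    rw [hSN, Finset.mem_insert, Finset.mem_singleton] at hx'
    rw [hNS, Finset.mem_insert, Finset.mem_singleton] at hy'
    rcases hx' with rfl | rfl <;> rcases hy' with rfl | rfl
    · simp only [if_pos, if_neg hac, if_neg hae, if_neg hab]
      field_simp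
      ring
    · simp only [if_pos, if_neg hac, if_neg hae, if_neg hab, if_neg hce.symm]
      field_simp
      ring
    · simp only [if_pos, if_neg hbc, if_neg hbe]
      field_simp
      ring
    · simp only [if_pos, if_neg hbc, if_neg hbe, if_neg hce.symm]
      have h6 : dl (fv Φ S x y) = (dl (fv Φ S x y) * (fv Φ S x y)⁻¹) * fv Φ S x y := by
        rw [mul_assoc, inv_mul_cancel₀ n4, mul_one]
      rw [h6, ← h5]
      ring

/-- rich boxes: two independent cross ratios -/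
theorem rich_main (hM : U2M Φ) (hq : q.1 ⊆ q.2) (h4 : (gs q).card = 5) (hr : rk Φ q.2 = rk Φ q.1 + 2 ∨ rk Φ q.2 = rk Φ q.1 + 3)
    (hU : Uni (rk Φ) q) :
    ∃ u w : KU, InG u ∧ InG (1 - u) ∧ InG w ∧ InG (1 - w) ∧ InG (u - w) ∧ ∀ (dl : Derivation ℚ KU KU) (T : Fm KU E),
      (∀ c ∈ Φ, ∀ d ∈ (tu Φ).W, T c d = ∑ x, dl (c x) * d x) → EqD Φ (orth Φ) q T 0 → dl u = 0 ∧ dl w = 0 := by
  obtain ⟨S, hS, h1, h2⟩ := exists_chain Φ hq
  have hcard := card_bas hS hq h1 h2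
  have g : ∀ {x : E}, x ∈ gs q → x ∈ q.2 ∧ x ∉ q.1 := fun hx => Finset.mem_sdiff.1 hx
  have hsd := Finset.card_sdiff_add_card_inter (gs q) S
  rw [Finset.inter_comm, h4] at hsd
  rcases hr with hr | hr
  · have c2 : (S ∩ gs q).card = 2 := by
      have h5 : ((S ∩ gs q).card : ℤ) = 2 := by rw [hcard, hr]; ring
      exact_mod_cast h5
    have c3 : (gs q \ S).card = 3 := by omega
    obtain ⟨a, b, hab, hSN⟩ := Finset.card_eq_two.1 c2
    obtain ⟨c, e, f, hce, hcf, hef, hNS⟩ := Finset.card_eq_three.1 c3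
    have ha : a ∈ S ∩ gs q := by rw [hSN]; simp
    have hb : b ∈ S ∩ gs q := by rw [hSN]; simp
    have hc : c ∈ gs q \ S := by rw [hNS]; simp
    have he : e ∈ gs q \ S := by rw [hNS]; simp
    have hf : f ∈ gs q \ S := by rw [hNS]; simp
    rw [Finset.mem_inter] at ha hb
    rw [Finset.mem_sdiff] at hc he hf
    have nac := nz_ent hU hS hq h1 h2 ha.1 ha.2 hc.2 hc.1
    have nae := nz_ent hU hS hq h1 h2 ha.1 ha.2 he.2 he.1
    have naf := nz_ent hU hS hq h1 h2 ha.1 ha.2 hf.2 hf.1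
    have nbc := nz_ent hU hS hq h1 h2 hb.1 hb.2 hc.2 hc.1
    have nbe := nz_ent hU hS hq h1 h2 hb.1 hb.2 he.2 he.1
    have nbf := nz_ent hU hS hq h1 h2 hb.1 hb.2 hf.2 hf.1
    have nce := nz_min hU hS hq h1 h2 ha.1 ha.2 hb.1 hb.2 hab hc.2 hc.1 he.2 he.1 hce
    have ncf := nz_min hU hS hq h1 h2 ha.1 ha.2 hb.1 hb.2 hab hc.2 hc.1 hf.2 hf.1 hcf
    have nef := nz_min hU hS hq h1 h2 ha.1 ha.2 hb.1 hb.2 hab he.2 he.1 hf.2 hf.1 hef
    have gac := u2_ent hM hS ha.1 hc.2 nac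
    have gae := u2_ent hM hS ha.1 he.2 nae
    have gaf := u2_ent hM hS ha.1 hf.2 naf
    have gbc := u2_ent hM hS hb.1 hc.2 nbc
    have gbe := u2_ent hM hS hb.1 he.2 nbe
    have gbf := u2_ent hM hS hb.1 hf.2 nbf
    have gef := u2_min hM hS ha.1 hb.1 hab he.2 hf.2 hef nbe nef
    obtain ⟨i1, i2⟩ := cr_in gac gae gbc gbe (u2_min hM hS ha.1 hb.1 hab hc.2 he.2 hce nbc nce)
    obtain ⟨j1, j2⟩ := cr_in gac gaf gbc gbf (u2_min hM hS ha.1 hb.1 hab hc.2 hf.2 hcf nbc ncf)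
    refine ⟨_, _, i1, i2, j1, j2, ?_, ?_⟩
    · have h6 : fv Φ S a c * fv Φ S b e * (fv Φ S a e * fv Φ S b c)⁻¹ - fv Φ S a c * fv Φ S b f * (fv Φ S a f * fv Φ S b c)⁻¹ =
          -(fv Φ S a c * (fv Φ S a e * fv Φ S b f - fv Φ S a f * fv Φ S b e)) * (fv Φ S a e * (fv Φ S a f * fv Φ S b c))⁻¹ := by
        field_simp
        ring
      rw [h6]
      exact inG_mul (inG_neg (inG_mul gac gef)) (inG_inv (inG_mul gae (inG_mul gaf gbc)))
    · rintro dl T hT ⟨l, hl⟩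
      rw [zero_add] at hl
      have v : ∀ {x y : E}, x ∈ S → x ∈ gs q → y ∉ S → y ∈ gs q → dl (fv Φ S x y) = (l y - l x) * fv Φ S x y :=
        fun hx hxq hy hyq => val_of_eq hT hS h1 h2 hl hx (g hxq).2 hy (g hyq).1
      exact ⟨cr_zero nae nbc (v ha.1 ha.2 hc.2 hc.1) (v ha.1 ha.2 he.2 he.1) (v hb.1 hb.2 hc.2 hc.1) (v hb.1 hb.2 he.2 he.1),
        cr_zero naf nbc (v ha.1 ha.2 hc.2 hc.1) (v ha.1 ha.2 hf.2 hf.1) (v hb.1 hb.2 hc.2 hc.1) (v hb.1 hb.2 hf.2 hf.1)⟩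
  · have c3 : (S ∩ gs q).card = 3 := by
      have h5 : ((S ∩ gs q).card : ℤ) = 3 := by rw [hcard, hr]; ring
      exact_mod_cast h5
    have c2 : (gs q \ S).card = 2 := by omega
    obtain ⟨a, b, f, hab, haf, hbf, hSN⟩ := Finset.card_eq_three.1 c3
    obtain ⟨c, e, hce, hNS⟩ := Finset.card_eq_two.1 c2
    have ha : a ∈ S ∩ gs q := by rw [hSN]; simp
    have hb : b ∈ S ∩ gs q := by rw [hSN]; simp
    have hf : f ∈ S ∩ gs q := by rw [hSN]; simp
    have hc : c ∈ gs q \ S := by rw [hNS]; simp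
    have he : e ∈ gs q \ S := by rw [hNS]; simp
    rw [Finset.mem_inter] at ha hb hf
    rw [Finset.mem_sdiff] at hc he
    have nac := nz_ent hU hS hq h1 h2 ha.1 ha.2 hc.2 hc.1
    have nae := nz_ent hU hS hq h1 h2 ha.1 ha.2 he.2 he.1
    have nbc := nz_ent hU hS hq h1 h2 hb.1 hb.2 hc.2 hc.1
    have nbe := nz_ent hU hS hq h1 h2 hb.1 hb.2 he.2 he.1
    have nfc := nz_ent hU hS hq h1 h2 hf.1 hf.2 hc.2 hc.1
    have nfe := nz_ent hU hS hq h1 h2 hf.1 hf.2 he.2 he.1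
    have nab := nz_min hU hS hq h1 h2 ha.1 ha.2 hb.1 hb.2 hab hc.2 hc.1 he.2 he.1 hce
    have naf := nz_min hU hS hq h1 h2 ha.1 ha.2 hf.1 hf.2 haf hc.2 hc.1 he.2 he.1 hce
    have nbf := nz_min hU hS hq h1 h2 hb.1 hb.2 hf.1 hf.2 hbf hc.2 hc.1 he.2 he.1 hce
    have gac := u2_ent hM hS ha.1 hc.2 nac
    have gae := u2_ent hM hS ha.1 he.2 nae
    have gbc := u2_ent hM hS hb.1 hc.2 nbc
    have gbe := u2_ent hM hS hb.1 he.2 nbe
    have gfc := u2_ent hM hS hf.1 hc.2 nfc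
    have gfe := u2_ent hM hS hf.1 he.2 nfe
    have gbf := u2_min hM hS hb.1 hf.1 hbf hc.2 he.2 hce nfc nbf
    obtain ⟨i1, i2⟩ := cr_in gac gae gbc gbe (u2_min hM hS ha.1 hb.1 hab hc.2 he.2 hce nbc nab)
    obtain ⟨j1, j2⟩ := cr_in gac gae gfc gfe (u2_min hM hS ha.1 hf.1 haf hc.2 he.2 hce nfc naf)
    refine ⟨_, _, i1, i2, j1, j2, ?_, ?_⟩
    · have h6 : fv Φ S a c * fv Φ S b e * (fv Φ S a e * fv Φ S b c)⁻¹ - fv Φ S a c * fv Φ S f e * (fv Φ S a e * fv Φ S f c)⁻¹ =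
          -(fv Φ S a c * (fv Φ S b c * fv Φ S f e - fv Φ S b e * fv Φ S f c)) * (fv Φ S a e * (fv Φ S b c * fv Φ S f c))⁻¹ := by
        field_simp
        ring
      rw [h6]
      exact inG_mul (inG_neg (inG_mul gac gbf)) (inG_inv (inG_mul gae (inG_mul gbc gfc)))
    · rintro dl T hT ⟨l, hl⟩
      rw [zero_add] at hl
      have v : ∀ {x y : E}, x ∈ S → x ∈ gs q → y ∉ S → y ∈ gs q → dl (fv Φ S x y) = (l y - l x) * fv Φ S x y :=
        fun hx hxq hy hyq => val_of_eq hT hS h1 h2 hl hx (g hxq).2 hy (g hyq).1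
      exact ⟨cr_zero nae nbc (v ha.1 ha.2 hc.2 hc.1) (v ha.1 ha.2 he.2 he.1) (v hb.1 hb.2 hc.2 hc.1) (v hb.1 hb.2 he.2 he.1),
        cr_zero nae nfc (v ha.1 ha.2 hc.2 hc.1) (v ha.1 ha.2 he.2 he.1) (v hf.1 hf.2 hc.2 hc.1) (v hf.1 hf.2 he.2 he.1)⟩

end

section

variable {E : Type} [Fintype E] {Φ : Submodule KU (E → KU)} {q : Itv E}

omit [Fintype E] in
private theorem uni_ln {r : Finset E → ℤ} {Y N : Finset E} (hd : Disjoint N Y) (hr : r (Y ∪ N) = r Y + 2)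
    (h : ∀ i ∈ N, ∀ j ∈ N, i ≠ j → r (insert i (insert j Y)) = r Y + 2) : gs ((Y, Y ∪ N) : Itv E) = N ∧ Uni r (Y, Y ∪ N) := by
  have e1 : gs ((Y, Y ∪ N) : Itv E) = N := by
    show (Y ∪ N) \ Y = N
    ext x
    have h1 : x ∈ N → x ∉ Y := fun h => Finset.disjoint_left.1 hd h
    simp only [Finset.mem_sdiff, Finset.mem_union]
    tauto
  refine ⟨e1, fun Z hZ hc => ?_⟩
  have hc2 : Z.card = 2 := by
    have h5 : (Z.card : ℤ) = r (Y ∪ N) - r Y := hc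
    rw [hr] at h5
    have h6 : (Z.card : ℤ) = 2 := by rw [h5]; ring
    exact_mod_cast h6
  obtain ⟨i, j, hij, rfl⟩ := Finset.card_eq_two.1 hc2
  rw [e1] at hZ
  have h7 := h i (hZ (by simp)) j (hZ (by simp)) hij
  show r (Y ∪ {i, j}) = r (Y ∪ N)
  rw [hr, ← h7]
  congr 1
  ext x
  simp only [Finset.mem_union, Finset.mem_insert, Finset.mem_singleton]
  tauto

omit [Fintype E] in
private theorem uni_rich {r : Finset E → ℤ} (h : Rich r q) :
    q.1 ⊆ q.2 ∧ (gs q).card = 5 ∧ (r q.2 = r q.1 + 2 ∨ r q.2 = r q.1 + 3) ∧ Uni r q := by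
  obtain ⟨hq, h5, h⟩ := h
  rcases h with ⟨hr, h⟩ | ⟨hr, h⟩
  · refine ⟨hq, h5, Or.inl hr, fun Z hZ hc => ?_⟩
    have hc2 : Z.card = 2 := by
      have h6 : (Z.card : ℤ) = 2 := by rw [hc, hr]; ring
      exact_mod_cast h6
    obtain ⟨i, j, hij, rfl⟩ := Finset.card_eq_two.1 hc2
    rw [h i (hZ (by simp)) j (hZ (by simp)) hij, hr]
  · refine ⟨hq, h5, Or.inr hr, fun Z hZ hc => ?_⟩
    have hc2 : Z.card = 3 := by
      have h6 : (Z.card : ℤ) = 3 := by rw [hc, hr]; ring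
      exact_mod_cast h6
    obtain ⟨i, j, k, hij, hik, hjk, rfl⟩ := Finset.card_eq_three.1 hc2
    rw [h i (hZ (by simp)) j (hZ (by simp)) k (hZ (by simp)) hij hik hjk, hr]

variable {d1 d2 : Derivation ℚ KU KU} {T1 T2 : Fm KU E}

private theorem form_comb (hT1 : ∀ c ∈ Φ, ∀ d ∈ (tu Φ).W, T1 c d = ∑ x, d1 (c x) * d x)
    (hT2 : ∀ c ∈ Φ, ∀ d ∈ (tu Φ).W, T2 c d = ∑ x, d2 (c x) * d x) (a b : KU) :
    ∀ c ∈ Φ, ∀ d ∈ (tu Φ).W, (a • T1 + b • T2) c d = ∑ x, (a • d1 + b • d2) (c x) * d x := by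
  intro c hc d hd
  rw [LinearMap.add_apply, LinearMap.add_apply, LinearMap.smul_apply, LinearMap.smul_apply, LinearMap.smul_apply, LinearMap.smul_apply,
    hT1 c hc d hd, hT2 c hc d hd, smul_eq_mul, smul_eq_mul, Finset.mul_sum, Finset.mul_sum, ← Finset.sum_add_distrib]
  refine Finset.sum_congr rfl fun x _ => ?_
  rw [Derivation.add_apply, Derivation.smul_apply, Derivation.smul_apply, smul_eq_mul, smul_eq_mul]
  ring

/-- on a four point line some combination of the two forms is diagonal -/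
theorem ln_one_gen (hM : U2M Φ) (hT1 : ∀ c ∈ Φ, ∀ d ∈ (tu Φ).W, T1 c d = ∑ x, d1 (c x) * d x)
    (hT2 : ∀ c ∈ Φ, ∀ d ∈ (tu Φ).W, T2 c d = ∑ x, d2 (c x) * d x) (hq : q.1 ⊆ q.2) (h4 : (gs q).card = 4)
    (hN : HasLn (tu Φ).r q) : ∃ a b : KU, (a ≠ 0 ∨ b ≠ 0) ∧ EqD (tu Φ).U (tu Φ).W q (a • T1 + b • T2) 0 := by
  obtain ⟨N, hc, Y, hY1, hY2, hd, hr, h⟩ := hN
  have hNg : N ⊆ gs q := fun x hx => Finset.mem_sdiff.2 ⟨hY2 (Finset.mem_union_right _ hx), fun h' => Finset.disjoint_left.1 hd hx (hY1 h')⟩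
  have hNe : N = gs q := Finset.eq_of_subset_of_card_le hNg (by rw [h4, hc])
  have hYe : Y = q.1 := by
    refine Finset.Subset.antisymm (fun x hx => ?_) hY1
    by_contra h'
    have h6 : x ∈ gs q := Finset.mem_sdiff.2 ⟨hY2 (Finset.mem_union_left _ hx), h'⟩
    rw [← hNe] at h6
    exact Finset.disjoint_left.1 hd h6 hx
  have hqe : q = (Y, Y ∪ N) := by
    refine Prod.ext hYe.symm ?_
    show q.2 = Y ∪ N
    rw [hYe, hNe]
    exact (Finset.union_sdiff_of_subset hq).symm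
  obtain ⟨g1, hU⟩ := uni_ln hd hr h
  rw [hqe]
  obtain ⟨u, -, -, hu⟩ := line_main hM (q := (Y, Y ∪ N)) Finset.subset_union_left (by rw [g1, hc]) hr hU
  by_cases h0 : d1 u = 0 ∧ d2 u = 0
  · refine ⟨1, 0, Or.inl one_ne_zero, (hu _ _ (form_comb hT1 hT2 1 0)).2 ?_⟩
    rw [Derivation.add_apply, Derivation.smul_apply, Derivation.smul_apply, h0.1, h0.2, smul_zero, smul_zero, add_zero]
  · refine ⟨d2 u, -d1 u, ?_, (hu _ _ (form_comb hT1 hT2 _ _)).2 ?_⟩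
    · by_contra hcon
      push Not at hcon
      exact h0 ⟨neg_eq_zero.1 hcon.2, hcon.1⟩
    · rw [Derivation.add_apply, Derivation.smul_apply, Derivation.smul_apply, smul_eq_mul, smul_eq_mul]
      ring

/-- the two forms do not both become diagonal on a four point line -/
theorem ln_two_gen (hM : U2M Φ) (hne : ∀ u : KU, InG u → InG (1 - u) → ¬ (d1 u = 0 ∧ d2 u = 0))
    (hT1 : ∀ c ∈ Φ, ∀ d ∈ (tu Φ).W, T1 c d = ∑ x, d1 (c x) * d x)
    (hT2 : ∀ c ∈ Φ, ∀ d ∈ (tu Φ).W, T2 c d = ∑ x, d2 (c x) * d x) (hN : HasLn (tu Φ).r q) {a b a' b' : KU}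
    (h1 : EqD (tu Φ).U (tu Φ).W q (a • T1 + b • T2) 0) (h2 : EqD (tu Φ).U (tu Φ).W q (a' • T1 + b' • T2) 0) : a * b' = a' * b := by
  obtain ⟨N, hc, Y, hY1, hY2, hd, hr, h⟩ := hN
  obtain ⟨g1, hU⟩ := uni_ln hd hr h
  have hs : Sub ((Y, Y ∪ N) : Itv E) q := ⟨hY1, hY2⟩
  obtain ⟨u, i1, i2, hu⟩ := line_main hM (q := (Y, Y ∪ N)) Finset.subset_union_left (by rw [g1, hc]) hr hU
  have e1 := (hu _ _ (form_comb hT1 hT2 a b)).1 (h1.mono hs)
  have e2 := (hu _ _ (form_comb hT1 hT2 a' b')).1 (h2.mono hs)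
  rw [Derivation.add_apply, Derivation.smul_apply, Derivation.smul_apply, smul_eq_mul, smul_eq_mul] at e1 e2
  by_contra hcon
  have hD : a * b' - a' * b ≠ 0 := sub_ne_zero.2 hcon
  refine hne u i1 i2 ⟨?_, ?_⟩
  · have h5 : (a * b' - a' * b) * d1 u = 0 := by linear_combination b' * e1 - b * e2
    exact (mul_eq_zero.1 h5).resolve_left hD
  · have h5 : (a * b' - a' * b) * d2 u = 0 := by linear_combination a * e2 - a' * e1
    exact (mul_eq_zero.1 h5).resolve_left hD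

/-- no combination of the two forms is diagonal on a rich box -/
theorem rich_no_gen (hM : U2M Φ)
    (hind : ∀ s t : KU, InG s → InG (1 - s) → InG t → InG (1 - t) → InG (s - t) → d1 s * d2 t ≠ d1 t * d2 s)
    (hT1 : ∀ c ∈ Φ, ∀ d ∈ (tu Φ).W, T1 c d = ∑ x, d1 (c x) * d x)
    (hT2 : ∀ c ∈ Φ, ∀ d ∈ (tu Φ).W, T2 c d = ∑ x, d2 (c x) * d x) (hR : Rich (tu Φ).r q) {a b : KU}
    (h : EqD (tu Φ).U (tu Φ).W q (a • T1 + b • T2) 0) : a = 0 ∧ b = 0 := by
  obtain ⟨hq, h5, hr, hU⟩ := uni_rich hR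
  obtain ⟨u, w, i1, i2, j1, j2, k, hu⟩ := rich_main hM hq h5 hr hU
  obtain ⟨e1, e2⟩ := hu _ _ (form_comb hT1 hT2 a b) h
  rw [Derivation.add_apply, Derivation.smul_apply, Derivation.smul_apply, smul_eq_mul, smul_eq_mul] at e1 e2
  have hD : d1 u * d2 w - d1 w * d2 u ≠ 0 := sub_ne_zero.2 (hind u w i1 i2 j1 j2 k)
  constructor
  · have h6 : a * (d1 u * d2 w - d1 w * d2 u) = 0 := by linear_combination d2 w * e1 - d2 u * e2
    exact (mul_eq_zero.1 h6).resolve_right hD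
  · have h6 : b * (d1 u * d2 w - d1 w * d2 u) = 0 := by linear_combination d1 u * e2 - d1 w * e1
    exact (mul_eq_zero.1 h6).resolve_right hD

end

section

variable {E : Type} [Fintype E] {Φ : Submodule KU (E → KU)} {q : Itv E} {T1 T2 : Fm KU E}

theorem ln_one (hM : U2M Φ) (hT1 : ∀ c ∈ Φ, ∀ d ∈ (tu Φ).W, T1 c d = ∑ x, dA (c x) * d x)
    (hT2 : ∀ c ∈ Φ, ∀ d ∈ (tu Φ).W, T2 c d = ∑ x, dB (c x) * d x) (hq : q.1 ⊆ q.2) (h4 : (gs q).card = 4)
    (hN : HasLn (tu Φ).r q) : ∃ a b : KU, (a ≠ 0 ∨ b ≠ 0) ∧ EqD (tu Φ).U (tu Φ).W q (a • T1 + b • T2) 0 :=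
  ln_one_gen (d1 := dA_isD.der) (d2 := dB_isD.der) hM hT1 hT2 hq h4 hN

theorem ln_two (hM : U2M Φ) (hT1 : ∀ c ∈ Φ, ∀ d ∈ (tu Φ).W, T1 c d = ∑ x, dA (c x) * d x)
    (hT2 : ∀ c ∈ Φ, ∀ d ∈ (tu Φ).W, T2 c d = ∑ x, dB (c x) * d x) (hN : HasLn (tu Φ).r q) {a b a' b' : KU}
    (h1 : EqD (tu Φ).U (tu Φ).W q (a • T1 + b • T2) 0) (h2 : EqD (tu Φ).U (tu Φ).W q (a' • T1 + b' • T2) 0) : a * b' = a' * b :=
  ln_two_gen (d1 := dA_isD.der) (d2 := dB_isD.der) hM (fun _ h h' => der_ne h h') hT1 hT2 hN h1 h2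

theorem rich_no (hM : U2M Φ) (hT1 : ∀ c ∈ Φ, ∀ d ∈ (tu Φ).W, T1 c d = ∑ x, dA (c x) * d x)
    (hT2 : ∀ c ∈ Φ, ∀ d ∈ (tu Φ).W, T2 c d = ∑ x, dB (c x) * d x) (hR : Rich (tu Φ).r q) {a b : KU}
    (h : EqD (tu Φ).U (tu Φ).W q (a • T1 + b • T2) 0) : a = 0 ∧ b = 0 :=
  rich_no_gen (d1 := dA_isD.der) (d2 := dB_isD.der) hM (fun _ _ h1 h2 h3 h4 h5 => der_ind h1 h2 h3 h4 h5) hT1 hT2 hR h

end

end Pool.Agent.QW
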