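import Pool.Agent.QUW.Nrx
import Pool.Agent.QUW.Ln
import Pool.Agent.QUY.Rkb

/-!
# QUW/Fin: a triangle element whose deletion has no rich minor, for a 2-uniform matroid

`gen_phi`: for the pair `tu Φ` the two derivation forms satisfy the hypotheses of `kp`.
`nrx`: `p` rich, `{x, a, b}` a triangle, `p \ x` connected, `Ok` and not rich: `V(p)` has a form which is not diagonal.
`nrx_x`: in this case no set `D` has `x` in its closure and `a` not in its closure.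
`kp_two`: two removals of a rich box which are connected, `Ok` and not rich: the common box is not connected or binary.
-/

set_option autoImplicit false

noncomputable section

open scoped Classical

namespace Pool.Agent.QW

open Pool.Agent.FRM Pool.Agent.QUS Pool.Agent.QUE Pool.Agent.QUY
open Pool.Agent.QU (Fm van spt dg EqOn EqD InV Itv Tri3 Vd HasLn HasRich Rich)
open QUB (gs Cn rm Ok)

variable {E : Type} [Fintype E]

/-- the two derivation forms -/
theorem gen_phi {Φ : Submodule KU (E → KU)} (hM : U2M Φ) :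
    ∃ T₁ T₂ : Fm KU E, (∀ (q : Itv E) (a b : KU), InV (tu Φ).U (tu Φ).W q (a • T₁ + b • T₂)) ∧ Kl (tu Φ) T₁ T₂ ∧
      (∀ q : Itv E, q.1 ⊆ q.2 → (gs q).card = 4 → HasLn (tu Φ).r q → Kd (tu Φ) T₁ T₂ q) ∧
      (∀ (q : Itv E) (a b : KU), Rich (tu Φ).r q → EqD (tu Φ).U (tu Φ).W q (a • T₁ + b • T₂) 0 → a = 0 ∧ b = 0) := by
  obtain ⟨T₁, hT1⟩ := form Φ dA_isD.der
  obtain ⟨T₂, hT2⟩ := form Φ dB_isD.der
  refine ⟨T₁, T₂, fun q a b => ?_, ?_, ?_, ?_⟩
  · exact ((form_inV hT1 q).smul a).add ((form_inV hT2 q).smul b)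
  · intro q hN a b a' b' h1 h2
    exact ln_two hM hT1 hT2 hN h1 h2
  · intro q hq h4 hN
    exact ln_one hM hT1 hT2 hq h4 hN
  · intro q a b hR h
    exact rich_no hM hT1 hT2 hR h

/-- **NRX**, the matroid part: no set `D` has `x` in its closure and `a` not in its closure -/
theorem nrx_x {L : Submodule F4 (E → F4)} {p : Itv E} (hL : Cls L) (hp : p.1 ⊆ p.2) (hR : HasRich (rk L) p)
    {x a b : E} (hx : x ∈ gs p) (ha : a ∈ gs p) (hb : b ∈ gs p) (hxa : x ≠ a) (hxb : x ≠ b) (hT : Tri3 (rk L) p x a b)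
    (hc : Cn (rk L) (rm true x p)) (ho : Ok (rk L) (rm true x p)) (hn : ¬ HasRich (rk L) (rm true x p)) (D : Finset E) :
    ¬ Vd (rk L) p x a D := by
  obtain ⟨Φ, h1, hM⟩ := hL
  rw [← rk_congr h1] at *
  obtain ⟨T₁, T₂, hV, hu, h4, h5⟩ := gen_phi hM
  exact nrx_mat (tu Φ) hV hu h4 h5 hp hR hx ha hb hxa hxb hT hc ho hn D

/-- **NRX**: `V(p)` has a form which is not diagonal -/
theorem nrx {L : Submodule F4 (E → F4)} {p : Itv E} (hL : Cls L) (hp : p.1 ⊆ p.2) (hR : HasRich (rk L) p)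
    {x a b : E} (hx : x ∈ gs p) (ha : a ∈ gs p) (hb : b ∈ gs p) (hxa : x ≠ a) (hxb : x ≠ b) (hT : Tri3 (rk L) p x a b)
    (hc : Cn (rk L) (rm true x p)) (ho : Ok (rk L) (rm true x p)) (hn : ¬ HasRich (rk L) (rm true x p)) :
    ∃ T : Fm F4 E, InV L (WW L) p T ∧ ¬ EqD L (WW L) p T 0 := by
  have hX := nrx_x hL hp hR hx ha hb hxa hxb hT hc ho hn
  have h0 : Pool.Agent.QU.HasLn (rk L) (rm true x p) ∧ rk L (insert a (insert x p.1)) = rk L (insert x p.1) + 1 := by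
    obtain ⟨Φ, h1, hM⟩ := hL
    rw [← rk_congr h1] at *
    obtain ⟨T₁, T₂, hV, hu, h4, h5⟩ := gen_phi hM
    exact ⟨nrx_ln (tu Φ) hV h5 hp hR hx ha hb hxa hxb hT, nrx_par (tu Φ) hV hu h4 h5 hp hR hx ha hb hxa hxb hT hc ho hn⟩
  exact cd_main (tp L) hp hx ha hb hxa hxb hT h0.2 hc h0.1 hX

/-- two removals which are connected, `Ok` and not rich and fit together -/
theorem nr_pair {L : Submodule F4 (E → F4)} {p : Itv E} (hL : Cls L) (hp : p.1 ⊆ p.2) {u v : E} {t s : Bool} (huv : u ≠ v)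
    (hu : u ∈ gs p) (hv : v ∈ gs p) (hnd : Pool.Agent.QU.ND (rk L) p u v t s)
    (hcu : Cn (rk L) (rm t u p)) (hou : Ok (rk L) (rm t u p)) (hru : ¬ HasRich (rk L) (rm t u p))
    (hcv : Cn (rk L) (rm s v p)) (hov : Ok (rk L) (rm s v p)) (hrv : ¬ HasRich (rk L) (rm s v p))
    (hc : Cn (rk L) (rm t u (rm s v p))) (hN : HasLn (rk L) (rm t u (rm s v p))) : ¬ HasRich (rk L) p := by
  obtain ⟨Φ, h1, hM⟩ := hL
  rw [← rk_congr h1] at *
  obtain ⟨T₁, T₂, hV, hl, h4, h5⟩ := gen_phi hM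
  rintro ⟨q, hq, hqR⟩
  obtain ⟨a, b, hab, hd⟩ := kp (tu Φ) hV hl h4 (rm t u p) (QUB.wf_rm hp hu) hcu hou hru
  have hd2 := kp (tu Φ) hV hl h4 (rm s v p) (QUB.wf_rm hp hv) hcv hov hrv
  have hsw : rm t u (rm s v p) = rm s v (rm t u p) := QUB.rm_comm t s p
  have h6 := k_move (tu Φ) hl (q := rm t u (rm s v p)) (u := rm t u p) (v := rm s v p) (by rw [hsw]; exact Pool.Agent.QU.rm_sub s v _)
    (Pool.Agent.QU.rm_sub t u _) hN hd hd2
  have h7 := g_pair (tu Φ) hp huv hu hv (hV p a b) hd h6 hc hnd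
  obtain ⟨h8, h9⟩ := h5 q a b hqR (h7.mono hq)
  rcases hab with h | h
  · exact h h8
  · exact h h9

/-- two removals of the same type of a 3-connected box which are connected, `Ok` and not rich -/
theorem nr_two {L : Submodule F4 (E → F4)} {p : Itv E} (hL : Cls L) (hp : p.1 ⊆ p.2) (h3 : Pool.Agent.QU.Th3 (rk L) p)
    (hn : 4 ≤ (gs p).card) {u v : E} {t : Bool} (huv : u ≠ v) (hu : u ∈ gs p) (hv : v ∈ gs p)
    (hcu : Cn (rk L) (rm t u p)) (hou : Ok (rk L) (rm t u p)) (hru : ¬ HasRich (rk L) (rm t u p))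
    (hcv : Cn (rk L) (rm t v p)) (hov : Ok (rk L) (rm t v p)) (hrv : ¬ HasRich (rk L) (rm t v p))
    (hc : Cn (rk L) (rm t u (rm t v p))) (hN : HasLn (rk L) (rm t u (rm t v p))) : ¬ HasRich (rk L) p :=
  nr_pair hL hp huv hu hv (Pool.Agent.QU.th3_nd_same (tp L).rk hp h3 hn hu hv huv t) hcu hou hru hcv hov hrv hc hN

end Pool.Agent.QW
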