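import Pool.Agent.QUW.Rank

set_option autoImplicit false

/-!
# Project QU, layer A, module LHom: diagonal forms that vanish

If a diagonal form vanishes on a box, then the set of the elements of the ground set with a
nonzero coefficient is a separator (`hom_sep`). With the twist property of a twisted pair this shows
that the coefficients vanish on a connected minor with a four point line minor (`hom_zero`).
-/

open Module (finrank)

namespace Pool.Agent.QW

open Pool.Agent.QU

variable {K E : Type} [Field K] [Fintype E] [DecidableEq E]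

private theorem LHom_dim {F : Type} [AddCommGroup F] [Module K F] [Module.Finite K F]
    (M N : Submodule K (E → K)) (A : (E → K) →ₗ[K] F) (h : ∀ m ∈ M, A m = 0 → m ∈ N) :
    finrank K M ≤ finrank K (M.map A) + finrank K N := by
  have h1 := LinearMap.finrank_range_add_finrank_ker (A.domRestrict M)
  have h2 : LinearMap.range (A.domRestrict M) = M.map A := LinearMap.range_domRestrict M A
  have h3 : finrank K (LinearMap.ker (A.domRestrict M)) ≤ finrank K N := by
    rw [← Submodule.finrank_map_subtype_eq M (LinearMap.ker (A.domRestrict M))]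
    refine Submodule.finrank_mono ?_
    intro m hm
    obtain ⟨y, hy, rfl⟩ := Submodule.mem_map.1 hm
    exact h _ y.2 (by simpa using hy)
  rw [h2] at h1
  omega

private theorem LHom_orth {ι : Type} [Fintype ι] (P Q : Submodule K (ι → K))
    (h : ∀ a ∈ P, ∀ b ∈ Q, ∑ x, a x * b x = 0) :
    finrank K P + finrank K Q ≤ Fintype.card ι := by
  classical
  let e := (Pi.basisFun K ι).toDualEquiv
  have h1 : P.map (e : (ι → K) →ₗ[K] Module.Dual K (ι → K)) ≤ Q.dualAnnihilator := by
    intro φ hφ
    obtain ⟨a, ha, rfl⟩ := Submodule.mem_map.1 hφ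
    rw [Submodule.mem_dualAnnihilator]
    intro b hb
    have h2 := h a ha b hb
    have h3 : (e a) b = ∑ x, a x * b x := by
      have hb' : b = ∑ x, b x • (Pi.basisFun K ι) x := by
        have := (Pi.basisFun K ι).sum_repr b
        simpa using this.symm
      conv_lhs => rw [hb']
      rw [map_sum]
      refine Finset.sum_congr rfl fun x _ => ?_
      rw [map_smul, smul_eq_mul, mul_comm]
      congr 1
      have := (Pi.basisFun K ι).toDual_apply_left a x
      simpa [e] using this
    change (e a) b = 0
    rw [h3, h2]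
  have h4 := Submodule.finrank_mono h1
  have h5 : finrank K (P.map (e : (ι → K) →ₗ[K] Module.Dual K (ι → K))) = finrank K P :=
    LinearEquiv.finrank_map_eq e P
  have h6 := Subspace.finrank_add_finrank_dualAnnihilator_eq Q
  have h7 : finrank K (ι → K) = Fintype.card ι := Module.finrank_fintype_fun_eq_card K
  omega

open Classical in
theorem hom_sep (S : TU K E) {p : Itv E} (hp : p.1 ⊆ p.2) {l : E → K}
    (hl : EqOn S.U S.W p (dg l) 0) :
    lam S.r p ((gs p).filter fun x => l x ≠ 0) ≤ 0 := by
  set Z := (gs p).filter fun x => l x ≠ 0 with hZ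
  have hZp : Z ⊆ gs p := Finset.filter_subset _ _
  let A : (E → K) →ₗ[K] (Z → K) := LinearMap.pi fun x => l x.1 • LinearMap.proj x.1
  let B : (E → K) →ₗ[K] (Z → K) := LinearMap.pi fun x => LinearMap.proj x.1
  have hA : ∀ c x, A c x = l x.1 * c x.1 := fun c x => by simp [A]
  have hB : ∀ c x, B c x = c x.1 := fun c x => by simp [B]
  have dA := LHom_dim (van S.U p.1) (van S.U (p.1 ∪ Z)) A (by
    intro m hm h0
    refine ⟨hm.1, fun x hx => ?_⟩
    rcases Finset.mem_union.1 hx with hx | hx
    · exact hm.2 x hx
    · have h1 := congrFun h0 ⟨x, hx⟩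
      rw [hA] at h1
      exact (mul_eq_zero.1 h1).resolve_left (Finset.mem_filter.1 hx).2)
  have dB := LHom_dim (spt S.W p.2) (spt S.W (p.2 \ Z)) B (by
    intro m hm h0
    refine ⟨hm.1, fun x hx => ?_⟩
    by_cases hx2 : x ∈ p.2
    · have hxZ : x ∈ Z := by
        by_contra hc
        exact hx (Finset.mem_sdiff.2 ⟨hx2, hc⟩)
      have h1 := congrFun h0 ⟨x, hxZ⟩
      rw [hB] at h1
      exact h1
    · exact hm.2 x hx2)
  have dO := LHom_orth ((van S.U p.1).map A) ((spt S.W p.2).map B) (by
    rintro a ha b hb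
    obtain ⟨c, hc, rfl⟩ := Submodule.mem_map.1 ha
    obtain ⟨d, hd, rfl⟩ := Submodule.mem_map.1 hb
    have h0 : dg l c d = 0 := hl c hc d hd
    rw [dg_apply] at h0
    rw [← h0]
    have h1 : ∑ x, l x * (c x * d x) = ∑ x ∈ Z, l x * (c x * d x) := by
      symm
      refine Finset.sum_subset (Finset.subset_univ Z) fun x _ hx => ?_
      by_cases h1 : x ∈ p.1
      · rw [hc.2 x h1, zero_mul, mul_zero]
      · by_cases h2 : x ∈ p.2
        · have h3 : l x = 0 := by
            by_contra hne
            exact hx (Finset.mem_filter.2 ⟨Finset.mem_sdiff.2 ⟨h2, h1⟩, hne⟩)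
          rw [h3, zero_mul]
        · rw [hd.2 x h2, mul_zero, mul_zero]
    rw [h1, ← Finset.sum_coe_sort Z fun x => l x * (c x * d x)]
    refine Finset.sum_congr rfl fun x _ => ?_
    rw [hA, hB, mul_assoc])
  have hcard : Fintype.card Z = Z.card := Fintype.card_coe Z
  have e1 := S.hU p.1
  have e2 := S.hU (p.1 ∪ Z)
  have e3 := S.hW p.2
  have e4 := S.hW (p.2 \ Z)
  have hZ2 : Z ⊆ p.2 := hZp.trans Finset.sdiff_subset
  have e5 : (p.2 \ Z).card + Z.card = p.2.card := Finset.card_sdiff_add_card_eq_card hZ2
  have e6 : ((p.2 \ Z).card : ℤ) + Z.card = p.2.card := by exact_mod_cast e5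
  have f1 : (finrank K (van S.U p.1) : ℤ) ≤
      finrank K ((van S.U p.1).map A) + finrank K (van S.U (p.1 ∪ Z)) := by exact_mod_cast dA
  have f2 : (finrank K (spt S.W p.2) : ℤ) ≤
      finrank K ((spt S.W p.2).map B) + finrank K (spt S.W (p.2 \ Z)) := by exact_mod_cast dB
  have f3 : (finrank K ((van S.U p.1).map A) : ℤ) + finrank K ((spt S.W p.2).map B) ≤ Z.card := by
    rw [hcard] at dO
    exact_mod_cast dO
  unfold lam
  linarith

end Pool.Agent.QW
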