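import Pool.Agent.QUL.LGlue
import Pool.Agent.QUW.Two

set_option autoImplicit false

/-!
# Project QU, layer A, module LUniq: uniqueness steps and gluing along two removals

`R = rm t u (rm s v p)`.
PLAN. `uniq_step`: `T = k • Ts + dg a` on `rm t u p`, `T = k' • Ts + dg b` on `rm s v p`. On `R`:
`(k - k') • Ts + dg (a - b) = 0`; if `k ≠ k'` then `EqD .. Ts 0` on `R` (divide), so `hk` gives `k = k'`.
So `dg (a - b) = 0` on `R`, `a = b` on `gs R` by `hom`. Let `m x = a x` for `x ≠ u`, `m u = b u`: `dg m`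
agrees with `dg a` on `rm t u p` and with `dg b` on `rm s v p` (`dg_congr`, `gs_rm`), so
`T - k • Ts - dg m` vanishes on both boxes; it is in `InV`, so it vanishes on `p` by `nd_zero`.
`uniq_bin`: in the same way, with `a` replaced by `a - k • w` (`a - b = k • w` on `gs R`).
`hom_glue`: let `m x = a x` for `x ≠ u`, `m u = b u`; `dg m` vanishes on `rm t u p` and on `rm s v p` and is
in `InV`: `nd_zero`.
`glue_two`: `EqD .. Tu Tv` on `R`: `Tu = Tv + dg c` on `R`, `glue_rm` for `Tu` and `Tv + dg c`.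
-/

namespace Pool.Agent.QW

open Pool.Agent.QU

variable {K E : Type} [Field K] [Fintype E] [DecidableEq E]

omit [Fintype E] in
private theorem luniq_sub_u {p : Itv E} {u v : E} {t s : Bool} :
    Sub (rm t u (rm s v p)) (rm t u p) := by
  rw [rm_comm]
  exact rm_sub s v (rm t u p)

omit [Fintype E] in
private theorem luniq_sub_v {p : Itv E} {u v : E} {t s : Bool} :
    Sub (rm t u (rm s v p)) (rm s v p) := rm_sub t u (rm s v p)

private theorem luniq_m {U W : Submodule K (E → K)} {p : Itv E} {u v : E} {t s : Bool}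
    {a b : E → K} (hab : ∀ x ∈ gs (rm t u (rm s v p)), a x = b x) :
    ∃ m : E → K, (∀ x, x ≠ u → m x = a x) ∧ m u = b u ∧
      EqOn U W (rm t u p) (dg m) (dg a) ∧ EqOn U W (rm s v p) (dg m) (dg b) := by
  refine ⟨fun x => if x = u then b u else a x, fun x hx => if_neg hx, if_pos rfl, ?_, ?_⟩
  · refine dg_congr fun x hx => ?_
    rw [gs_rm] at hx
    exact if_neg (Finset.mem_erase.1 hx).1
  · refine dg_congr fun x hx => ?_
    by_cases hxu : x = u
    · rw [if_pos hxu, hxu]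
    · rw [if_neg hxu]
      refine hab x ?_
      rw [gs_rm]
      exact Finset.mem_erase.2 ⟨hxu, hx⟩

private theorem luniq_core (S : TU K E) {p : Itv E} {u v : E} {t s : Bool} (huv : u ≠ v)
    (hu : u ∈ gs p) (hv : v ∈ gs p) {T : Fm K E} (hT : InV S.U S.W p T) {a b : E → K}
    (h1 : EqOn S.U S.W (rm t u p) T (dg a)) (h2 : EqOn S.U S.W (rm s v p) T (dg b))
    (hab : ∀ x ∈ gs (rm t u (rm s v p)), a x = b x) (hnd : ND S.r p u v t s) :
    ∃ m : E → K, EqOn S.U S.W p T (dg m) := by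
  obtain ⟨m, _, _, hm1, hm2⟩ := luniq_m (U := S.U) (W := S.W) hab
  refine ⟨m, EqOn.of_sub (nd_zero S huv hu hv hnd (fun _ => hT.sub (dg_inV p m)) ?_ ?_)⟩
  · intro c hc d hd
    rw [LinearMap.sub_apply, LinearMap.sub_apply, h1 c hc d hd, hm1 c hc d hd, sub_self]
    rfl
  · intro c hc d hd
    rw [LinearMap.sub_apply, LinearMap.sub_apply, h2 c hc d hd, hm2 c hc d hd, sub_self]
    rfl

omit [DecidableEq E] in
private theorem luniq_diff {U W : Submodule K (E → K)} {q : Itv E} {T : Fm K E} {a b : E → K}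
    (h1 : EqOn U W q T (dg a)) (h2 : EqOn U W q T (dg b)) : EqOn U W q (dg (a - b)) 0 := by
  intro c hc d hd
  rw [dg_sub, LinearMap.sub_apply, LinearMap.sub_apply, ← h1 c hc d hd, h2 c hc d hd, sub_self]
  rfl

theorem uniq_step (S : TU K E) {p : Itv E} {u v : E} {t s : Bool} (huv : u ≠ v) (hu : u ∈ gs p)
    (hv : v ∈ gs p) {T Ts : Fm K E} (hT : InV S.U S.W p T) (hTs : InV S.U S.W p Ts) {k k' : K}
    (h1 : EqD S.U S.W (rm t u p) T (k • Ts)) (h2 : EqD S.U S.W (rm s v p) T (k' • Ts))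
    (hk : k = k' ∨ ¬ EqD S.U S.W (rm t u (rm s v p)) Ts 0)
    (hom : ∀ l : E → K, EqOn S.U S.W (rm t u (rm s v p)) (dg l) 0 →
      ∀ x ∈ gs (rm t u (rm s v p)), l x = 0)
    (hnd : ND S.r p u v t s) : EqD S.U S.W p T (k • Ts) := by
  obtain ⟨a, ha⟩ := h1
  obtain ⟨b, hb⟩ := h2
  have haR := ha.mono (luniq_sub_u (p := p) (u := u) (v := v) (t := t) (s := s))
  have hbR := hb.mono (luniq_sub_v (p := p) (u := u) (v := v) (t := t) (s := s))
  have hkk : k = k' := by
    rcases hk with hk | hk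
    · exact hk
    · by_contra hne
      refine hk ⟨(k - k')⁻¹ • (b - a), fun c hc d hd => ?_⟩
      have e1 := haR c hc d hd
      have e2 := hbR c hc d hd
      rw [LinearMap.add_apply, LinearMap.add_apply, LinearMap.smul_apply, LinearMap.smul_apply,
        smul_eq_mul] at e1 e2
      have hne' : k - k' ≠ 0 := sub_ne_zero.2 hne
      rw [zero_add, dg_smul, dg_sub, LinearMap.smul_apply, LinearMap.smul_apply, smul_eq_mul,
        LinearMap.sub_apply, LinearMap.sub_apply]
      have e3 : (k - k') * Ts c d = dg b c d - dg a c d := by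
        linear_combination e2 - e1
      rw [← e3, ← mul_assoc, inv_mul_cancel₀ hne', one_mul]
  subst hkk
  have hTk : InV S.U S.W p (T - k • Ts) := hT.sub (hTs.smul k)
  have ha' : EqOn S.U S.W (rm t u p) (T - k • Ts) (dg a) := by
    intro c hc d hd
    rw [LinearMap.sub_apply, LinearMap.sub_apply, ha c hc d hd, LinearMap.add_apply,
      LinearMap.add_apply, add_sub_cancel_left]
  have hb' : EqOn S.U S.W (rm s v p) (T - k • Ts) (dg b) := by
    intro c hc d hd
    rw [LinearMap.sub_apply, LinearMap.sub_apply, hb c hc d hd, LinearMap.add_apply,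
      LinearMap.add_apply, add_sub_cancel_left]
  have hab : ∀ x ∈ gs (rm t u (rm s v p)), a x = b x := fun x hx =>
    sub_eq_zero.1 (hom (a - b) (luniq_diff (ha'.mono luniq_sub_u) (hb'.mono luniq_sub_v)) x hx)
  obtain ⟨m, hm⟩ := luniq_core S huv hu hv hTk ha' hb' hab hnd
  refine ⟨m, fun c hc d hd => ?_⟩
  have h3 := hm c hc d hd
  rw [LinearMap.sub_apply, LinearMap.sub_apply] at h3
  rw [LinearMap.add_apply, LinearMap.add_apply]
  linear_combination h3

theorem uniq_bin (S : TU K E) {p : Itv E} {u v : E} {t s : Bool} (huv : u ≠ v) (hu : u ∈ gs p)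
    (hv : v ∈ gs p) {T : Fm K E} (hT : InV S.U S.W p T)
    (h1 : EqD S.U S.W (rm t u p) T 0) (h2 : EqD S.U S.W (rm s v p) T 0) {w : E → K}
    (hw : EqOn S.U S.W (rm t u p) (dg w) 0)
    (hom : ∀ l : E → K, EqOn S.U S.W (rm t u (rm s v p)) (dg l) 0 →
      ∃ k : K, ∀ x ∈ gs (rm t u (rm s v p)), l x = k * w x)
    (hnd : ND S.r p u v t s) : EqD S.U S.W p T 0 := by
  obtain ⟨a, ha⟩ := h1
  obtain ⟨b, hb⟩ := h2
  rw [zero_add] at ha hb
  obtain ⟨k, hk⟩ := hom (a - b) (luniq_diff (ha.mono luniq_sub_u) (hb.mono luniq_sub_v))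
  have ha' : EqOn S.U S.W (rm t u p) T (dg (a - k • w)) := by
    intro c hc d hd
    have h5 := hw c hc d hd
    rw [dg_sub, dg_smul, LinearMap.sub_apply, LinearMap.sub_apply, LinearMap.smul_apply,
      LinearMap.smul_apply, h5, LinearMap.zero_apply, LinearMap.zero_apply, smul_zero, sub_zero]
    exact ha c hc d hd
  have hab : ∀ x ∈ gs (rm t u (rm s v p)), (a - k • w) x = b x := by
    intro x hx
    have h3 := hk x hx
    rw [Pi.sub_apply] at h3
    rw [Pi.sub_apply, Pi.smul_apply, smul_eq_mul]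
    linear_combination h3
  obtain ⟨m, hm⟩ := luniq_core S huv hu hv hT ha' hb hab hnd
  exact ⟨m, by rw [zero_add]; exact hm⟩

theorem hom_glue (S : TU K E) {p : Itv E} {u v : E} {t s : Bool} (huv : u ≠ v) (hu : u ∈ gs p)
    (hv : v ∈ gs p) {a b : E → K} (ha : EqOn S.U S.W (rm t u p) (dg a) 0)
    (hb : EqOn S.U S.W (rm s v p) (dg b) 0)
    (hab : ∀ x ∈ gs (rm t u (rm s v p)), a x = b x)
    (hnd : ND S.r p u v t s) :
    ∃ m : E → K, (∀ x, x ≠ u → m x = a x) ∧ m u = b u ∧ EqOn S.U S.W p (dg m) 0 := by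
  obtain ⟨m, hm1, hm2, hm3, hm4⟩ := luniq_m (U := S.U) (W := S.W) hab
  exact ⟨m, hm1, hm2, nd_zero S huv hu hv hnd (fun _ => dg_inV p m) (hm3.trans ha) (hm4.trans hb)⟩

theorem glue_two (S : TU K E) {p : Itv E} {u v : E} {t s : Bool} {Tu Tv : Fm K E}
    (h : EqD S.U S.W (rm t u (rm s v p)) Tu Tv) :
    ∃ T : Fm K E, EqD S.U S.W (rm t u p) T Tu ∧ EqD S.U S.W (rm s v p) T Tv := by
  obtain ⟨c, hc⟩ := h
  obtain ⟨T, hT1, hT2⟩ := glue_rm t s u v p Tu (Tv + dg c) hc
  exact ⟨T, hT1.eqD, c, hT2⟩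

end Pool.Agent.QW
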