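import Pool.Agent.QUL.LBase

set_option autoImplicit false

/-!
# QUW: untwisted pairs

`TU`: a space `U` and its orthogonal space `W` (or a subspace of the orthogonal space of the right dimensions) with a common rank function.
The files of QUW repeat layer A for these pairs; the form of a derivation is a form in `V` of such a pair.
-/

open Module (finrank)

namespace Pool.Agent.QW

open Pool.Agent.QU

variable {K E : Type} [Field K] [Fintype E] [DecidableEq E]

/-- An untwisted pair: a space `U` and its orthogonal space `W` -/
structure TU (K E : Type) [Field K] [Fintype E] [DecidableEq E] where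
  /-- the row space -/
  U : Submodule K (E → K)
  /-- the relations -/
  W : Submodule K (E → K)
  /-- the rank function -/
  r : Finset E → ℤ
  hU : ∀ C : Finset E, (finrank K (van U C) : ℤ) = r Finset.univ - r C
  hW : ∀ G : Finset E, (finrank K (spt W G) : ℤ) = G.card - r G
  ort : ∀ c ∈ U, ∀ d ∈ W, ∑ x, c x * d x = 0

end Pool.Agent.QW
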