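import Pool.Agent.QUW.Rank
import Pool.Agent.QUB.Dual

set_option autoImplicit false

/-!
# Project QU, layer A, module LDual: duality

`QUB.rd r` is the rank function of the dual matroid, `QUB.dp p = (p.2ᶜ, p.1ᶜ)` the dual box.
PLAN. `van_compl`: `d ∈ van W Gᶜ ↔ d ∈ spt W G`. `TU.dual`: `hU C`: `van W C = spt W Cᶜ`
(`van_compl` for `Cᶜ`, `compl_compl`), so the dimension is `Cᶜ.card - r Cᶜ = rd r univ - rd r C`
(`rd r univ = card E + r ∅ - r univ`, `r_empty`, `Finset.card_compl`). `hW G`: `spt U G = van U Gᶜ`.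
`tw Y N`: with `Y' = (Y ∪ N)ᶜ` we have `Y' ∪ N = Yᶜ`, the hypotheses on `rd r` give those on `r` for
`Y'`, `N` (`rd r (Y ∪ {i, j}) = (Y ∪ {i, j}).card + r ((Y ∪ {i, j})ᶜ) - r univ` and
`(Y ∪ {i, j})ᶜ = Y' ∪ (N \ {i, j})`; every pair of elements of `N` is `N \ {i, j}`), and `EqOn` for the
flipped forms (`(dg l).flip = dg l`, `eqOn_dual`; the box `(Y, Y ∪ N)` is the dual of `(Y', Y' ∪ N)`).
`nd_dual` for `t ≠ s`: if `X` is the set for `p` then `X' = (p.1 ∪ X)ᶜ` is the set for `dp p`
(use submodularity `r_submod` to pass from `r (X.erase u) = r X` to larger sets).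
-/

open Module (finrank)

namespace Pool.Agent.QW

open Pool.Agent.QU

section

variable {K E : Type} [Field K] [Fintype E] [DecidableEq E]

theorem van_compl (W : Submodule K (E → K)) (G : Finset E) : van W Gᶜ = spt W G := by
  ext d
  simp only [mem_van, mem_spt, Finset.mem_compl]

theorem spt_compl (U : Submodule K (E → K)) (C : Finset E) : spt U Cᶜ = van U C := by
  ext d
  simp only [mem_van, mem_spt, Finset.mem_compl, not_not]

theorem dg_flip (l : E → K) : LinearMap.flip (dg l : Fm K E) = dg l := by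
  refine LinearMap.ext fun c => LinearMap.ext fun d => ?_
  rw [LinearMap.flip_apply, dg_apply, dg_apply]
  exact Finset.sum_congr rfl fun x _ => by rw [mul_comm (d x)]

theorem eqOn_dual {U W : Submodule K (E → K)} {p : Itv E} {T T' : Fm K E} :
    EqOn W U (QUB.dp p) (LinearMap.flip T) (LinearMap.flip T') ↔ EqOn U W p T T' := by
  unfold EqOn
  have h1 : van W (QUB.dp p).1 = spt W p.2 := van_compl W p.2
  have h2 : spt U (QUB.dp p).2 = van U p.1 := spt_compl U p.1
  rw [h1, h2]
  constructor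
  · intro h c hc d hd
    exact h d hd c hc
  · intro h c hc d hd
    exact h d hd c hc

theorem eqD_dual {U W : Submodule K (E → K)} {p : Itv E} {T T' : Fm K E} :
    EqD W U (QUB.dp p) (LinearMap.flip T) (LinearMap.flip T') ↔ EqD U W p T T' := by
  unfold EqD
  refine exists_congr fun l => ?_
  rw [← eqOn_dual (T' := T' + dg l)]
  have h : LinearMap.flip (T' + dg l) = LinearMap.flip T' + dg l := by
    conv_rhs => rw [← dg_flip l]
    rfl
  rw [h]

theorem inV_dual {U W : Submodule K (E → K)} {p : Itv E} {T : Fm K E} :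
    InV W U (QUB.dp p) (LinearMap.flip T) ↔ InV U W p T := by
  unfold InV
  have h1 : van W (QUB.dp p).1 = spt W p.2 := van_compl W p.2
  have h2 : spt U (QUB.dp p).2 = van U p.1 := spt_compl U p.1
  rw [h1, h2]
  constructor
  · intro h c hc d hd hcd
    exact h d hd c hc fun x => by rw [mul_comm]; exact hcd x
  · intro h c hc d hd hcd
    exact h d hd c hc fun x => by rw [mul_comm]; exact hcd x

private theorem ldual_rk (S : TU K E) : QUB.Rk S.r :=
  ⟨S.r_empty, fun _ _ h => S.r_mono h, fun A x => S.r_insert_le x A, fun A B => S.r_submod A B⟩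

private theorem ldual_card (A : Finset E) : (A.card : ℤ) + Aᶜ.card = (Finset.univ : Finset E).card := by
  rw [Finset.card_univ]
  exact_mod_cast Finset.card_add_card_compl A

/-- the dual twisted pair -/
def TU.dual (S : TU K E) : TU K E where
  U := S.W
  W := S.U
  r := QUB.rd S.r
  hU := by
    intro C
    have h1 : van S.W C = spt S.W Cᶜ := by rw [← van_compl, compl_compl]
    rw [h1, S.hW]
    unfold QUB.rd
    rw [Finset.compl_univ, S.r_empty]
    have := ldual_card C
    linarith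
  hW := by
    intro G
    have h1 : spt S.U G = van S.U Gᶜ := by rw [← spt_compl, compl_compl]
    rw [h1, S.hU]
    unfold QUB.rd
    ring
  ort := fun c hc d hd => by
    rw [← S.ort d hd c hc]
    exact Finset.sum_congr rfl fun x _ => mul_comm _ _

private theorem ldual_erase_eq (S : TU K E) {X B : Finset E} {u : E} (hX : X ⊆ B) (hu : u ∈ X)
    (h : S.r (X.erase u) = S.r X) : S.r (B.erase u) = S.r B := by
  refine le_antisymm (S.r_mono (Finset.erase_subset u B)) ?_
  have h1 := S.r_submod X (B.erase u)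
  have h2 : X ∪ B.erase u = B := by
    ext y
    have h3 := @hX y
    have h4 : y = u → y ∈ X := fun h => h ▸ hu
    simp only [Finset.mem_union, Finset.mem_erase]
    tauto
  have h3 : X ∩ B.erase u = X.erase u := by
    ext y
    have h3 := @hX y
    simp only [Finset.mem_inter, Finset.mem_erase]
    tauto
  rw [h2, h3] at h1
  linarith

private theorem ldual_rd_insert {r : Finset E → ℤ} {A : Finset E} {u : E} (h : u ∈ A) :
    QUB.rd r (insert u Aᶜ) = Aᶜ.card + 1 + r (A.erase u) - r Finset.univ := by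
  have h1 : (insert u Aᶜ)ᶜ = A.erase u := by
    ext y
    simp only [Finset.mem_compl, Finset.mem_insert, Finset.mem_erase]
    tauto
  have h2 : (insert u Aᶜ).card = Aᶜ.card + 1 :=
    Finset.card_insert_of_notMem fun h3 => (Finset.mem_compl.1 h3) h
  unfold QUB.rd
  rw [h1, h2]
  push_cast
  ring

private theorem ldual_rd_erase {r : Finset E → ℤ} {A : Finset E} {u : E} (h : u ∉ A) :
    QUB.rd r (Aᶜ.erase u) = Aᶜ.card - 1 + r (insert u A) - r Finset.univ := by
  have h1 : (Aᶜ.erase u)ᶜ = insert u A := by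
    ext y
    simp only [Finset.mem_compl, Finset.mem_insert, Finset.mem_erase]
    tauto
  have h2 : (Aᶜ.erase u).card + 1 = Aᶜ.card :=
    Finset.card_erase_add_one (Finset.mem_compl.2 h)
  have h3 : ((Aᶜ.erase u).card : ℤ) + 1 = Aᶜ.card := by exact_mod_cast h2
  unfold QUB.rd
  rw [h1]
  linarith

private theorem ldual_nd_mix (S : TU K E) {p : Itv E} {u v : E}
    (h : ∃ X ⊆ p.2, u ∈ X ∧ S.r (X.erase u) = S.r X ∧
      S.r (insert v (p.1 ∪ X)) = S.r (p.1 ∪ X) + 1) :
    ∃ X ⊆ (QUB.dp p).2, v ∈ X ∧ QUB.rd S.r (X.erase v) = QUB.rd S.r X ∧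
      QUB.rd S.r (insert u ((QUB.dp p).1 ∪ X)) = QUB.rd S.r ((QUB.dp p).1 ∪ X) + 1 := by
  obtain ⟨X, hX, hu, h1, h2⟩ := h
  have hv : v ∉ p.1 ∪ X := by
    intro h3
    rw [Finset.insert_eq_of_mem h3] at h2
    linarith
  refine ⟨(p.1 ∪ X)ᶜ, ?_, Finset.mem_compl.2 hv, ?_, ?_⟩
  · exact Finset.compl_subset_compl.2 Finset.subset_union_left
  · rw [ldual_rd_erase hv, h2]
    unfold QUB.rd
    rw [compl_compl]
    ring
  · have e1 : (QUB.dp p).1 ∪ (p.1 ∪ X)ᶜ = (p.2 ∩ (p.1 ∪ X))ᶜ := by
      change p.2ᶜ ∪ (p.1 ∪ X)ᶜ = _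
      ext y
      simp only [Finset.mem_union, Finset.mem_compl, Finset.mem_inter]
      tauto
    have hXB : X ⊆ p.2 ∩ (p.1 ∪ X) := fun y hy =>
      Finset.mem_inter.2 ⟨hX hy, Finset.mem_union.2 (Or.inr hy)⟩
    rw [e1, ldual_rd_insert (hXB hu), ldual_erase_eq S hXB hu h1]
    unfold QUB.rd
    rw [compl_compl]
    ring

theorem nd_dual (S : TU K E) {p : Itv E} {u v : E} {t s : Bool} (hu : u ∈ gs p) (hv : v ∈ gs p)
    (huv : u ≠ v) (h : ND S.r p u v t s) : ND S.dual.r (QUB.dp p) u v (!t) (!s) := by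
  have hu' := Finset.mem_sdiff.1 hu
  have hv' := Finset.mem_sdiff.1 hv
  cases t <;> cases s
  · -- contraction, contraction
    change S.r (insert u p.1) + S.r (insert v p.1) = S.r p.1 + S.r (insert u (insert v p.1)) at h
    change QUB.rd S.r (p.1ᶜ.erase u) + QUB.rd S.r (p.1ᶜ.erase v) =
      QUB.rd S.r p.1ᶜ + QUB.rd S.r ((p.1ᶜ.erase u).erase v)
    have e1 : p.1ᶜ.erase u = (insert u p.1)ᶜ := by
      ext y
      simp only [Finset.mem_compl, Finset.mem_insert, Finset.mem_erase]
      tauto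
    have hv2 : v ∉ insert u p.1 := by
      rw [Finset.mem_insert, not_or]
      exact ⟨fun h => huv h.symm, hv'.2⟩
    have h3 : QUB.rd S.r ((p.1ᶜ.erase u).erase v) =
        (insert u p.1)ᶜ.card - 1 + S.r (insert v (insert u p.1)) - S.r Finset.univ := by
      rw [e1, ldual_rd_erase hv2]
    have h4 : (p.1ᶜ.erase u).card + 1 = p.1ᶜ.card :=
      Finset.card_erase_add_one (Finset.mem_compl.2 hu'.2)
    have h5 : (((insert u p.1)ᶜ).card : ℤ) + 1 = p.1ᶜ.card := by
      rw [← e1]
      exact_mod_cast h4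
    rw [h3, ldual_rd_erase hu'.2, ldual_rd_erase hv'.2, Finset.insert_comm v u]
    unfold QUB.rd
    rw [compl_compl]
    linarith
  · -- contraction, deletion
    change ∃ X ⊆ p.2, v ∈ X ∧ S.r (X.erase v) = S.r X ∧
      S.r (insert u (p.1 ∪ X)) = S.r (p.1 ∪ X) + 1 at h
    exact ldual_nd_mix S h
  · change ∃ X ⊆ p.2, u ∈ X ∧ S.r (X.erase u) = S.r X ∧
      S.r (insert v (p.1 ∪ X)) = S.r (p.1 ∪ X) + 1 at h
    exact ldual_nd_mix S h
  · change S.r (p.2.erase u) + S.r (p.2.erase v) = S.r p.2 + S.r ((p.2.erase u).erase v) at h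
    change QUB.rd S.r (insert u p.2ᶜ) + QUB.rd S.r (insert v p.2ᶜ) =
      QUB.rd S.r p.2ᶜ + QUB.rd S.r (insert u (insert v p.2ᶜ))
    have e1 : insert v p.2ᶜ = (p.2.erase v)ᶜ := by
      ext y
      simp only [Finset.mem_compl, Finset.mem_insert, Finset.mem_erase]
      tauto
    have hu2 : u ∈ p.2.erase v := Finset.mem_erase.2 ⟨huv, hu'.1⟩
    have h3 : QUB.rd S.r (insert u (insert v p.2ᶜ)) =
        (p.2.erase v)ᶜ.card + 1 + S.r ((p.2.erase v).erase u) - S.r Finset.univ := by
      rw [e1, ldual_rd_insert hu2]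
    have h4 : (insert v p.2ᶜ).card = p.2ᶜ.card + 1 :=
      Finset.card_insert_of_notMem fun h5 => (Finset.mem_compl.1 h5) hv'.1
    have h5 : (((p.2.erase v)ᶜ).card : ℤ) = p.2ᶜ.card + 1 := by
      rw [← e1]
      exact_mod_cast h4
    rw [h3, ldual_rd_insert hu'.1, ldual_rd_insert hv'.1, Finset.erase_right_comm (a := v)]
    unfold QUB.rd
    rw [compl_compl]
    linarith

end

end Pool.Agent.QW
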