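import Pool.Agent.QUW.Def

set_option autoImplicit false

/-!
# Project QU, layer A, module LRank: the rank function of a twisted pair

PLAN. Everything follows from `S.hU`, `S.hW` and `van_anti`, `van_union`, `spt_mono`, `spt_inter`.
`r_empty`: `hW ∅`, `spt W ∅ = ⊥`. `r_mono`: `Submodule.finrank_mono` for `van`.
`r_insert_le`: `van U (insert x A)` is the kernel of the functional `c ↦ c x` on `van U A`, so its
dimension drops by at most one. `r_submod`: `van U (A ∪ B) = van U A ⊓ van U B`,
`van U A ⊔ van U B ≤ van U (A ∩ B)`, `Submodule.finrank_sup_add_finrank_inf_eq`.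
`van_eq_zero`: `van U (insert x C) ≤ van U C` have the same dimension, so they are equal.
`van_one`: otherwise all `c ∈ van U C` have `c x = 0` (scale), so the two spaces are equal.
`spt_eq_zero`, `spt_one`: in the same way with `hW` (`(G.erase x).card = G.card - 1`).
-/

open Module (finrank)

namespace Pool.Agent.QW

open Pool.Agent.QU

namespace TU

variable {K E : Type} [Field K] [Fintype E] [DecidableEq E] (S : TU K E)

omit [Fintype E] [DecidableEq E] in
private theorem lrank_pos_smul {c : E → K} {x : E} (h : c x ≠ 0) :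
    ((c x)⁻¹ • c) x = 1 := by
  rw [Pi.smul_apply, smul_eq_mul, inv_mul_cancel₀ h]

theorem r_empty : S.r ∅ = 0 := by
  have h := S.hW ∅
  have h1 : spt S.W ∅ = ⊥ := by
    rw [eq_bot_iff]
    intro d hd
    rw [Submodule.mem_bot]
    funext x
    exact hd.2 x (Finset.notMem_empty x)
  rw [h1, finrank_bot, Finset.card_empty] at h
  simp only [Nat.cast_zero] at h
  linarith

theorem r_mono {A B : Finset E} (h : A ⊆ B) : S.r A ≤ S.r B := by
  have h1 := Submodule.finrank_mono (van_anti (U := S.U) h)
  have h2 := S.hU A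
  have h3 := S.hU B
  have h4 : (finrank K (van S.U B) : ℤ) ≤ finrank K (van S.U A) := by exact_mod_cast h1
  linarith

omit [Fintype E] in
private theorem lrank_le_insert {U : Submodule K (E → K)} {x : E} {A : Finset E}
    (h : ∀ c ∈ van U A, c x = 0) : van U A ≤ van U (insert x A) := by
  intro c hc
  refine ⟨hc.1, fun y hy => ?_⟩
  rcases Finset.mem_insert.1 hy with rfl | hy
  · exact h c hc
  · exact hc.2 y hy

theorem r_insert_le (x : E) (A : Finset E) : S.r (insert x A) ≤ S.r A + 1 := by
  have h2 := S.hU A
  have h3 := S.hU (insert x A)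
  have key : finrank K (van S.U A) ≤ finrank K (van S.U (insert x A)) + 1 := by
    by_cases h : ∀ c ∈ van S.U A, c x = 0
    · exact (Submodule.finrank_mono (lrank_le_insert h)).trans (Nat.le_succ _)
    · push Not at h
      obtain ⟨c0, hc0, hx⟩ := h
      have h4 : van S.U A ≤ van S.U (insert x A) ⊔ Submodule.span K {c0} := by
        intro c hc
        rw [Submodule.mem_sup]
        refine ⟨c - (c x * (c0 x)⁻¹) • c0, ?_, (c x * (c0 x)⁻¹) • c0,
          Submodule.smul_mem _ _ (Submodule.mem_span_singleton_self c0), by abel⟩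
        have h5 : c - (c x * (c0 x)⁻¹) • c0 ∈ van S.U A :=
          (van S.U A).sub_mem hc ((van S.U A).smul_mem _ hc0)
        refine ⟨h5.1, fun y hy => ?_⟩
        rcases Finset.mem_insert.1 hy with rfl | hy
        · rw [Pi.sub_apply, Pi.smul_apply, smul_eq_mul, mul_assoc, inv_mul_cancel₀ hx, mul_one,
            sub_self]
        · exact h5.2 y hy
      refine (Submodule.finrank_mono h4).trans ?_
      refine (Submodule.finrank_add_le_finrank_add_finrank _ _).trans ?_
      have h6 : finrank K (Submodule.span K {c0}) ≤ 1 := by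
        have := finrank_span_le_card (R := K) ({c0} : Set (E → K))
        simpa using this
      omega
  have h7 : (finrank K (van S.U A) : ℤ) ≤ finrank K (van S.U (insert x A)) + 1 := by
    exact_mod_cast key
  linarith

theorem r_submod (A B : Finset E) : S.r (A ∪ B) + S.r (A ∩ B) ≤ S.r A + S.r B := by
  have h1 := S.hU A
  have h2 := S.hU B
  have h3 := S.hU (A ∪ B)
  have h4 := S.hU (A ∩ B)
  have h5 := Submodule.finrank_sup_add_finrank_inf_eq (van S.U A) (van S.U B)
  rw [← van_union] at h5
  have h6 : finrank K ↥(van S.U A ⊔ van S.U B) ≤ finrank K (van S.U (A ∩ B)) :=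
    Submodule.finrank_mono (sup_le (van_anti Finset.inter_subset_left)
      (van_anti Finset.inter_subset_right))
  have h7 : (finrank K ↥(van S.U A ⊔ van S.U B) : ℤ) + finrank K (van S.U (A ∪ B)) =
      finrank K (van S.U A) + finrank K (van S.U B) := by exact_mod_cast h5
  have h8 : (finrank K ↥(van S.U A ⊔ van S.U B) : ℤ) ≤ finrank K (van S.U (A ∩ B)) := by
    exact_mod_cast h6
  linarith

theorem van_eq_zero {C : Finset E} {x : E} (h : S.r (insert x C) = S.r C) :
    ∀ c ∈ van S.U C, c x = 0 := by
  have h1 : finrank K (van S.U (insert x C)) = finrank K (van S.U C) := by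
    have h2 := S.hU C
    have h3 := S.hU (insert x C)
    have h4 : (finrank K (van S.U (insert x C)) : ℤ) = finrank K (van S.U C) := by
      rw [h2, h3, h]
    exact_mod_cast h4
  have h5 := Submodule.eq_of_le_of_finrank_eq
    (van_anti (U := S.U) (Finset.subset_insert x C)) h1
  intro c hc
  rw [← h5] at hc
  exact hc.2 x (Finset.mem_insert_self x C)

theorem van_one {C : Finset E} {x : E} (h : S.r (insert x C) = S.r C + 1) :
    ∃ c ∈ van S.U C, c x = 1 := by
  by_contra hcon
  have h0 : ∀ c ∈ van S.U C, c x = 0 := by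
    intro c hc
    by_contra hx
    exact hcon ⟨(c x)⁻¹ • c, (van S.U C).smul_mem _ hc, lrank_pos_smul hx⟩
  have h1 := Submodule.finrank_mono (lrank_le_insert h0)
  have h2 := S.hU C
  have h3 := S.hU (insert x C)
  have h4 : (finrank K (van S.U C) : ℤ) ≤ finrank K (van S.U (insert x C)) := by
    exact_mod_cast h1
  linarith

theorem spt_eq_zero {G : Finset E} {x : E} (hx : x ∈ G) (h : S.r (G.erase x) = S.r G - 1) :
    ∀ d ∈ spt S.W G, d x = 0 := by
  have hc : ((G.erase x).card : ℤ) = G.card - 1 := by
    have h0 := Finset.card_erase_add_one hx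
    have h1 : ((G.erase x).card : ℤ) + 1 = G.card := by exact_mod_cast h0
    linarith
  have h1 : finrank K (spt S.W (G.erase x)) = finrank K (spt S.W G) := by
    have h2 := S.hW G
    have h3 := S.hW (G.erase x)
    have h4 : (finrank K (spt S.W (G.erase x)) : ℤ) = finrank K (spt S.W G) := by
      rw [h2, h3, h, hc]
      ring
    exact_mod_cast h4
  have h5 := Submodule.eq_of_le_of_finrank_eq
    (spt_mono (W := S.W) (Finset.erase_subset x G)) h1
  intro d hd
  rw [← h5] at hd
  exact hd.2 x (Finset.notMem_erase x G)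

theorem spt_one {G : Finset E} {x : E} (hx : x ∈ G) (h : S.r (G.erase x) = S.r G) :
    ∃ d ∈ spt S.W G, d x = 1 := by
  by_contra hcon
  have h0 : ∀ d ∈ spt S.W G, d x = 0 := by
    intro d hd
    by_contra hx
    exact hcon ⟨(d x)⁻¹ • d, (spt S.W G).smul_mem _ hd, lrank_pos_smul hx⟩
  have hle : spt S.W G ≤ spt S.W (G.erase x) := by
    intro d hd
    refine ⟨hd.1, fun y hy => ?_⟩
    by_cases hyx : y = x
    · rw [hyx]
      exact h0 d hd
    · exact hd.2 y fun hyG => hy (Finset.mem_erase.2 ⟨hyx, hyG⟩)
  have hc : ((G.erase x).card : ℤ) = G.card - 1 := by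
    have h0 := Finset.card_erase_add_one hx
    have h1 : ((G.erase x).card : ℤ) + 1 = G.card := by exact_mod_cast h0
    linarith
  have h1 := Submodule.finrank_mono hle
  have h2 := S.hW G
  have h3 := S.hW (G.erase x)
  have h4 : (finrank K (spt S.W G) : ℤ) ≤ finrank K (spt S.W (G.erase x)) := by
    exact_mod_cast h1
  linarith

end TU

end Pool.Agent.QW
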