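import Pool.Agent.QUW.Rank

set_option autoImplicit false

/-!
# Project QU, layer A, module LRk: the rank function of a twisted pair is a rank function of layer B
-/

namespace Pool.Agent.QW

open Pool.Agent.QU

variable {K E : Type} [Field K] [Fintype E] [DecidableEq E]

theorem TU.rk (S : TU K E) : QUB.Rk S.r where
  empty := S.r_empty
  mono := fun _ _ h => S.r_mono h
  unit := fun A x => S.r_insert_le x A
  sub := S.r_submod

end Pool.Agent.QW
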