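import Pool.Agent.QUN.Defs
import Pool.Agent.QUW.Rank
import Pool.Agent.QUW.Rk

/-!
# QUN/Nrm: boxes which contract an independent set and delete a coindependent set

`nrm_exists`. Two moves. (1) `y ∈ p.2 \ q.2` with `S.r (insert y q.2) = S.r q.2 + 1`: replace `q` by `(insert y q.1, insert y q.2)`: the rank of `insert y q.1 ∪ A` is `S.r (q.1 ∪ A) + 1` for all `A ⊆ gs q`
(`marg`, `y` is not in the closure of `q.2`); a vector of `spt W (insert y q.2)` vanishes at `y` (`S.spt_eq_zero`), so it is in `spt W q.2`, and `van U (insert y q.1) ≤ van U q.1`: `EqD` is inherited.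
Repeat until `S.r q.2 = S.r p.2` (induction on `S.r p.2 - S.r q.2`; if no such `y` exists then `S.r q.2 = S.r p.2`). (2) `y ∈ q.1 \ p.1` with `S.r (q.1.erase y) = S.r q.1`: replace `q` by `(q.1.erase y, q.2.erase y)`:
`S.r (q.1.erase y ∪ A) = S.r (q.1 ∪ A)` and `S.r (q.2.erase y) = S.r q.2` (closure, `marg`); a vector of `van U (q.1.erase y)` vanishes at `y` (`S.van_eq_zero`), so it is in `van U q.1`; `spt W (q.2.erase y) ≤ spt W q.2`.
Repeat until `q.1 \ p.1` is independent over `p.1` (induction on `q.1.card`; if no such `y` exists then `S.r q.1 = S.r p.1 + (q.1 \ p.1).card`: add the elements of `q.1 \ p.1` to `p.1` one by one, `marg`).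
`same_*`: `lam r q A` and `Ln`, `Rich` only depend on the numbers `r (q.1 ∪ A) - r q.1`, `A ⊆ gs q` (for `Ln r q N`: `Y` can be written as `q.1 ∪ (Y \ q.1)` with `Y \ q.1 ⊆ gs q`; use `q'.1 ∪ (Y \ q.1)`).
-/

set_option autoImplicit false

namespace Pool.Agent.QW

open Pool.Agent.QU

section

variable {E : Type} [DecidableEq E] {r : Finset E → ℤ} {q q' : Itv E}

private theorem nm_full (hq : q.1 ⊆ q.2) : q.1 ∪ gs q = q.2 := by
  ext y
  have h1 : y ∈ q.1 → y ∈ q.2 := fun h => hq h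
  simp only [QUB.gs, Finset.mem_union, Finset.mem_sdiff]
  tauto

private theorem nm_top (hq : q.1 ⊆ q.2) (hq' : q'.1 ⊆ q'.2) (h : SameM r q q') :
    r q'.2 - r q'.1 = r q.2 - r q.1 := by
  have h1 := h.2 (gs q) (Finset.Subset.refl _)
  rw [nm_full hq, ← h.1, nm_full hq'] at h1
  exact h1

theorem same_rich (hq' : q'.1 ⊆ q'.2) (h : SameM r q q') (hR : Rich r q) : Rich r q' := by
  obtain ⟨hq, h5, h6⟩ := hR
  have ht := nm_top hq hq' h
  refine ⟨hq', by rw [h.1]; exact h5, ?_⟩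
  rcases h6 with ⟨h7, h8⟩ | ⟨h7, h8⟩
  · refine Or.inl ⟨by linarith, ?_⟩
    rw [h.1]
    intro i hi j hj hij
    have h9 := h.2 {i, j} (by
      intro y hy
      simp only [Finset.mem_insert, Finset.mem_singleton] at hy
      rcases hy with rfl | rfl
      · exact hi
      · exact hj)
    have h10 := h8 i hi j hj hij
    linarith
  · refine Or.inr ⟨by linarith, ?_⟩
    rw [h.1]
    intro i hi j hj k hk hij hik hjk
    have h9 := h.2 {i, j, k} (by
      intro y hy
      simp only [Finset.mem_insert, Finset.mem_singleton] at hy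
      rcases hy with rfl | rfl | rfl
      · exact hi
      · exact hj
      · exact hk)
    have h10 := h8 i hi j hj k hk hij hik hjk
    linarith

private theorem nm_cmp (hq : q.1 ⊆ q.2) {A : Finset E} (hA : A ⊆ gs q) : q.2 \ A = q.1 ∪ (gs q \ A) := by
  ext y
  have h1 : y ∈ q.1 → y ∈ q.2 := fun h => hq h
  have h2 : y ∈ A → y ∈ q.2 ∧ y ∉ q.1 := fun h => by
    have := hA h
    simpa only [QUB.gs, Finset.mem_sdiff] using this
  simp only [QUB.gs, Finset.mem_union, Finset.mem_sdiff]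
  tauto

private theorem nm_lam (hq : q.1 ⊆ q.2) (hq' : q'.1 ⊆ q'.2) (h : SameM r q q') {A : Finset E} (hA : A ⊆ gs q) :
    lam r q' A = lam r q A := by
  have hA' : A ⊆ gs q' := by rw [h.1]; exact hA
  have h1 := h.2 A hA
  have h2 := h.2 (gs q \ A) Finset.sdiff_subset
  have h3 := nm_top hq hq' h
  have e1 := nm_cmp hq hA
  have e2 := nm_cmp hq' hA'
  rw [h.1] at e2
  unfold QUB.lam
  rw [e1, e2]
  linarith

theorem same_cn (hq : q.1 ⊆ q.2) (hq' : q'.1 ⊆ q'.2) (h : SameM r q q') (hc : QUB.Cn r q) : QUB.Cn r q' := by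
  intro A hA h1 h2
  rw [h.1] at hA h2
  have h3 := hc A hA h1 h2
  have h4 := nm_lam hq hq' h hA
  rw [h4]
  exact h3

theorem same_ln (hq : q.1 ⊆ q.2) (hq' : q'.1 ⊆ q'.2) (h : SameM r q q') (hN : HasLn r q) : HasLn r q' := by
  obtain ⟨N, h4, Y, hY, hYN, hd, h5, h6⟩ := hN
  have hgs : ∀ y, (y ∈ q'.2 ∧ y ∉ q'.1) ↔ (y ∈ q.2 ∧ y ∉ q.1) := by
    intro y
    have := h.1
    have h1 : y ∈ gs q' ↔ y ∈ gs q := by rw [this]
    simpa only [QUB.gs, Finset.mem_sdiff] using h1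
  have hNN : ∀ y ∈ N, y ∈ q.2 ∧ y ∉ q.1 ∧ y ∉ Y := by
    intro y hy
    have h1 : y ∉ Y := Finset.disjoint_left.1 hd hy
    exact ⟨hYN (Finset.mem_union_right _ hy), fun h2 => h1 (hY h2), h1⟩
  have key : ∀ B : Finset E, B ⊆ gs q → Y ∪ B = q.1 ∪ ((Y \ q.1) ∪ B) ∧
      r (q'.1 ∪ ((Y \ q.1) ∪ B)) - r q'.1 = r (Y ∪ B) - r q.1 := by
    intro B hB
    have e : Y ∪ B = q.1 ∪ ((Y \ q.1) ∪ B) := by
      ext y
      have h1 : y ∈ q.1 → y ∈ Y := fun h => hY h
      simp only [Finset.mem_union, Finset.mem_sdiff]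
      tauto
    refine ⟨e, ?_⟩
    rw [e]
    refine h.2 _ (Finset.union_subset ?_ hB)
    intro y hy
    rw [Finset.mem_sdiff] at hy
    simp only [QUB.gs, Finset.mem_sdiff]
    exact ⟨hYN (Finset.mem_union_left _ hy.1), hy.2⟩
  have k0 := (key ∅ (Finset.empty_subset _)).2
  rw [Finset.union_empty, Finset.union_empty] at k0
  refine ⟨N, h4, q'.1 ∪ (Y \ q.1), Finset.subset_union_left, ?_, ?_, ?_, ?_⟩
  · intro y hy
    simp only [Finset.mem_union, Finset.mem_sdiff] at hy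
    rcases hy with (hy | hy) | hy
    · exact hq' hy
    · exact ((hgs y).2 ⟨hYN (Finset.mem_union_left _ hy.1), hy.2⟩).1
    · exact ((hgs y).2 ⟨(hNN y hy).1, (hNN y hy).2.1⟩).1
  · rw [Finset.disjoint_left]
    intro y hy h1
    have h2 := hNN y hy
    simp only [Finset.mem_union, Finset.mem_sdiff] at h1
    rcases h1 with h1 | h1
    · exact ((hgs y).2 ⟨h2.1, h2.2.1⟩).2 h1
    · exact h2.2.2 h1.1
  · have k1 := (key N (fun y hy => by
      simp only [QUB.gs, Finset.mem_sdiff]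
      exact ⟨(hNN y hy).1, (hNN y hy).2.1⟩)).2
    rw [Finset.union_assoc]
    linarith
  · intro i hi j hj hij
    have k1 := (key {i, j} (fun y hy => by
      simp only [Finset.mem_insert, Finset.mem_singleton] at hy
      simp only [QUB.gs, Finset.mem_sdiff]
      rcases hy with rfl | rfl
      · exact ⟨(hNN _ hi).1, (hNN _ hi).2.1⟩
      · exact ⟨(hNN _ hj).1, (hNN _ hj).2.1⟩)).2
    have e1 : insert i (insert j (q'.1 ∪ (Y \ q.1))) = q'.1 ∪ ((Y \ q.1) ∪ {i, j}) := by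
      ext y
      simp only [Finset.mem_insert, Finset.mem_union, Finset.mem_singleton]
      tauto
    have e2 : insert i (insert j Y) = Y ∪ {i, j} := by
      ext y
      simp only [Finset.mem_insert, Finset.mem_union, Finset.mem_singleton]
      tauto
    have h7 := h6 i hi j hj hij
    rw [e2] at h7
    rw [e1]
    linarith

private theorem nm_cl (hr : QUB.Rk r) (A : Finset E) (B : Finset E) (h : ∀ y ∈ B, r (insert y A) = r A) :
    r (A ∪ B) = r A := by
  induction B using Finset.induction_on with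
  | empty => rw [Finset.union_empty]
  | insert b B hb ih =>
    have h1 := ih (fun y hy => h y (Finset.mem_insert_of_mem hy))
    have h2 := QUB.marg hr (Finset.subset_union_left : A ⊆ A ∪ B) b
    have h3 := h b (Finset.mem_insert_self _ _)
    have h4 := hr.mono (A ∪ B) (insert b (A ∪ B)) (Finset.subset_insert _ _)
    rw [Finset.union_insert]
    linarith

private theorem nm_ind (hr : QUB.Rk r) (P Q : Finset E) (h : ∀ y ∈ Q \ P, r (Q.erase y) + 1 ≤ r Q) (D : Finset E)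
    (hPQ : P ⊆ Q) (hD : D ⊆ Q \ P) : r (P ∪ D) = r P + D.card := by
  induction D using Finset.induction_on with
  | empty => rw [Finset.union_empty, Finset.card_empty]; simp
  | insert b D hb ih =>
    have h1 := ih (fun y hy => hD (Finset.mem_insert_of_mem hy))
    have hbQ := hD (Finset.mem_insert_self b D)
    have hsub : P ∪ D ⊆ Q.erase b := by
      intro y hy
      rw [Finset.mem_union] at hy
      rw [Finset.mem_erase]
      have hb2 := Finset.mem_sdiff.1 hbQ
      rcases hy with hy | hy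
      · exact ⟨fun e => hb2.2 (e ▸ hy), hPQ hy⟩
      · exact ⟨fun e => hb (e ▸ hy), (Finset.mem_sdiff.1 (hD (Finset.mem_insert_of_mem hy))).1⟩
    have h2 := QUB.marg hr hsub b
    rw [Finset.insert_erase (Finset.mem_sdiff.1 hbQ).1] at h2
    have h3 := h b hbQ
    have h4 := hr.unit (P ∪ D) b
    rw [Finset.union_insert, Finset.card_insert_of_notMem hb]
    push_cast
    linarith

private theorem nm_trans {q₁ q₂ q₃ : Itv E} (h : SameM r q₁ q₂) (h' : SameM r q₂ q₃) : SameM r q₁ q₃ := by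
  refine ⟨h'.1.trans h.1, fun A hA => ?_⟩
  rw [h'.2 A (by rw [h.1]; exact hA), h.2 A hA]

end

variable {K E : Type} [Field K] [Fintype E] [DecidableEq E]

private theorem nm_move1 (S : TU K E) {p q : Itv E} (hq : Sub q p) (hqq : q.1 ⊆ q.2) {y : E} (hy : y ∈ p.2)
    (hy2 : y ∉ q.2) (h : S.r (insert y q.2) = S.r q.2 + 1) :
    Sub (insert y q.1, insert y q.2) p ∧ (insert y q.1 : Finset E) ⊆ insert y q.2 ∧
      SameM S.r q (insert y q.1, insert y q.2) ∧
      ∀ T : Fm K E, EqD S.U S.W q T 0 → EqD S.U S.W (insert y q.1, insert y q.2) T 0 := by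
  have hB : ∀ B : Finset E, B ⊆ q.2 → S.r (insert y B) = S.r B + 1 := by
    intro B hB
    have h1 := QUB.marg S.rk hB y
    have h2 := S.rk.unit B y
    linarith
  refine ⟨⟨fun z hz => Finset.mem_insert_of_mem (hq.1 hz), ?_⟩, Finset.insert_subset_insert _ hqq, ⟨?_, ?_⟩, ?_⟩
  · intro z hz
    rcases Finset.mem_insert.1 hz with rfl | hz
    · exact hy
    · exact hq.2 hz
  · ext z
    simp only [QUB.gs, Finset.mem_sdiff, Finset.mem_insert]
    constructor
    · rintro ⟨h1 | h1, h2⟩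
      · exact absurd (Or.inl h1) h2
      · exact ⟨h1, fun h3 => h2 (Or.inr h3)⟩
    · rintro ⟨h1, h2⟩
      refine ⟨Or.inr h1, ?_⟩
      rintro (h3 | h3)
      · exact hy2 (h3 ▸ h1)
      · exact h2 h3
  · intro A hA
    have hA2 : q.1 ∪ A ⊆ q.2 := Finset.union_subset hqq (fun z hz => (Finset.mem_sdiff.1 (hA hz)).1)
    have h1 := hB _ hA2
    have h2 := hB _ hqq
    have e : (insert y q.1 : Finset E) ∪ A = insert y (q.1 ∪ A) := Finset.insert_union _ _ _
    show S.r (insert y q.1 ∪ A) - S.r (insert y q.1) = _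
    rw [e]
    linarith
  · rintro T ⟨l, hl⟩
    refine ⟨l, fun c hc d hd => hl c (van_anti (Finset.subset_insert _ _) hc) d ?_⟩
    have hz : S.r ((insert y q.2 : Finset E).erase y) = S.r (insert y q.2) - 1 := by
      rw [Finset.erase_insert hy2, h]
      ring
    have hd0 := S.spt_eq_zero (Finset.mem_insert_self y q.2) hz d hd
    refine ⟨hd.1, fun x hx => ?_⟩
    by_cases hxy : x = y
    · rw [hxy]; exact hd0
    · exact hd.2 x (fun h3 => (Finset.mem_insert.1 h3).elim hxy hx)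

private theorem nm_move2 (S : TU K E) {p q : Itv E} (hq : Sub q p) (hqq : q.1 ⊆ q.2) {y : E} (hy : y ∈ q.1)
    (hy2 : y ∉ p.1) (h : S.r (q.1.erase y) = S.r q.1) :
    Sub (q.1.erase y, q.2.erase y) p ∧ q.1.erase y ⊆ q.2.erase y ∧
      SameM S.r q (q.1.erase y, q.2.erase y) ∧ S.r (q.2.erase y) = S.r q.2 ∧
      ∀ T : Fm K E, EqD S.U S.W q T 0 → EqD S.U S.W (q.1.erase y, q.2.erase y) T 0 := by
  have hB : ∀ B : Finset E, q.1.erase y ⊆ B → S.r (insert y B) = S.r B := by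
    intro B hB
    have h1 := QUB.marg S.rk hB y
    rw [Finset.insert_erase hy] at h1
    have h2 := S.rk.mono B (insert y B) (Finset.subset_insert _ _)
    linarith
  have hyq2 : y ∈ q.2 := hqq hy
  refine ⟨⟨fun z hz => Finset.mem_erase.2 ⟨fun e => hy2 (e ▸ hz), hq.1 hz⟩, fun z hz => hq.2 (Finset.mem_of_mem_erase hz)⟩,
    Finset.erase_subset_erase _ hqq, ⟨?_, ?_⟩, ?_, ?_⟩
  · ext z
    simp only [QUB.gs, Finset.mem_sdiff, Finset.mem_erase]
    constructor
    · rintro ⟨⟨h1, h2⟩, h3⟩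
      exact ⟨h2, fun h4 => h3 ⟨h1, h4⟩⟩
    · rintro ⟨h1, h2⟩
      exact ⟨⟨fun e => h2 (e ▸ hy), h1⟩, fun h4 => h2 h4.2⟩
  · intro A hA
    have h1 := hB (q.1.erase y ∪ A) Finset.subset_union_left
    have e : insert y (q.1.erase y ∪ A) = q.1 ∪ A := by
      rw [← Finset.insert_union, Finset.insert_erase hy]
    rw [e] at h1
    show S.r (q.1.erase y ∪ A) - S.r (q.1.erase y) = _
    rw [h1, h]
  · have h1 := hB (q.2.erase y) (Finset.erase_subset_erase _ hqq)
    rw [Finset.insert_erase hyq2] at h1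
    exact h1.symm
  · rintro T ⟨l, hl⟩
    refine ⟨l, fun c hc d hd => hl c ?_ d (spt_mono (Finset.erase_subset _ _) hd)⟩
    have hz : S.r (insert y (q.1.erase y)) = S.r (q.1.erase y) := by
      rw [Finset.insert_erase hy, h]
    have hc0 := S.van_eq_zero hz c hc
    refine ⟨hc.1, fun x hx => ?_⟩
    by_cases hxy : x = y
    · rw [hxy]; exact hc0
    · exact hc.2 x (Finset.mem_erase.2 ⟨hxy, hx⟩)

private theorem nm_stepA (S : TU K E) {p : Itv E} (n : ℕ) : ∀ q : Itv E, Sub q p → q.1 ⊆ q.2 →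
    (S.r p.2 - S.r q.2).toNat ≤ n →
    ∃ q' : Itv E, Sub q' p ∧ q'.1 ⊆ q'.2 ∧ SameM S.r q q' ∧ S.r q'.2 = S.r p.2 ∧
      ∀ T : Fm K E, EqD S.U S.W q T 0 → EqD S.U S.W q' T 0 := by
  induction n with
  | zero =>
    intro q hq hqq hn
    have h1 := S.rk.mono q.2 p.2 hq.2
    refine ⟨q, hq, hqq, ⟨rfl, fun A _ => rfl⟩, by omega, fun T hT => hT⟩
  | succ n ih =>
    intro q hq hqq hn
    by_cases hy : ∃ y ∈ p.2 \ q.2, S.r (insert y q.2) = S.r q.2 + 1
    · obtain ⟨y, hy, h⟩ := hy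
      rw [Finset.mem_sdiff] at hy
      obtain ⟨h1, h2, h3, h4⟩ := nm_move1 S hq hqq hy.1 hy.2 h
      have h5 := S.rk.mono (insert y q.2) p.2 h1.2
      obtain ⟨q', g1, g2, g3, g4, g5⟩ := ih (insert y q.1, insert y q.2) h1 h2 (by
        show (S.r p.2 - S.r (insert y q.2)).toNat ≤ n
        omega)
      exact ⟨q', g1, g2, nm_trans h3 g3, g4, fun T hT => g5 T (h4 T hT)⟩
    · push Not at hy
      refine ⟨q, hq, hqq, ⟨rfl, fun A _ => rfl⟩, ?_, fun T hT => hT⟩
      have h1 := nm_cl S.rk q.2 (p.2 \ q.2) (fun y hy1 => by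
        have h2 := hy y hy1
        have h3 := S.rk.unit q.2 y
        have h4 := S.rk.mono q.2 (insert y q.2) (Finset.subset_insert _ _)
        omega)
      rw [Finset.union_sdiff_of_subset hq.2] at h1
      exact h1.symm

private theorem nm_stepB (S : TU K E) {p : Itv E} (n : ℕ) : ∀ q : Itv E, Sub q p → q.1 ⊆ q.2 →
    S.r q.2 = S.r p.2 → q.1.card ≤ n →
    ∃ q' : Itv E, Sub q' p ∧ q'.1 ⊆ q'.2 ∧ SameM S.r q q' ∧ Nrm S.r p q' ∧
      ∀ T : Fm K E, EqD S.U S.W q T 0 → EqD S.U S.W q' T 0 := by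
  induction n with
  | zero =>
    intro q hq hqq h2 hn
    have h1 : q.1 = ∅ := Finset.card_eq_zero.1 (Nat.le_zero.1 hn)
    have h3 : p.1 = ∅ := Finset.subset_empty.1 (h1 ▸ hq.1)
    refine ⟨q, hq, hqq, ⟨rfl, fun A _ => rfl⟩, ⟨?_, h2⟩, fun T hT => hT⟩
    rw [h1, h3]
    simp
  | succ n ih =>
    intro q hq hqq h2 hn
    by_cases hy : ∃ y ∈ q.1 \ p.1, S.r (q.1.erase y) = S.r q.1
    · obtain ⟨y, hy, h⟩ := hy
      rw [Finset.mem_sdiff] at hy
      obtain ⟨g1, g2, g3, g4, g5⟩ := nm_move2 S hq hqq hy.1 hy.2 h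
      have hc := Finset.card_erase_add_one hy.1
      obtain ⟨q', k1, k2, k3, k4, k5⟩ := ih (q.1.erase y, q.2.erase y) g1 g2 (g4.trans h2) (by
        show (q.1.erase y).card ≤ n
        omega)
      exact ⟨q', k1, k2, nm_trans g3 k3, k4, fun T hT => k5 T (g5 T hT)⟩
    · push Not at hy
      refine ⟨q, hq, hqq, ⟨rfl, fun A _ => rfl⟩, ⟨?_, h2⟩, fun T hT => hT⟩
      have h1 := nm_ind S.rk p.1 q.1 (fun y hy1 => by
        have h3 := hy y hy1
        have h4 := S.rk.mono (q.1.erase y) q.1 (Finset.erase_subset _ _)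
        omega) (q.1 \ p.1) hq.1 (Finset.Subset.refl _)
      rw [Finset.union_sdiff_of_subset hq.1] at h1
      exact h1

theorem nrm_exists (S : TU K E) {p q : Itv E} (hq : Sub q p) (hqq : q.1 ⊆ q.2) :
    ∃ q' : Itv E, Sub q' p ∧ q'.1 ⊆ q'.2 ∧ SameM S.r q q' ∧ Nrm S.r p q' ∧
      ∀ T : Fm K E, EqD S.U S.W q T 0 → EqD S.U S.W q' T 0 := by
  obtain ⟨q₁, h1, h2, h3, h4, h5⟩ := nm_stepA S (S.r p.2 - S.r q.2).toNat q hq hqq le_rfl
  obtain ⟨q₂, g1, g2, g3, g4, g5⟩ := nm_stepB S q₁.1.card q₁ h1 h2 h4 le_rfl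
  exact ⟨q₂, g1, g2, nm_trans h3 g3, g4, fun T hT => g5 T (h5 T hT)⟩

end Pool.Agent.QW
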