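import Pool.Agent.QUN.NbOut
import Pool.Agent.QUN.Ci
import Pool.Agent.QUN.Lnb
import Pool.Agent.QUN.Sxn
import Pool.Agent.QUW.Bin
import Pool.Agent.QUW.G
import Pool.Agent.QUW.Nrm
import Pool.Agent.QUL.LRich

/-!
# QUW/Kp: two forms of an untwisted pair

`T₁`, `T₂` forms of an untwisted pair; on every four point line some combination of them is diagonal, and any two combinations which are diagonal on a
box with a four point line minor are proportional.  Then some combination is diagonal on every connected box which is `Ok` and has no rich minor.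
-/

set_option autoImplicit false

open QUB

namespace Pool.Agent.QW

open Pool.Agent.QU

variable {E : Type} [Fintype E] [DecidableEq E] {K : Type} [Field K]

private theorem k_sep (S : TU K E) {p : Itv E} (hp : p.1 ⊆ p.2) (hc : Cn S.r p)
    (ho : Ok S.r p) (h3 : ¬ Th3 S.r p) :
    ∃ A ⊆ gs p, 2 ≤ A.card ∧ 2 ≤ (gs p \ A).card ∧ QUB.lam S.r p A = 1 ∧ ¬ Hv S.r p (gs p \ A) := by
  unfold Th3 at h3
  push Not at h3
  obtain ⟨A, hA, h1, h2, h4⟩ := h3
  have h5 : 1 ≤ lam S.r p A := hc A hA (Finset.card_pos.1 (by omega)) (Finset.card_pos.1 (by omega))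
  have h6 : lam S.r p A = 1 := by omega
  by_cases h7 : QUB.Hv S.r p A
  · exact ⟨A, hA, h1, h2, h6, fun h8 => ho A hA h6.le ⟨h7, h8⟩⟩
  · have e : gs p \ (gs p \ A) = A := Finset.sdiff_sdiff_eq_self hA
    refine ⟨gs p \ A, Finset.sdiff_subset, h2, ?_, ?_, ?_⟩
    · rw [e]
      exact h1
    · have h8 : lam S.r p (gs p \ A) = lam S.r p A := QUB.lam_compl S.r hp hA
      rw [h8]
      exact h6
    · rw [e]
      exact h7

private theorem k_dg {U W : Submodule K (E → K)} {p : Itv E} (l : E → K) :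
    EqD U W p (dg l) 0 := ⟨l, by rw [zero_add]; exact EqOn.rfl⟩

/-- the light half takes care of itself -/
private theorem k_two (S : TU K E) {p : Itv E} (hp : p.1 ⊆ p.2) {A : Finset E}
    (hA : A ⊆ gs p) (hl : lam S.r p A = 1) (hlight : ¬ QUB.Hv S.r p (gs p \ A)) {T T' : Fm K E}
    (hT : InV S.U S.W p T) (hT' : InV S.U S.W p T') {X : Finset E} {b : E}
    (hX : Half S.r p A X b) (h1 : EqD S.U S.W (hb p A X b) T T') : EqD S.U S.W p T T' := by
  have hB : gs p \ A ⊆ gs p := Finset.sdiff_subset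
  have hlB : lam S.r p (gs p \ A) = 1 := by
    have h8 : lam S.r p (gs p \ A) = lam S.r p A := QUB.lam_compl S.r hp hA
    rw [h8]
    exact hl
  obtain ⟨X', a, hX'⟩ := half_exists S.rk hp hB hlB
  obtain ⟨f, g, hk⟩ := kink_exists S hp hA hl
  obtain ⟨s1, s2, s3, s4⟩ := half_sub hp hB hX'
  have hno := half_light hp hB hX' hlight
  have hs : Sub (hb p (gs p \ A) X' a) p := ⟨s1, s2⟩
  have d1 := bin_diag S s3 hno (hT.mono hs)
  have d2 := bin_diag S s3 hno (hT'.mono hs)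
  obtain ⟨k, hk2⟩ := dec_uniq S hp hA hl hk hX hX' hT hT' h1 (d1.trans d2.symm)
  obtain ⟨w, hw1, hw2⟩ := bin_hom S s3 hno
  obtain ⟨k2, -, hk3⟩ := kink_diag S hp hA hl hk hX' hw2 (hw1 a (by
    rw [s4]
    exact Finset.mem_insert_self _ _))
  have h2 : EqD S.U S.W p (kf f g) 0 := hk3.eqD.trans (k_dg _)
  have h3 : EqD S.U S.W p (T' + k • kf f g) (T' + k • (0 : Fm K E)) := EqD.rfl.add (h2.smul k)
  rw [smul_zero, add_zero] at h3
  exact hk2.trans h3

private theorem k_half_card {p : Itv E} {A : Finset E} (hA : A ⊆ gs p) {b : E}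
    (h2 : 2 ≤ (gs p \ A).card) : (insert b A).card < (gs p).card := by
  have h1 := Finset.card_insert_le b A
  have h3 := Finset.card_sdiff_add_card_eq_card hA
  omega

private theorem k_rm_card {p : Itv E} {u : E} (hu : u ∈ gs p) (t : Bool) :
    (gs (QUB.rm t u p)).card < (gs p).card := by
  rw [QUB.gs_rm]
  exact Finset.card_erase_lt_of_mem hu

private theorem k_big {p : Itv E} {r : Finset E → ℤ} (hN : ∃ N, QUB.Ln r p N) :
    4 ≤ (gs p).card := by
  obtain ⟨N, hN⟩ := hN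
  have h1 : N ⊆ gs p := QUB.Ln.sub hN
  have h2 := Finset.card_le_card h1
  have h3 := hN.1
  omega

/-- a split with a minimum side -/
private theorem k_min {r : Finset E → ℤ} {p : Itv E}
    (h : ∃ w ∈ gs p, ∃ s X, Nbs r p w s X) :
    ∃ w ∈ gs p, ∃ s X, Nbs r p w s X ∧ ∀ w' ∈ gs p, ∀ s' X', Nbs r p w' s' X' → X.card ≤ X'.card := by
  classical
  obtain ⟨w, hw, s, X, h1⟩ := h
  have hex : ∃ n, ∃ w ∈ gs p, ∃ s X, Nbs r p w s X ∧ X.card = n := ⟨_, w, hw, s, X, h1, rfl⟩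
  obtain ⟨w₀, hw₀, s₀, X₀, h3, h5⟩ := Nat.find_spec hex
  refine ⟨w₀, hw₀, s₀, X₀, h3, fun w' hw' s' X' h6 => ?_⟩
  rw [h5]
  exact Nat.find_min' hex ⟨w', hw', s', X', h6, rfl⟩

/-- some combination of `T₁` and `T₂` is diagonal on `q` -/
def Kd (S : TU K E) (T₁ T₂ : Fm K E) (q : Itv E) : Prop :=
  ∃ a b : K, (a ≠ 0 ∨ b ≠ 0) ∧ EqD S.U S.W q (a • T₁ + b • T₂) 0

/-- combinations which are diagonal on a box with a four point line minor are proportional -/
def Kl (S : TU K E) (T₁ T₂ : Fm K E) : Prop :=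
  ∀ q : Itv E, HasLn S.r q → ∀ a b a' b' : K, EqD S.U S.W q (a • T₁ + b • T₂) 0 → EqD S.U S.W q (a' • T₁ + b' • T₂) 0 → a * b' = a' * b

omit [Fintype E] in
private theorem k_prop {a b a' b' : K} (h : a' ≠ 0 ∨ b' ≠ 0) (e : a * b' = a' * b) : ∃ k : K, a = k * a' ∧ b = k * b' := by
  rcases h with h | h
  · refine ⟨a / a', by rw [div_mul_cancel₀ _ h], ?_⟩
    field_simp
    linear_combination -e
  · refine ⟨b / b', ?_, by rw [div_mul_cancel₀ _ h]⟩
    field_simp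
    linear_combination e

/-- the same combination is diagonal on two boxes with a common four point line minor -/
theorem k_move (S : TU K E) {T₁ T₂ : Fm K E} (hu : Kl S T₁ T₂) {q u v : Itv E} (hqu : Sub q u) (hqv : Sub q v) (hN : HasLn S.r q)
    {a b : K} (h1 : EqD S.U S.W u (a • T₁ + b • T₂) 0) (h2 : Kd S T₁ T₂ v) : EqD S.U S.W v (a • T₁ + b • T₂) 0 := by
  obtain ⟨a', b', h3, h4⟩ := h2
  obtain ⟨k, rfl, rfl⟩ := k_prop h3 (hu q hN a b a' b' (h1.mono hqu) (h4.mono hqv))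
  have h5 := h4.smul k
  rw [smul_zero, smul_add, smul_smul, smul_smul] at h5
  exact h5

/-- the induction hypothesis -/
private def IH (S : TU K E) (T₁ T₂ : Fm K E) (p : Itv E) : Prop :=
  ∀ q : Itv E, (gs q).card < (gs p).card → q.1 ⊆ q.2 → Cn S.r q → Ok S.r q → ¬ HasRich S.r q → Kd S T₁ T₂ q

section

variable (S : TU K E) {T₁ T₂ : Fm K E} (hV : ∀ (q : Itv E) (a b : K), InV S.U S.W q (a • T₁ + b • T₂)) (hu : Kl S T₁ T₂)

include hV hu

private theorem k_same {p : Itv E} (hp : p.1 ⊆ p.2) (h3 : Th3 S.r p) (hn : 4 ≤ (gs p).card) {u v : E} {t : Bool} (huv : u ≠ v)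
    (hu1 : u ∈ gs p) (hv1 : v ∈ gs p) (h1 : Kd S T₁ T₂ (QUB.rm t u p)) (h2 : Kd S T₁ T₂ (QUB.rm t v p))
    (hc : Cn S.r (QUB.rm t u (QUB.rm t v p))) (hN : HasLn S.r (QUB.rm t u (QUB.rm t v p))) : Kd S T₁ T₂ p := by
  obtain ⟨a, b, h4, h5⟩ := h1
  have s1 : Sub (rm t u (rm t v p)) (rm t u p) := by
    rw [QU.rm_comm]
    exact rm_sub t v (rm t u p)
  exact ⟨a, b, h4, g_same S hp h3 hn huv hu1 hv1 (hV p a b) h5 (k_move S hu s1 (rm_sub t u (rm t v p)) hN h5 h2) hc⟩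

private theorem k_pair {p : Itv E} (hp : p.1 ⊆ p.2) {u v : E} {t s : Bool} (huv : u ≠ v)
    (hu1 : u ∈ gs p) (hv1 : v ∈ gs p) (h1 : Kd S T₁ T₂ (QUB.rm t u p)) (h2 : Kd S T₁ T₂ (QUB.rm s v p))
    (hc : Cn S.r (QUB.rm t u (QUB.rm s v p))) (hN : HasLn S.r (QUB.rm t u (QUB.rm s v p))) (hnd : ND S.r p u v t s) : Kd S T₁ T₂ p := by
  obtain ⟨a, b, h4, h5⟩ := h1
  have s1 : Sub (rm t u (rm s v p)) (rm t u p) := by
    rw [QU.rm_comm]
    exact rm_sub s v (rm t u p)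
  exact ⟨a, b, h4, g_pair S hp huv hu1 hv1 (hV p a b) h5 (k_move S hu s1 (rm_sub t u (rm s v p)) hN h5 h2) hc hnd⟩

private theorem k_path {p : Itv E} (hp : p.1 ⊆ p.2) (h3 : Th3 S.r p) (hn : 4 ≤ (gs p).card) {a b c : E} {s : Bool} (hab : a ≠ b)
    (hac : a ≠ c) (hbc : b ≠ c) (ha : a ∈ gs p) (hb : b ∈ gs p) (hcc : c ∈ gs p)
    (h1 : Kd S T₁ T₂ (QUB.rm s a p)) (h2 : Kd S T₁ T₂ (QUB.rm (!s) b p)) (h4 : Kd S T₁ T₂ (QUB.rm s c p))
    (c1 : Cn S.r (QUB.rm s a (QUB.rm (!s) b p))) (l1 : HasLn S.r (QUB.rm s a (QUB.rm (!s) b p)))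
    (c2 : Cn S.r (QUB.rm s c (QUB.rm (!s) b p))) (l2 : HasLn S.r (QUB.rm s c (QUB.rm (!s) b p))) (hnt : NT S.r p s a b c) :
    Kd S T₁ T₂ p := by
  obtain ⟨x, y, h5, h6⟩ := h2
  have s1 : Sub (rm s a (rm (!s) b p)) (rm s a p) := by
    rw [QU.rm_comm]
    exact rm_sub (!s) b (rm s a p)
  have s2 : Sub (rm s c (rm (!s) b p)) (rm s c p) := by
    rw [QU.rm_comm]
    exact rm_sub (!s) b (rm s c p)
  exact ⟨x, y, h5, g_path S hp h3 hn hab hac hbc ha hb hcc (hV p x y) (k_move S hu (rm_sub s a _) s1 l1 h6 h1) h6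
    (k_move S hu (rm_sub s c _) s2 l2 h6 h4) c1 c2 hnt⟩

/-- the case of a split -/
private theorem k_nb {p : Itv E} (ih : IH S T₁ T₂ p) (hp : p.1 ⊆ p.2) (hc : Cn S.r p) (ho : Ok S.r p) (h3 : Th3 S.r p)
    (hR : ¬ HasRich S.r p) (h : ∃ w ∈ gs p, ∃ s X, Nbs S.r p w s X) : Kd S T₁ T₂ p := by
  have hr := S.rk
  obtain ⟨w, hw, s, X, hn, hmin⟩ := k_min h
  have hX := hn.1
  have hvX := hn.2.2.1
  have hvY := hn.2.2.2
  have hX3 : 3 ≤ X.card := hvX.card
  have hY3 : 3 ≤ ((gs p).erase w \ X).card := hvY.card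
  have hXp : X ⊆ gs p := hX.trans (Finset.erase_subset _ _)
  have hn7 : 7 ≤ (gs p).card := by
    have h1 := Finset.card_sdiff_add_card_eq_card hX
    have h2 := Finset.card_erase_add_one hw
    omega
  have hmw : Mn1 S.r p w s X := by
    intro A hA hAX
    have h1 := Finset.card_lt_card hAX
    have h2 := hmin w hw s A hA
    omega
  have hme : ∀ e ∈ X, ∀ t, Cn S.r (QUB.rm t e (QUB.rm s w p)) → Mn1 S.r p e t X := by
    intro e he t ce A hA hAX
    have h1 := Finset.card_lt_card hAX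
    have h2 := hmin e (hXp he) t A hA
    omega
  have hD : ∀ e ∈ X, ∀ t, GE S.r p w s e t → Kd S T₁ T₂ (QUB.rm t e p) := by
    intro e he t hG
    exact ih (QUB.rm t e p) (k_rm_card (hXp he) t) (wf_rm hp (hXp he)) (th3_cn hr hp hc h3 (by omega) (hXp he) t) hG.2
      fun ⟨q, hq, hR'⟩ => hR ⟨q, (rm_sub t e p).trans hq, hR'⟩
  rcases nb_out hr hp hc ho h3 hw hn hmw hme with h | h
  · obtain ⟨t, e, he, f, hf, hef, ge, gf, c, l⟩ := h
    exact k_same S hV hu hp h3 (by omega) hef (hXp he) (hXp hf) (hD e he t ge) (hD f hf t gf) c l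
  · obtain ⟨a, ha, b, hb', c, hcX, hab, hac, hbc, ga, gb, gc, c1, l1, c2, l2, hnt⟩ := h
    exact k_path S hV hu hp h3 (by omega) hab hac hbc (hXp ha) (hXp hb') (hXp hcX) (hD a ha _ ga) (hD b hb' _ gb)
      (hD c hcX _ gc) c1 l1 c2 l2 hnt

/-- no split -/
private theorem k_ci {p : Itv E} (ih : IH S T₁ T₂ p) (hp : p.1 ⊆ p.2) (hc : Cn S.r p) (h3 : Th3 S.r p)
    (hn : 7 ≤ (gs p).card) (hN : HasLn S.r p) (hR : ¬ HasRich S.r p)
    (hI : ∀ w ∈ gs p, ∀ s, Ok S.r (QUB.rm s w p)) : Kd S T₁ T₂ p := by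
  have hr := S.rk
  have hD : ∀ x ∈ gs p, ∀ t, Kd S T₁ T₂ (QUB.rm t x p) := by
    intro x hx t
    exact ih (QUB.rm t x p) (k_rm_card hx t) (wf_rm hp hx) (th3_cn hr hp hc h3 (by omega) hx t) (hI x hx t)
      fun ⟨q, hq, hR'⟩ => hR ⟨q, (rm_sub t x p).trans hq, hR'⟩
  obtain ⟨q₀, h1, h2, h4, h5, h6⟩ := line_box hr hN
  obtain ⟨q, hq, hqq, g3, hqn, -⟩ := nrm_exists S h1 h2
  have hqc : Cn S.r q := same_cn h2 hqq g3 h5
  have hql : HasLn S.r q := same_ln h2 hqq g3 h6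
  have hcard : (gs q).card = 4 := by rw [g3.1]; exact h4
  have hqne : (gs q).Nonempty := by
    rw [← Finset.card_pos]
    omega
  have hgs : gs q ⊆ gs p := fun y hy => by
    have hy' := Finset.mem_sdiff.1 hy
    exact Finset.mem_sdiff.2 ⟨hq.2 hy'.1, fun h => hy'.2 (hq.1 h)⟩
  have hsd : (gs p \ gs q).card + (gs q).card = (gs p).card := Finset.card_sdiff_add_card_eq_card hgs
  have h3m : 3 ≤ (gs p \ gs q).card := by omega
  rcases ci_path hr hp hc h3 (by omega) hqq hq hqc hqne hqn h3m with h | h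
  · obtain ⟨x, hx, y, hy, hxy, t, h1, h2⟩ := h
    exact k_same S hV hu hp h3 (by omega) hxy hx hy (hD x hx t) (hD y hy t) h2 (hql.mono h1)
  · obtain ⟨a, ha, b, hb', c, hcc, hab, hac, hbc, t, h1, c1, c2⟩ := h
    have s1 : Sub q (QUB.rm t a (QUB.rm (!t) b p)) := by
      rw [QU.rm_comm (!t) t, QU.rm_comm t t] at h1
      exact (rm_sub t c (QUB.rm t a (QUB.rm (!t) b p))).trans h1
    have s2 : Sub q (QUB.rm t c (QUB.rm (!t) b p)) := by
      rw [QU.rm_comm (!t) t] at h1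
      exact (rm_sub t a (QUB.rm t c (QUB.rm (!t) b p))).trans h1
    by_cases hnt : NT S.r p t a b c
    · exact k_path S hV hu hp h3 (by omega) hab hac hbc ha hb' hcc (hD a ha t) (hD b hb' (!t)) (hD c hcc t) c1 (hql.mono s1) c2
        (hql.mono s2) hnt
    · obtain ⟨⟨q', k1, k2, k3⟩, k4⟩ := ci_swap hr hp hc h3 (by omega) hqq ha hb' hcc hab hac hbc h1 hnt
      have hnt' := nt_flip hr hp h3 (by omega) ha hb' hcc hab hac hbc hnt
      refine k_path S hV hu (s := !t) hp h3 (by omega) hab.symm hbc hac hb' ha hcc (hD b hb' (!t)) ?_ (hD c hcc (!t)) ?_ ?_ ?_ ?_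
        (nt_comm hnt').1
      · rw [Bool.not_not]
        exact hD a ha t
      · rw [Bool.not_not, QU.rm_comm (!t) t]
        exact c1
      · rw [Bool.not_not, QU.rm_comm (!t) t]
        exact hql.mono s1
      · rw [Bool.not_not]
        exact k4
      · rw [Bool.not_not]
        exact (same_ln hqq k2 k3 hql).mono k1

/-- six elements -/
private theorem k_six {p : Itv E} (ih : IH S T₁ T₂ p) (hp : p.1 ⊆ p.2) (hc : Cn S.r p) (h3 : Th3 S.r p)
    (hn : (gs p).card = 6) (hN : HasLn S.r p) (hR : ¬ HasRich S.r p) : Kd S T₁ T₂ p := by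
  have hr := S.rk
  have hD : ∀ x ∈ gs p, ∀ t, Kd S T₁ T₂ (QUB.rm t x p) := by
    intro x hx t
    have h1 := k_rm_card hx t
    exact ih (QUB.rm t x p) h1 (wf_rm hp hx) (th3_cn hr hp hc h3 (by omega) hx t) (ok_small (by omega))
      fun ⟨q', k1, k2⟩ => hR ⟨q', (rm_sub t x p).trans k1, k2⟩
  obtain ⟨q₀, h1, h2, h4, h5, h6⟩ := line_box hr hN
  have hgs : gs q₀ ⊆ gs p := fun y hy => by
    have hy' := Finset.mem_sdiff.1 hy
    exact Finset.mem_sdiff.2 ⟨h1.2 hy'.1, fun h => hy'.2 (h1.1 h)⟩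
  have hsd : (gs p \ gs q₀).card + (gs q₀).card = (gs p).card := Finset.card_sdiff_add_card_eq_card hgs
  obtain ⟨x, hx, y, hy, hxy, t, s, rfl⟩ := ci_pair hp h2 h1 (by omega)
  have dx := hD x hx t
  have dy := hD y hy s
  cases t <;> cases s
  · exact k_same S hV hu hp h3 (by omega) hxy hx hy dx dy h5 h6
  · refine k_pair S hV hu hp hxy hx hy dx dy h5 h6 ?_
    have h7 := six_nd hr hp hc h3 hn hR hy hx hxy.symm (by rw [QU.rm_comm true false]; exact h6)
    exact h7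
  · exact k_pair S hV hu hp hxy hx hy dx dy h5 h6 (six_nd hr hp hc h3 hn hR hx hy hxy h6)
  · exact k_same S hV hu hp h3 (by omega) hxy hx hy dx dy h5 h6

omit hu in
/-- no four point line: every combination is diagonal -/
theorem kd_bin {p : Itv E} (hp : p.1 ⊆ p.2) (hN : ¬ HasLn S.r p) (a b : K) : EqD S.U S.W p (a • T₁ + b • T₂) 0 :=
  bin_diag S hp (not_exists.1 hN) (hV p a b)

private theorem k_step (h4 : ∀ q : Itv E, q.1 ⊆ q.2 → (gs q).card = 4 → HasLn S.r q → Kd S T₁ T₂ q) {p : Itv E} (ih : IH S T₁ T₂ p)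
    (hp : p.1 ⊆ p.2) (hc : Cn S.r p) (ho : Ok S.r p) (hR : ¬ HasRich S.r p) : Kd S T₁ T₂ p := by
  have hr := S.rk
  by_cases hN : HasLn S.r p
  swap
  · exact ⟨1, 0, Or.inl one_ne_zero, kd_bin S hV hp hN 1 0⟩
  by_cases h3 : Th3 S.r p
  swap
  · obtain ⟨A, hA, hA2, hB2, hl, hlight⟩ := k_sep S hp hc ho h3
    obtain ⟨X, b, hX⟩ := half_exists hr hp hA hl
    obtain ⟨s1, s2, s3, s4⟩ := half_sub hp hA hX
    have hs : Sub (hb p A X b) p := ⟨s1, s2⟩
    obtain ⟨x, y, h1, h2⟩ := ih (hb p A X b) (by rw [s4]; exact k_half_card hA hB2) s3 (half_cn hr hp hA hl hX hc)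
      (half_ok hr hp hA hl hX ho) fun ⟨q, k1, k2⟩ => hR ⟨q, hs.trans k1, k2⟩
    exact ⟨x, y, h1, k_two S hp hA hl hlight (hV p x y) InV.zero hX h2⟩
  have hbig := k_big hN
  by_cases h4' : (gs p).card = 4
  · exact h4 p hp h4' hN
  by_cases h5 : (gs p).card = 5
  · exact absurd ⟨p, Sub.rfl, th3_five hr hp hc h3 h5⟩ hR
  by_cases h6 : (gs p).card = 6
  · exact k_six S hV hu ih hp hc h3 h6 hN hR
  by_cases hW : ∃ w ∈ gs p, ∃ s X, Nbs S.r p w s X
  · exact k_nb S hV hu ih hp hc ho h3 hR hW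
  · refine k_ci S hV hu ih hp hc h3 (by omega) hN hR ?_
    intro w hw s A hA hl hh
    have gw : gs (QUB.rm s w p) = (gs p).erase w := QUB.gs_rm s w p
    have hA' : A ⊆ (gs p).erase w := by rw [← gw]; exact hA
    exact hW ⟨w, hw, s, A, hA', hl, hh.1, by rw [← gw]; exact hh.2⟩

/-- **(K')** some combination of the two forms is diagonal on a connected box which is `Ok` and has no rich minor -/
theorem kp (h4 : ∀ q : Itv E, q.1 ⊆ q.2 → (gs q).card = 4 → HasLn S.r q → Kd S T₁ T₂ q) (p : Itv E)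
    (hp : p.1 ⊆ p.2) (hc : Cn S.r p) (ho : Ok S.r p) (hR : ¬ HasRich S.r p) : Kd S T₁ T₂ p := by
  induction hn : (gs p).card using Nat.strong_induction_on generalizing p with
  | _ n ih =>
    subst hn
    exact k_step S hV hu h4 (fun q hq h1 h2 h3 h4 => ih _ hq q h1 h2 h3 h4 rfl) hp hc ho hR

end

end Pool.Agent.QW
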