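import Pool.Agent.QUW.Kp
import Pool.Agent.QUR.Cnt

/-!
# QUW/Nrx: a triangle element whose deletion has no rich minor

`tri_form`: `{x, a, b}` a triangle, `T` in `V(p)` and diagonal on `p \ x`: `T` is a diagonal form plus a multiple of `c a * d x`.
`nrx_mat`: `p` rich, `p \ x` connected, `Ok`, not rich: no set of elements outside of `x` has `x` in its closure and `a` not.
-/

set_option autoImplicit false

open QUB

namespace Pool.Agent.QW

open Pool.Agent.QU

variable {E : Type} [Fintype E] [DecidableEq E] {K : Type} [Field K]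

/-- the form `c a * d x` -/
def cd (a x : E) : Fm K E := LinearMap.mk₂ K (fun c d => c a * d x)
  (fun c c' d => by rw [Pi.add_apply]; ring) (fun k c d => by rw [Pi.smul_apply, smul_eq_mul, smul_eq_mul]; ring)
  (fun c d d' => by rw [Pi.add_apply]; ring) (fun k c d => by rw [Pi.smul_apply, smul_eq_mul, smul_eq_mul]; ring)

omit [DecidableEq E] [Fintype E] in
theorem cd_apply (a x : E) (c d : E → K) : (cd a x : Fm K E) c d = c a * d x := rfl

/-- a form which is diagonal on the deletion of an element of a triangle -/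
theorem tri_form (S : TU K E) {p : Itv E} (hp : p.1 ⊆ p.2) {x a b : E} (hx : x ∈ gs p) (ha : a ∈ gs p) (hb : b ∈ gs p)
    (hxa : x ≠ a) (hxb : x ≠ b) (hL : Tri3 S.r p x a b) {T : Fm K E} (hT : InV S.U S.W p T)
    (h : EqD S.U S.W (rm true x p) T 0) : ∃ (μ : K) (l : E → K), EqOn S.U S.W p T (dg l + μ • cd a x) := by
  have hx1 := Finset.mem_sdiff.1 hx
  have ha1 := Finset.mem_sdiff.1 ha
  have hb1 := Finset.mem_sdiff.1 hb
  obtain ⟨l, hl⟩ := h
  rw [zero_add] at hl
  have hne : x ∉ insert a (insert b p.1) := by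
    simp only [Finset.mem_insert, not_or]
    exact ⟨hxa, hxb, hx1.2⟩
  obtain ⟨t, ht, htx⟩ := S.spt_one (G := insert x (insert a (insert b p.1))) (Finset.mem_insert_self _ _) (by
    rw [Finset.erase_insert hne]
    exact hL.1.1.symm)
  have ht2 : t ∈ spt S.W p.2 := spt_mono (Finset.insert_subset hx1.1 (Finset.insert_subset ha1.1
    (Finset.insert_subset hb1.1 hp))) ht
  have hT' : InV S.U S.W p (T - dg l) := hT.sub (dg_inV p l)
  have key : ∀ c ∈ van S.U p.1, c x = 0 → c a = 0 → (T - dg l) c t = 0 := by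
    intro c hc h1 h2
    refine hT' c hc t ht2 fun y => ?_
    have h3 : c b = 0 := by
      refine S.van_eq_zero (C := insert x (insert a p.1)) hL.1.2 c ⟨hc.1, fun y hy => ?_⟩
      rcases Finset.mem_insert.1 hy with rfl | hy
      · exact h1
      rcases Finset.mem_insert.1 hy with rfl | hy
      · exact h2
      · exact hc.2 y hy
    by_cases hy : y ∈ insert x (insert a (insert b p.1))
    · rcases Finset.mem_insert.1 hy with rfl | hy
      · rw [h1, zero_mul]
      rcases Finset.mem_insert.1 hy with rfl | hy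
      · rw [h2, zero_mul]
      rcases Finset.mem_insert.1 hy with rfl | hy
      · rw [h3, zero_mul]
      · rw [hc.2 y hy, zero_mul]
    · rw [ht.2 y hy, mul_zero]
  obtain ⟨k, k', hk⟩ := lin_two (van S.U p.1) ((T - dg l).flip t) x a fun c hc h1 h2 => by
    rw [LinearMap.flip_apply]
    exact key c hc h1 h2
  refine ⟨k', l + Pi.single x k, fun c hc d hd => ?_⟩
  have e1 : (T - dg l) c (d - d x • t) = 0 := by
    have h5 : d - d x • t ∈ spt S.W (rm true x p).2 := by
      have h6 := (spt S.W p.2).sub_mem hd ((spt S.W p.2).smul_mem (d x) ht2)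
      refine ⟨h6.1, fun y hy => ?_⟩
      by_cases hyx : y = x
      · rw [hyx, Pi.sub_apply, Pi.smul_apply, smul_eq_mul, htx, mul_one, sub_self]
      · exact h6.2 y fun h7 => hy (Finset.mem_erase.2 ⟨hyx, h7⟩)
    rw [LinearMap.sub_apply, LinearMap.sub_apply, sub_eq_zero]
    exact hl c hc _ h5
  have e2 := hk c hc
  rw [LinearMap.flip_apply] at e2
  rw [map_sub, map_smul, e2, smul_eq_mul, sub_eq_zero, LinearMap.sub_apply, LinearMap.sub_apply] at e1
  rw [LinearMap.add_apply, LinearMap.add_apply, LinearMap.smul_apply, LinearMap.smul_apply, smul_eq_mul, cd_apply, dg_add,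
    LinearMap.add_apply, LinearMap.add_apply, dg_single]
  linear_combination e1

/-- disjoint vectors from a closure relation -/
theorem tu_pair (S : TU K E) {p : Itv E} {f a : E} {A : Finset E} (hf : f ∈ gs p) (hfA : f ∉ A)
    (h1 : S.r (insert f (p.1 ∪ A)) = S.r (p.1 ∪ A)) (h2 : S.r (insert a (p.1 ∪ A)) = S.r (p.1 ∪ A) + 1) :
    ∃ c ∈ van S.U p.1, ∃ d ∈ spt S.W (insert f (p.1 ∪ A)), (∀ x, c x * d x = 0) ∧ c a = 1 ∧ d f = 1 := by
  obtain ⟨c, hc, hca⟩ := S.van_one h2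
  have hf1 := Finset.mem_sdiff.1 hf
  have hfn : f ∉ p.1 ∪ A := by
    rw [Finset.mem_union, not_or]
    exact ⟨hf1.2, hfA⟩
  obtain ⟨d, hd, hdf⟩ := S.spt_one (G := insert f (p.1 ∪ A)) (Finset.mem_insert_self _ _) (by rw [Finset.erase_insert hfn, h1])
  have hcf : c f = 0 := S.van_eq_zero h1 c hc
  refine ⟨c, van_anti Finset.subset_union_left hc, d, hd, fun x => ?_, hca, hdf⟩
  by_cases hx : x ∈ insert f (p.1 ∪ A)
  · rcases Finset.mem_insert.1 hx with rfl | hx
    · rw [hcf, zero_mul]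
    · rw [hc.2 x hx, zero_mul]
  · rw [hd.2 x hx, mul_zero]

/-- **NRX**, matroid part -/
theorem nrx_mat (S : TU K E) {T₁ T₂ : Fm K E} (hV : ∀ (q : Itv E) (a b : K), InV S.U S.W q (a • T₁ + b • T₂)) (hu : Kl S T₁ T₂)
    (h4 : ∀ q : Itv E, q.1 ⊆ q.2 → (gs q).card = 4 → HasLn S.r q → Kd S T₁ T₂ q)
    (h5 : ∀ (q : Itv E) (a b : K), Rich S.r q → EqD S.U S.W q (a • T₁ + b • T₂) 0 → a = 0 ∧ b = 0)
    {p : Itv E} (hp : p.1 ⊆ p.2) (hR : HasRich S.r p) {x a b : E} (hx : x ∈ gs p) (ha : a ∈ gs p) (hb : b ∈ gs p)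
    (hxa : x ≠ a) (hxb : x ≠ b) (hL : Tri3 S.r p x a b) (hc : Cn S.r (rm true x p)) (ho : Ok S.r (rm true x p))
    (hnR : ¬ HasRich S.r (rm true x p)) (D : Finset E) : ¬ Vd S.r p x a D := by
  rintro ⟨hD, hxD, e1, e2⟩
  obtain ⟨k, k', hk, hd⟩ := kp S hV hu h4 (rm true x p) (wf_rm hp hx) hc ho hnR
  obtain ⟨μ, l, hl⟩ := tri_form S hp hx ha hb hxa hxb hL (hV p k k') hd
  have hμ : μ ≠ 0 := by
    rintro rfl
    obtain ⟨q, hq, hqR⟩ := hR
    have h6 : EqD S.U S.W q (k • T₁ + k' • T₂) 0 := by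
      refine ⟨l, ?_⟩
      rw [zero_add]
      rw [zero_smul, add_zero] at hl
      exact hl.mono hq
    obtain ⟨h7, h8⟩ := h5 q k k' hqR h6
    rcases hk with hk | hk
    · exact hk h7
    · exact hk h8
  obtain ⟨c, hc', d, hd', hcd, hca, hdx⟩ := tu_pair S hx hxD e1 e2
  have hx1 := Finset.mem_sdiff.1 hx
  have hsub : insert x (p.1 ∪ D) ⊆ p.2 :=
    Finset.insert_subset hx1.1 (Finset.union_subset hp fun y hy => (Finset.mem_sdiff.1 (hD hy)).1)
  have e3 := hl c hc' d (spt_mono hsub hd')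
  rw [hV p k k' c hc' d (spt_mono hsub hd') hcd, LinearMap.add_apply, LinearMap.add_apply, LinearMap.smul_apply, LinearMap.smul_apply,
    smul_eq_mul, cd_apply, hca, hdx, dg_apply, Finset.sum_eq_zero fun y _ => by rw [hcd y, mul_zero], zero_add, mul_one, mul_one] at e3
  exact hμ e3.symm

/-- the deletion is not binary -/
theorem nrx_ln (S : TU K E) {T₁ T₂ : Fm K E} (hV : ∀ (q : Itv E) (a b : K), InV S.U S.W q (a • T₁ + b • T₂))
    (h5 : ∀ (q : Itv E) (a b : K), Rich S.r q → EqD S.U S.W q (a • T₁ + b • T₂) 0 → a = 0 ∧ b = 0)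
    {p : Itv E} (hp : p.1 ⊆ p.2) (hR : HasRich S.r p) {x a b : E} (hx : x ∈ gs p) (ha : a ∈ gs p) (hb : b ∈ gs p)
    (hxa : x ≠ a) (hxb : x ≠ b) (hL : Tri3 S.r p x a b) : HasLn S.r (rm true x p) := by
  by_contra hN
  have hd1 := kd_bin S hV (wf_rm hp hx) hN 1 0
  have hd2 := kd_bin S hV (wf_rm hp hx) hN 0 1
  obtain ⟨μ, l, hl⟩ := tri_form S hp hx ha hb hxa hxb hL (hV p 1 0) hd1
  obtain ⟨μ', l', hl'⟩ := tri_form S hp hx ha hb hxa hxb hL (hV p 0 1) hd2
  obtain ⟨q, hq, hqR⟩ := hR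
  have h0 : ∀ (m m' : K), m * μ + m' * μ' = 0 → m = 0 ∧ m' = 0 := by
    intro m m' hm
    refine h5 q m m' hqR ⟨m • l + m' • l', fun c hc d hd => ?_⟩
    have e1 := (hl.mono hq) c hc d hd
    have e2 := (hl'.mono hq) c hc d hd
    simp only [LinearMap.add_apply, LinearMap.smul_apply, smul_eq_mul, one_mul, zero_mul, add_zero, zero_add, cd_apply, dg_add, dg_smul] at e1 e2 ⊢
    linear_combination m * e1 + m' * e2 + c a * d x * hm
  by_cases hμ : μ = 0
  · have h6 := h0 1 0 (by rw [hμ]; ring)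
    exact one_ne_zero h6.1
  · have h6 := h0 μ' (-μ) (by ring)
    exact hμ (neg_eq_zero.1 h6.2)

/-- parallel elements: the form `c a * d x` is diagonal -/
theorem cd_par (S : TU K E) {p : Itv E} {a x : E} (h : ∀ c ∈ van S.U p.1, c x = 0 → c a = 0) :
    ∃ κ : K, ∀ c ∈ van S.U p.1, c a = κ * c x := by
  by_cases h0 : ∃ c0 ∈ van S.U p.1, c0 x ≠ 0
  · obtain ⟨c0, hc0, hne⟩ := h0
    refine ⟨c0 a / c0 x, fun c hc => ?_⟩
    have h1 := h (c - (c x / c0 x) • c0) ((van S.U p.1).sub_mem hc ((van S.U p.1).smul_mem _ hc0)) (by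
      rw [Pi.sub_apply, Pi.smul_apply, smul_eq_mul, div_mul_cancel₀ _ hne, sub_self])
    rw [Pi.sub_apply, Pi.smul_apply, smul_eq_mul, sub_eq_zero] at h1
    rw [h1]
    field_simp
  · push Not at h0
    exact ⟨0, fun c hc => by rw [h c hc (h0 c hc), zero_mul]⟩

/-- the second element is not parallel to the first -/
theorem nrx_par (S : TU K E) {T₁ T₂ : Fm K E} (hV : ∀ (q : Itv E) (a b : K), InV S.U S.W q (a • T₁ + b • T₂)) (hu : Kl S T₁ T₂)
    (h4 : ∀ q : Itv E, q.1 ⊆ q.2 → (gs q).card = 4 → HasLn S.r q → Kd S T₁ T₂ q)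
    (h5 : ∀ (q : Itv E) (a b : K), Rich S.r q → EqD S.U S.W q (a • T₁ + b • T₂) 0 → a = 0 ∧ b = 0)
    {p : Itv E} (hp : p.1 ⊆ p.2) (hR : HasRich S.r p) {x a b : E} (hx : x ∈ gs p) (ha : a ∈ gs p) (hb : b ∈ gs p)
    (hxa : x ≠ a) (hxb : x ≠ b) (hL : Tri3 S.r p x a b) (hc : Cn S.r (rm true x p)) (ho : Ok S.r (rm true x p))
    (hnR : ¬ HasRich S.r (rm true x p)) : S.r (insert a (insert x p.1)) = S.r (insert x p.1) + 1 := by
  by_contra hne
  have h1 : S.r (insert a (insert x p.1)) = S.r (insert x p.1) := by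
    have h2 := S.rk.mono (insert x p.1) (insert a (insert x p.1)) (Finset.subset_insert _ _)
    have h3 := S.rk.unit (insert x p.1) a
    omega
  obtain ⟨k, k', hk, hd⟩ := kp S hV hu h4 (rm true x p) (wf_rm hp hx) hc ho hnR
  obtain ⟨μ, l, hl⟩ := tri_form S hp hx ha hb hxa hxb hL (hV p k k') hd
  obtain ⟨κ, hκ⟩ := cd_par S (p := p) (a := a) (x := x) fun c hc h0 =>
    S.van_eq_zero h1 c ⟨hc.1, fun y hy => by
      rcases Finset.mem_insert.1 hy with rfl | hy
      · exact h0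
      · exact hc.2 y hy⟩
  obtain ⟨q, hq, hqR⟩ := hR
  have h6 : EqD S.U S.W q (k • T₁ + k' • T₂) 0 := by
    refine ⟨l + Pi.single x (μ * κ), fun c hc d hd => ?_⟩
    have e1 := (hl.mono hq) c hc d hd
    have e2 := hκ c (van_anti hq.1 hc)
    rw [e1, zero_add, dg_add, LinearMap.add_apply, LinearMap.add_apply, LinearMap.add_apply, LinearMap.add_apply, LinearMap.smul_apply,
      LinearMap.smul_apply, smul_eq_mul, cd_apply, dg_single, e2]
    ring
  obtain ⟨h7, h8⟩ := h5 q k k' hqR h6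
  rcases hk with hk | hk
  · exact hk h7
  · exact hk h8

section

/-- the form `c a * d x` on a twisted pair -/
theorem cd_main (S : TP K E) {p : Itv E} (hp : p.1 ⊆ p.2) {x a b : E} (hx : x ∈ gs p) (ha : a ∈ gs p) (hb : b ∈ gs p)
    (hxa : x ≠ a) (hxb : x ≠ b) (hL : Tri3 S.r p x a b) (hpar : S.r (insert a (insert x p.1)) = S.r (insert x p.1) + 1)
    (hc : Cn S.r (rm true x p)) (hN : HasLn S.r (rm true x p)) (h : ∀ D, ¬ Vd S.r p x a D) :
    ∃ T : Fm K E, InV S.U S.W p T ∧ ¬ EqD S.U S.W p T 0 := by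
  have hx1 := Finset.mem_sdiff.1 hx
  have ha1 := Finset.mem_sdiff.1 ha
  refine ⟨cd a x, ?_, ?_⟩
  · intro c hc' d hd hcd
    by_contra hne
    rw [cd_apply] at hne
    obtain ⟨D, hD, -⟩ := small_pair S hp hx ha hc' hd hcd (left_ne_zero_of_mul hne) (right_ne_zero_of_mul hne)
    exact h D hD
  · rintro ⟨l, hl⟩
    rw [zero_add] at hl
    have h1 : EqOn S.U S.W (rm true x p) (dg l) 0 := by
      intro c hc' d hd
      have e1 := (hl.mono (rm_sub true x p)) c hc' d hd
      rw [← e1, cd_apply, hd.2 x (Finset.notMem_erase x p.2), mul_zero]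
      rfl
    have h2 := hom_cn S (wf_rm hp hx) hc hN h1
    obtain ⟨c, hc', hca⟩ := S.van_one hpar
    have hcx : c x = 0 := hc'.2 x (Finset.mem_insert_self x p.1)
    have hc1 : c ∈ van S.U p.1 := van_anti (Finset.subset_insert x p.1) hc'
    obtain ⟨d, hd, hdx⟩ : ∃ d ∈ spt S.W p.2, d x = 1 := by
      have hne : x ∉ insert a (insert b p.1) := by
        simp only [Finset.mem_insert, not_or]
        exact ⟨hxa, hxb, hx1.2⟩
      have hb1 := Finset.mem_sdiff.1 hb
      obtain ⟨t, ht, htx⟩ := S.spt_one (G := insert x (insert a (insert b p.1))) (Finset.mem_insert_self _ _) (by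
        rw [Finset.erase_insert hne]
        exact hL.1.1.symm)
      exact ⟨t, spt_mono (Finset.insert_subset hx1.1 (Finset.insert_subset ha1.1 (Finset.insert_subset hb1.1 hp))) ht, htx⟩
    have e2 := hl c hc1 d hd
    rw [cd_apply, hca, hdx, one_mul, dg_apply] at e2
    refine one_ne_zero (e2.trans ?_)
    refine Finset.sum_eq_zero fun y _ => ?_
    by_cases hy : y = x
    · rw [hy, hcx, zero_mul, mul_zero]
    by_cases hy1 : y ∈ p.1
    · rw [hc1.2 y hy1, zero_mul, mul_zero]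
    by_cases hy2 : y ∈ p.2
    · have h3 : y ∈ gs (rm true x p) := by
        have e3 : gs (rm true x p) = (gs p).erase x := QUB.gs_rm true x p
        rw [e3]
        exact Finset.mem_erase.2 ⟨hy, Finset.mem_sdiff.2 ⟨hy2, hy1⟩⟩
      rw [h2 y h3, zero_mul]
    · rw [hd.2 y hy2, mul_zero, mul_zero]

end

end Pool.Agent.QW
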