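import Pool.Agent.QUW.Def
import Pool.Agent.QUY.Defs

/-!
# QUW/Phi: the untwisted pair of a space of vectors and the form of a derivation

`tu Φ`: the space `Φ`, its orthogonal space `orth Φ` and the rank function.
`form`: a derivation `dl` gives the bilinear form `T c d = ∑ dl (c x) * d x` on the pairs `c ∈ Φ`, `d ∈ orth Φ`; `form_inV`: it vanishes on the
pairs with disjoint supports.
-/

set_option autoImplicit false

noncomputable section

open scoped Classical

namespace Pool.Agent.QW

open Pool.Agent.FRM Pool.Agent.QUS Pool.Agent.QUE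
open Pool.Agent.QU (Fm van spt dg EqOn EqD InV Itv)

section

variable {K : Type} [Field K] {E : Type} [Fintype E] {Φ : Submodule K (E → K)} {S : Finset E} {e : E}

/-- the orthogonal space -/
def orth (Φ : Submodule K (E → K)) : Submodule K (E → K) where
  carrier := {d | ∀ c ∈ Φ, ∑ x, c x * d x = 0}
  add_mem' := by
    intro d d' h h' c hc
    have h1 := congrArg₂ (· + ·) (h c hc) (h' c hc)
    simpa [Finset.sum_add_distrib, mul_add] using h1
  zero_mem' := fun c _ => by simp
  smul_mem' := by
    intro a d h c hc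
    have h1 : ∑ x, c x * (a • d) x = a * ∑ x, c x * d x := by
      rw [Finset.mul_sum]
      exact Finset.sum_congr rfl fun x _ => by rw [Pi.smul_apply, smul_eq_mul]; ring
    rw [h1, h c hc, mul_zero]

/-- the fundamental circuit of `e` -/
def fo (Φ : Submodule K (E → K)) (S : Finset E) (e : E) : E → K :=
  fun x => if x = e then 1 else if x ∈ S then - fv Φ S x e else 0

omit [Fintype E] in
theorem fo_self : fo Φ S e e = 1 := if_pos rfl

omit [Fintype E] in
theorem fo_out {x : E} (hx : x ∉ S) (h : x ≠ e) : fo Φ S e x = 0 := by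
  rw [fo, if_neg h, if_neg hx]

omit [Fintype E] in
theorem fo_in {x : E} (he : e ∉ S) (hx : x ∈ S) : fo Φ S e x = - fv Φ S x e := by
  have h : x ≠ e := by
    rintro rfl
    exact he hx
  rw [fo, if_neg h, if_pos hx]

theorem fo_mem (hS : IsB Φ S) (he : e ∉ S) : fo Φ S e ∈ orth Φ := by
  intro v hv
  have h1 : v e = ∑ s ∈ S, v s * fv Φ S s e := by
    have h := congrFun (expand hS hv) e
    rw [Finset.sum_apply] at h
    exact h
  have h2 : ∑ x, v x * fo Φ S e x = ∑ x ∈ insert e S, v x * fo Φ S e x := by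
    symm
    refine Finset.sum_subset (Finset.subset_univ _) fun x _ hx => ?_
    rw [Finset.mem_insert, not_or] at hx
    rw [fo_out hx.2 hx.1, mul_zero]
  rw [h2, Finset.sum_insert he, fo_self, mul_one]
  have h3 : ∑ x ∈ S, v x * fo Φ S e x = - v e := by
    rw [h1, ← Finset.sum_neg_distrib]
    refine Finset.sum_congr rfl fun x hx => ?_
    rw [fo_in he hx]
    ring
  rw [h3]
  ring

theorem orth_ext (hS : IsB Φ S) {d d' : E → K} (hd : d ∈ orth Φ) (hd' : d' ∈ orth Φ) (h : ∀ e, e ∉ S → d e = d' e) : d = d' := by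
  have h0 : d - d' ∈ orth Φ := (orth Φ).sub_mem hd hd'
  funext x
  by_cases hx : x ∈ S
  · have h1 := h0 (fv Φ S x) (fv_mem hS hx)
    rw [Finset.sum_eq_single x] at h1
    · rw [fv_self hS hx, one_mul, Pi.sub_apply] at h1
      exact sub_eq_zero.1 h1
    · intro y _ hy
      by_cases hyS : y ∈ S
      · rw [fv_oth hS hx hyS hy, zero_mul]
      · rw [Pi.sub_apply, h y hyS, sub_self, mul_zero]
    · intro hx'
      exact absurd (Finset.mem_univ x) hx'
  · exact h x hx

theorem finrank_spt' (Φ : Submodule K (E → K)) (G : Finset E) :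
    (Module.finrank K (spt (orth Φ) G) : ℤ) = G.card - rk Φ G := by
  obtain ⟨S, hS, hA⟩ := isB_adapt Φ G
  rw [rk_eq hS hA]
  let φ : spt (orth Φ) G →ₗ[K] ({x // x ∈ G \ S} → K) :=
    { toFun := fun d x => d.1 x.1
      map_add' := fun d d' => rfl
      map_smul' := fun a d => rfl }
  have hinj : Function.Injective φ := by
    rw [injective_iff_map_eq_zero]
    intro d hd
    apply Subtype.ext
    refine orth_ext hS d.2.1 (orth Φ).zero_mem fun x hx => ?_
    by_cases hxG : x ∈ G
    · exact congrFun hd ⟨x, Finset.mem_sdiff.2 ⟨hxG, hx⟩⟩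
    · exact d.2.2 x hxG
  have hsurj : Function.Surjective φ := by
    intro c
    have hmem : (∑ y : {x // x ∈ G \ S}, c y • fo Φ S y.1) ∈ spt (orth Φ) G := by
      refine Submodule.sum_mem _ fun y _ => Submodule.smul_mem _ _ ?_
      obtain ⟨hyG, hyS⟩ := Finset.mem_sdiff.1 y.2
      refine ⟨fo_mem hS hyS, fun x hx => ?_⟩
      have hxy : x ≠ y.1 := by
        rintro rfl
        exact hx hyG
      by_cases hxS : x ∈ S
      · rw [fo_in hyS hxS, hA x hxS hx y.1 hyG, neg_zero]
      · exact fo_out hxS hxy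
    refine ⟨⟨_, hmem⟩, ?_⟩
    funext x
    show (∑ y : {x // x ∈ G \ S}, c y • fo Φ S y.1) x.1 = c x
    rw [Finset.sum_apply, Finset.sum_eq_single x]
    · rw [Pi.smul_apply, fo_self, smul_eq_mul, mul_one]
    · intro y _ hy
      have hxy : x.1 ≠ y.1 := fun h => hy (Subtype.ext h.symm)
      rw [Pi.smul_apply, fo_out (Finset.mem_sdiff.1 x.2).2 hxy, smul_zero]
    · intro hx'
      exact absurd (Finset.mem_univ x) hx'
  have h1 := (LinearEquiv.ofBijective φ ⟨hinj, hsurj⟩).finrank_eq
  rw [Module.finrank_fintype_fun_eq_card, Fintype.card_coe] at h1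
  rw [h1]
  have h2 := Finset.card_sdiff_add_card_inter G S
  rw [Finset.inter_comm] at h2
  omega

/-- the untwisted pair of `Φ` -/
def tu (Φ : Submodule K (E → K)) : TU K E where
  U := Φ
  W := orth Φ
  r := rk Φ
  hU C := by
    have h : Module.finrank K (van Φ (Finset.univ : Finset E)) = 0 := by
      have h1 : van Φ (Finset.univ : Finset E) = ⊥ := by
        rw [eq_bot_iff]
        intro v hv
        rw [Submodule.mem_bot]
        funext e
        exact hv.2 e (Finset.mem_univ e)
      rw [h1, finrank_bot]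
    rw [rk, rk, h]
    push_cast
    ring
  hW G := finrank_spt' Φ G
  ort := fun c hc d hd => hd c hc

@[simp] theorem tu_U : (tu Φ).U = Φ := rfl

@[simp] theorem tu_W : (tu Φ).W = orth Φ := rfl

@[simp] theorem tu_r : (tu Φ).r = rk Φ := rfl

end

section

variable {E : Type} [Fintype E]

/-- the form of a derivation -/
theorem form (Φ : Submodule KU (E → KU)) (dl : Derivation ℚ KU KU) :
    ∃ T : Fm KU E, ∀ c ∈ Φ, ∀ d ∈ (tu Φ).W, T c d = ∑ x, dl (c x) * d x := by
  let φ : Φ →ₗ[KU] (orth Φ) →ₗ[KU] KU :=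
    LinearMap.mk₂ KU (fun c d => ∑ x, dl (c.1 x) * d.1 x)
      (fun c c' d => by
        rw [← Finset.sum_add_distrib]
        refine Finset.sum_congr rfl fun x _ => ?_
        rw [Submodule.coe_add, Pi.add_apply, map_add]
        ring)
      (fun k c d => by
        have h := d.2 c.1 c.2
        have h1 : ∀ x, dl ((k • c).1 x) * d.1 x = k * (dl (c.1 x) * d.1 x) + dl k * (c.1 x * d.1 x) := by
          intro x
          rw [Submodule.coe_smul, Pi.smul_apply, smul_eq_mul, Derivation.leibniz, smul_eq_mul, smul_eq_mul]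
          ring
        rw [smul_eq_mul, Finset.mul_sum, Finset.sum_congr rfl fun x _ => h1 x, Finset.sum_add_distrib, ← Finset.mul_sum (a := dl k), h,
          mul_zero, add_zero])
      (fun c d d' => by
        rw [← Finset.sum_add_distrib]
        refine Finset.sum_congr rfl fun x _ => ?_
        rw [Submodule.coe_add, Pi.add_apply]
        ring)
      (fun k c d => by
        rw [smul_eq_mul, Finset.mul_sum]
        refine Finset.sum_congr rfl fun x _ => ?_
        rw [Submodule.coe_smul, Pi.smul_apply, smul_eq_mul]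
        ring)
  obtain ⟨P, hP⟩ := LinearMap.exists_leftInverse_of_injective Φ.subtype Φ.ker_subtype
  obtain ⟨Q, hQ⟩ := LinearMap.exists_leftInverse_of_injective (orth Φ).subtype (orth Φ).ker_subtype
  refine ⟨φ.compl₁₂ P Q, fun c hc d hd => ?_⟩
  have h1 : P c = ⟨c, hc⟩ := LinearMap.congr_fun hP ⟨c, hc⟩
  have h2 : Q d = ⟨d, hd⟩ := LinearMap.congr_fun hQ ⟨d, hd⟩
  rw [LinearMap.compl₁₂_apply, h1, h2]
  rfl

/-- the form of a derivation vanishes on the pairs with disjoint supports -/
theorem form_inV {Φ : Submodule KU (E → KU)} {dl : Derivation ℚ KU KU} {T : Fm KU E}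
    (hT : ∀ c ∈ Φ, ∀ d ∈ (tu Φ).W, T c d = ∑ x, dl (c x) * d x) (q : Itv E) : InV (tu Φ).U (tu Φ).W q T := by
  intro c hc d hd hcd
  rw [hT c hc.1 d hd.1]
  refine Finset.sum_eq_zero fun x _ => ?_
  rcases mul_eq_zero.1 (hcd x) with h | h
  · rw [h, map_zero, zero_mul]
  · rw [h, mul_zero]

end

end Pool.Agent.QW
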