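import Pool.Agent.QUT.Iso
import Pool.Agent.QUN.Nrm

/-!
# QUW/PinB: rich minors and torso boxes

`pin_tor_rich`: a rich minor with at most one element on the other side of a separation of order one gives a rich minor of the torso box.
`pin_rich`: it survives the removal of an element of the other side which keeps the order.
-/

set_option autoImplicit false

open QUB

namespace Pool.Agent.QU

variable {E : Type} [DecidableEq E] {r : Finset E → ℤ}

/-- dichotomy: a subset `P` of `X` is skew to `Y` or spans the connection of `X` and `Y` -/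
private theorem pn_dich (hr : Rk r) {C X Y P : Finset E} (hXY : ∀ z ∈ X, z ∉ Y) (hP : P ⊆ X)
    (hs : r (C ∪ X) + r (C ∪ Y) - r (C ∪ X ∪ Y) - r C ≤ 1) :
    (r (C ∪ P) + r (C ∪ Y) - r (C ∪ P ∪ Y) - r C = 0 ∧ ∀ Z ⊆ Y, r (C ∪ P ∪ Z) = r (C ∪ P) + r (C ∪ Z) - r C) ∨
    (r (C ∪ P) + r (C ∪ Y) - r (C ∪ P ∪ Y) - r C = 1 ∧ ∀ Z ⊆ Y, r (C ∪ P ∪ Z) = r (C ∪ X ∪ Z) - r (C ∪ X) + r (C ∪ P)) := by
  have sub1 : ∀ Z ⊆ Y, r (C ∪ P ∪ Z) + r C ≤ r (C ∪ P) + r (C ∪ Z) := by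
    intro Z hZ
    have h := hr.sub (C ∪ P) (C ∪ Z)
    have e1 : (C ∪ P) ∪ (C ∪ Z) = C ∪ P ∪ Z := by
      ext z; simp only [Finset.mem_union]; tauto
    have e2 : (C ∪ P) ∩ (C ∪ Z) = C := by
      ext z
      have h1 : z ∈ P → z ∈ X := fun hz => hP hz
      have h2 : z ∈ Z → z ∈ Y := fun hz => hZ hz
      have h3 : z ∈ X → z ∉ Y := fun hz => hXY z hz
      simp only [Finset.mem_union, Finset.mem_inter]; tauto
    rwa [e1, e2] at h
  have sub2 : ∀ Z ⊆ Y, r (C ∪ P ∪ Y) + r (C ∪ Z) ≤ r (C ∪ P ∪ Z) + r (C ∪ Y) := by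
    intro Z hZ
    have h := hr.sub (C ∪ P ∪ Z) (C ∪ Y)
    have e1 : (C ∪ P ∪ Z) ∪ (C ∪ Y) = C ∪ P ∪ Y := by
      ext z
      have h2 : z ∈ Z → z ∈ Y := fun hz => hZ hz
      simp only [Finset.mem_union]; tauto
    have e2 : (C ∪ P ∪ Z) ∩ (C ∪ Y) = C ∪ Z := by
      ext z
      have h1 : z ∈ P → z ∈ X := fun hz => hP hz
      have h2 : z ∈ Z → z ∈ Y := fun hz => hZ hz
      have h3 : z ∈ X → z ∉ Y := fun hz => hXY z hz
      simp only [Finset.mem_union, Finset.mem_inter]; tauto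
    rwa [e1, e2] at h
  have sub3 : ∀ Z ⊆ Y, r (C ∪ X ∪ Z) + r (C ∪ P) ≤ r (C ∪ P ∪ Z) + r (C ∪ X) := by
    intro Z hZ
    have h := hr.sub (C ∪ P ∪ Z) (C ∪ X)
    have e1 : (C ∪ P ∪ Z) ∪ (C ∪ X) = C ∪ X ∪ Z := by
      ext z
      have h1 : z ∈ P → z ∈ X := fun hz => hP hz
      simp only [Finset.mem_union]; tauto
    have e2 : (C ∪ P ∪ Z) ∩ (C ∪ X) = C ∪ P := by
      ext z
      have h1 : z ∈ P → z ∈ X := fun hz => hP hz
      have h2 : z ∈ Z → z ∈ Y := fun hz => hZ hz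
      have h3 : z ∈ X → z ∉ Y := fun hz => hXY z hz
      simp only [Finset.mem_union, Finset.mem_inter]; tauto
    rwa [e1, e2] at h
  have sub4 : ∀ Z ⊆ Y, r (C ∪ X ∪ Y) + r (C ∪ P ∪ Z) ≤ r (C ∪ X ∪ Z) + r (C ∪ P ∪ Y) := by
    intro Z hZ
    have h := hr.sub (C ∪ X ∪ Z) (C ∪ P ∪ Y)
    have e1 : (C ∪ X ∪ Z) ∪ (C ∪ P ∪ Y) = C ∪ X ∪ Y := by
      ext z
      have h1 : z ∈ P → z ∈ X := fun hz => hP hz
      have h2 : z ∈ Z → z ∈ Y := fun hz => hZ hz
      simp only [Finset.mem_union]; tauto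
    have e2 : (C ∪ X ∪ Z) ∩ (C ∪ P ∪ Y) = C ∪ P ∪ Z := by
      ext z
      have h1 : z ∈ P → z ∈ X := fun hz => hP hz
      have h2 : z ∈ Z → z ∈ Y := fun hz => hZ hz
      have h3 : z ∈ X → z ∉ Y := fun hz => hXY z hz
      simp only [Finset.mem_union, Finset.mem_inter]; tauto
    rwa [e1, e2] at h
  have hY1 := sub1 Y (Finset.Subset.refl _)
  have hY3 := sub3 Y (Finset.Subset.refl _)
  by_cases hd : r (C ∪ P) + r (C ∪ Y) - r (C ∪ P ∪ Y) - r C ≤ 0
  · left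
    refine ⟨by omega, fun Z hZ => ?_⟩
    have h1 := sub1 Z hZ
    have h2 := sub2 Z hZ
    omega
  · right
    refine ⟨by omega, fun Z hZ => ?_⟩
    have h3 := sub3 Z hZ
    have h4 := sub4 Z hZ
    omega

/-- set facts -/
private theorem pn_s1 {q R : Itv E} {B C K T : Finset E} (hB : ∀ x ∈ B, x ∉ q.1) (hC : ∀ x ∈ C, x ∉ B)
    (hK : K = R.1 ∩ B) (hT : T ⊆ B) (hT' : T ⊆ gs R) : gs ((q.1 ∪ C ∪ K, q.1 ∪ C ∪ K ∪ T) : Itv E) = T := by
  ext x
  have a2 := hC x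
  have a3 := hB x
  have a4 : x ∈ K ↔ x ∈ R.1 ∧ x ∈ B := by rw [hK, Finset.mem_inter]
  have a5 : x ∈ T → x ∉ R.1 := fun h => (Finset.mem_sdiff.1 (hT' h)).2
  have a6 := @hT x
  clear hB hC hT hT' hK
  rw [QUB.gs, Finset.mem_sdiff]
  simp only [Finset.mem_union]
  tauto

private theorem pn_s2 {q R : Itv E} {B C K T : Finset E} {a : E} (hB : ∀ x ∈ B, x ∉ q.1) (hC : ∀ x ∈ C, x ∉ B)
    (hK : K = R.1 ∩ B) (hT : T ⊆ B) (hT' : T ⊆ gs R) (ha : a ∉ B) :
    gs ((insert a (q.1 ∪ C ∪ K), insert a (q.1 ∪ C ∪ K) ∪ T) : Itv E) = T := by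
  ext x
  have a2 := hC x
  have a3 := hB x
  have a4 : x ∈ K ↔ x ∈ R.1 ∧ x ∈ B := by rw [hK, Finset.mem_inter]
  have a5 : x ∈ T → x ∉ R.1 := fun h => (Finset.mem_sdiff.1 (hT' h)).2
  have a6 := @hT x
  have a7 : x = a → x ∉ B := by
    rintro rfl
    exact ha
  clear hB hC hT hT' hK ha
  rw [QUB.gs, Finset.mem_sdiff]
  simp only [Finset.mem_union, Finset.mem_insert]
  tauto

private theorem pn_s3 {q R : Itv E} {B C K T : Finset E} {a : E} (hB : ∀ x ∈ B, x ∉ q.1) (hC : ∀ x ∈ C, x ∉ B)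
    (hK : K = R.1 ∩ B) (hT : T ⊆ B) (hT' : T ⊆ gs R) (ha : a ∉ B) (ha1 : a ∉ q.1) (haC : a ∉ C) :
    gs ((q.1 ∪ C ∪ K, insert a (q.1 ∪ C ∪ K ∪ T)) : Itv E) = insert a T := by
  ext x
  have a2 := hC x
  have a3 := hB x
  have a4 : x ∈ K ↔ x ∈ R.1 ∧ x ∈ B := by rw [hK, Finset.mem_inter]
  have a5 : x ∈ T → x ∉ R.1 := fun h => (Finset.mem_sdiff.1 (hT' h)).2
  have a6 := @hT x
  have a7 : x = a → x ∉ B ∧ x ∉ q.1 ∧ x ∉ C := by
    rintro rfl
    exact ⟨ha, ha1, haC⟩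
  clear hB hC hT hT' hK ha ha1 haC
  rw [QUB.gs, Finset.mem_sdiff]
  simp only [Finset.mem_union, Finset.mem_insert]
  tauto

private theorem pn_s4 {q : Itv E} {B C K T : Finset E} {a : E} (hK : K ⊆ B) (hT : T ⊆ B) :
    Sub ((q.1 ∪ C ∪ K, q.1 ∪ C ∪ K ∪ T) : Itv E) (tb q B C a) ∧
    Sub ((insert a (q.1 ∪ C ∪ K), insert a (q.1 ∪ C ∪ K) ∪ T) : Itv E) (tb q B C a) ∧
    Sub ((q.1 ∪ C ∪ K, insert a (q.1 ∪ C ∪ K ∪ T)) : Itv E) (tb q B C a) := by
  have h1 : (tb q B C a).1 = q.1 ∪ C := rfl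
  have h2 : (tb q B C a).2 = insert a (q.1 ∪ C ∪ B) := rfl
  refine ⟨⟨?_, ?_⟩, ⟨?_, ?_⟩, ⟨?_, ?_⟩⟩
  · rw [h1]
    exact Finset.subset_union_left
  · rw [h2]
    intro x hx
    simp only [Finset.mem_union, Finset.mem_insert] at hx ⊢
    have a1 := @hK x
    have a2 := @hT x
    tauto
  · rw [h1]
    exact Finset.subset_union_left.trans (Finset.subset_insert _ _)
  · rw [h2]
    intro x hx
    simp only [Finset.mem_union, Finset.mem_insert] at hx ⊢
    have a1 := @hK x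
    have a2 := @hT x
    tauto
  · rw [h1]
    exact Finset.subset_union_left
  · rw [h2]
    intro x hx
    simp only [Finset.mem_union, Finset.mem_insert] at hx ⊢
    have a1 := @hK x
    have a2 := @hT x
    tauto

/-- a rich minor with at most one element off `B` gives a rich minor of the torso box of `B` -/
theorem pin_tor_rich (hr : Rk r) {q : Itv E} {B C : Finset E} {a : E} (T : Tor r q B C a) (hl : QUB.lam r q B ≤ 1) {R : Itv E} (hs : Sub R q)
    (hR : Rich r R) (h1 : (gs R \ B).card ≤ 1) : HasRich r (tb q B C a) := by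
  have hq := T.hq
  set X := gs q \ B with hX
  set K := R.1 ∩ B with hK
  set P := R.1 ∩ X with hP
  have hR12 : ∀ x, x ∈ R.1 → x ∈ R.2 := fun x h => hR.1 h
  have hR2q : ∀ x, x ∈ R.2 → x ∈ q.2 := fun x h => hs.2 h
  have hqR : ∀ x, x ∈ q.1 → x ∈ R.1 := fun x h => hs.1 h
  have hBq : ∀ x, x ∈ B → x ∈ q.2 ∧ x ∉ q.1 := fun x h => T.Bq x h
  have mX : ∀ x, x ∈ X ↔ (x ∈ q.2 ∧ x ∉ q.1) ∧ x ∉ B := by
    intro x
    rw [hX, Finset.mem_sdiff, QUB.gs, Finset.mem_sdiff]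
  have hXB : ∀ z ∈ X, z ∉ B := fun z hz => ((mX z).1 hz).2
  have eR1 : q.1 ∪ P ∪ K = R.1 := by
    ext x
    have a1 := hR12 x
    have a2 := hR2q x
    have a3 := hqR x
    have a4 := mX x
    simp only [hP, hK, Finset.mem_union, Finset.mem_inter]
    tauto
  have eq2 : q.1 ∪ X ∪ B = q.2 := by
    ext x
    have a1 := @hq x
    have a2 := hBq x
    have a4 := mX x
    simp only [Finset.mem_union]
    tauto
  have eq2' : q.2 \ B = q.1 ∪ X := by
    ext x
    have a1 := @hq x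
    have a2 := hBq x
    have a4 := mX x
    simp only [Finset.mem_union, Finset.mem_sdiff]
    tauto
  have hs1 : r (q.1 ∪ X) + r (q.1 ∪ B) - r (q.1 ∪ X ∪ B) - r q.1 ≤ 1 := by
    have h2 : r (q.1 ∪ B) + r (q.2 \ B) - r q.2 - r q.1 ≤ 1 := hl
    rw [eq2'] at h2
    rw [eq2]
    omega
  have hK' : K ⊆ B := Finset.inter_subset_right
  have hPX : P ⊆ X := Finset.inter_subset_right
  have htb1 : (tb q B C a).1 = q.1 ∪ C := rfl
  have htb2 : (tb q B C a).2 = insert a (q.1 ∪ C ∪ B) := rfl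
  have hCB := T.CB
  have haB := T.aB
  have haq := T.aq
  have haC := T.haC
  have uKZ : ∀ (A Z : Finset E), A ∪ K ∪ Z = A ∪ (K ∪ Z) := fun A Z => Finset.union_assoc _ _ _
  by_cases h0 : gs R \ B = ∅
  · -- all elements in `B`
    have hRB : gs R ⊆ B := by
      rw [Finset.sdiff_eq_empty_iff_subset] at h0
      exact h0
    rcases pn_dich hr hXB hPX hs1 with ⟨c0, c1⟩ | ⟨c0, c1⟩
    · -- delete `a`
      refine ⟨(q.1 ∪ C ∪ K, q.1 ∪ C ∪ K ∪ gs R), (pn_s4 hK' hRB).1, ?_⟩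
      · refine same_rich (r := r) (q := R) Finset.subset_union_left ⟨?_, ?_⟩ hR
        · exact pn_s1 (fun x hx => (hBq x hx).2) (fun x hx => (hCB x hx).2.2) hK hRB (Finset.Subset.refl _)
        · intro Z hZ
          have hZB : Z ⊆ B := hZ.trans hRB
          have k1 := c1 (K ∪ Z) (Finset.union_subset hK' hZB)
          have k2 := c1 K hK'
          have k3 := T.skew hr (Finset.union_subset hK' hZB)
          have k4 := T.skew hr hK'
          show r (q.1 ∪ C ∪ K ∪ Z) - r (q.1 ∪ C ∪ K) = r (R.1 ∪ Z) - r R.1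
          rw [← eR1, uKZ, uKZ]
          omega
    · -- contract `a`
      refine ⟨(insert a (q.1 ∪ C ∪ K), insert a (q.1 ∪ C ∪ K) ∪ gs R), (pn_s4 hK' hRB).2.1, ?_⟩
      · refine same_rich (r := r) (q := R) Finset.subset_union_left ⟨?_, ?_⟩ hR
        · exact pn_s2 (fun x hx => (hBq x hx).2) (fun x hx => (hCB x hx).2.2) hK hRB (Finset.Subset.refl _) haB
        · intro Z hZ
          have hZB : Z ⊆ B := hZ.trans hRB
          have k1 := c1 (K ∪ Z) (Finset.union_subset hK' hZB)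
          have k2 := c1 K hK'
          have k3 := T.spn hr (Finset.union_subset hK' hZB)
          have k4 := T.spn hr hK'
          rw [← hX] at k3 k4
          show r (insert a (q.1 ∪ C ∪ K) ∪ Z) - r (insert a (q.1 ∪ C ∪ K)) = r (R.1 ∪ Z) - r R.1
          rw [← eR1, Finset.insert_union, uKZ, uKZ]
          omega
  · -- one element off `B`
    obtain ⟨x0, hx0⟩ := Finset.nonempty_iff_ne_empty.2 h0
    have hx0' := Finset.mem_sdiff.1 hx0
    have hx1 : x0 ∈ R.2 ∧ x0 ∉ R.1 := Finset.mem_sdiff.1 hx0'.1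
    have hu : ∀ y ∈ gs R, y ∉ B → y = x0 := by
      intro y hy hyB
      exact Finset.card_le_one.1 h1 y (Finset.mem_sdiff.2 ⟨hy, hyB⟩) x0 hx0
    set Tq := (gs R).erase x0 with hTq
    have hTB : Tq ⊆ B := by
      intro y hy
      have h2 := Finset.mem_erase.1 hy
      by_contra h3
      exact h2.1 (hu y h2.2 h3)
    have hx0X : x0 ∈ X := (mX x0).2 ⟨⟨hR2q x0 hx1.1, fun h => hx1.2 (hqR x0 h)⟩, hx0'.2⟩
    have hP1 : insert x0 P ⊆ X := Finset.insert_subset hx0X hPX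
    have eI : ∀ Z : Finset E, q.1 ∪ insert x0 P ∪ Z = insert x0 (q.1 ∪ P ∪ Z) := by
      intro Z
      rw [Finset.union_insert, Finset.insert_union]
    have eR2 : R.1 ∪ Tq = R.2.erase x0 := by
      ext x
      have a1 := hR12 x
      have a2 : x = x0 → x ∉ R.1 := by
        rintro rfl
        exact hx1.2
      rw [hTq, Finset.mem_union, Finset.mem_erase, Finset.mem_erase, QUB.gs, Finset.mem_sdiff]
      tauto
    have hlx : 1 ≤ QUB.lam r R {x0} := by
      refine rich_cn hr hR {x0} (Finset.singleton_subset_iff.2 hx0'.1) (Finset.singleton_nonempty _) ?_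
      apply Finset.card_pos.1
      have h2 := Finset.card_sdiff_add_card_inter (gs R) {x0}
      have h3 : (gs R ∩ {x0}).card ≤ 1 := (Finset.card_le_card Finset.inter_subset_right).trans (by rw [Finset.card_singleton])
      have h4 := hR.2.1
      omega
    have hlx' : 1 ≤ r (insert x0 R.1) + r (R.1 ∪ Tq) - r R.2 - r R.1 := by
      have h2 : QUB.lam r R {x0} = r (R.1 ∪ {x0}) + r (R.2 \ {x0}) - r R.2 - r R.1 := rfl
      rw [h2, Finset.sdiff_singleton_eq_erase, ← eR2, Finset.union_comm R.1 {x0}] at hlx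
      exact hlx
    have eR3 : insert x0 (R.1 ∪ Tq) = R.2 := by
      rw [eR2, Finset.insert_erase hx1.1]
    rw [← eR3] at hlx'
    -- the connectivity grows
    have g0 := pn_dich hr hXB hPX hs1
    have g1 := pn_dich hr hXB hP1 hs1
    have m1 := QUB.marg hr (Finset.subset_union_left (s₁ := q.1 ∪ P) (s₂ := B)) x0
    have e1 : insert x0 (q.1 ∪ P) = q.1 ∪ insert x0 P := (Finset.union_insert _ _ _).symm
    have hk : ∀ Z : Finset E, R.1 ∪ Z = q.1 ∪ P ∪ (K ∪ Z) := by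
      intro Z
      rw [← eR1, uKZ]
    have hKT : K ∪ Tq ⊆ B := Finset.union_subset hK' hTB
    have hk0 : R.1 = q.1 ∪ P ∪ K := eR1.symm
    have c0 : (r (q.1 ∪ P) + r (q.1 ∪ B) - r (q.1 ∪ P ∪ B) - r q.1 = 0 ∧ ∀ Z ⊆ B, r (q.1 ∪ P ∪ Z) = r (q.1 ∪ P) + r (q.1 ∪ Z) - r q.1) ∧
        (r (q.1 ∪ insert x0 P) + r (q.1 ∪ B) - r (q.1 ∪ insert x0 P ∪ B) - r q.1 = 1 ∧
          ∀ Z ⊆ B, r (q.1 ∪ insert x0 P ∪ Z) = r (q.1 ∪ X ∪ Z) - r (q.1 ∪ X) + r (q.1 ∪ insert x0 P)) := by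
      rcases g0 with g0 | g0
      · rcases g1 with g1 | g1
        · exfalso
          have k1 := g0.2 K hK'
          have k2 := g0.2 (K ∪ Tq) hKT
          have k3 := g1.2 K hK'
          have k4 := g1.2 (K ∪ Tq) hKT
          rw [hk Tq, hk0] at hlx'
          rw [eI] at k3 k4
          omega
        · exact ⟨g0, g1⟩
      · rcases g1 with g1 | g1
        · exfalso
          have h2 := g1.1
          rw [e1, ← eI] at m1
          have h3 := g0.1
          omega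
        · exfalso
          have k1 := g0.2 K hK'
          have k2 := g0.2 (K ∪ Tq) hKT
          have k3 := g1.2 K hK'
          have k4 := g1.2 (K ∪ Tq) hKT
          rw [hk Tq, hk0] at hlx'
          rw [eI] at k3 k4
          omega
    obtain ⟨⟨p0, p1⟩, ⟨p2, p3⟩⟩ := c0
    have hgap : r (q.1 ∪ insert x0 P) = r (q.1 ∪ P) + 1 := by
      have m2 := hr.unit (q.1 ∪ P) x0
      have m3 := hr.mono _ _ (Finset.subset_insert x0 (q.1 ∪ P ∪ B))
      rw [e1] at m2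
      rw [← eI] at m3
      omega
    have hCX : r (q.1 ∪ X) = r (q.1 ∪ C) + 1 := by
      have h2 := T.h2
      have h3 := T.h3
      rw [← hX] at h3
      omega
    have hwf' : ((q.1 ∪ C ∪ K, insert a (q.1 ∪ C ∪ K ∪ Tq)) : Itv E).1 ⊆ ((q.1 ∪ C ∪ K, insert a (q.1 ∪ C ∪ K ∪ Tq)) : Itv E).2 :=
      Finset.subset_union_left.trans (Finset.subset_insert _ _)
    have hsub' : Sub ((q.1 ∪ C ∪ K, insert a (q.1 ∪ C ∪ K ∪ Tq)) : Itv E) (tb q B C a) := (pn_s4 hK' hTB).2.2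
    have hgR' : gs ((q.1 ∪ C ∪ K, insert a (q.1 ∪ C ∪ K ∪ Tq)) : Itv E) = insert a Tq :=
      pn_s3 (fun x hx => (hBq x hx).2) (fun x hx => (hCB x hx).2.2) hK hTB (Finset.erase_subset _ _) haB haq.2.1 haC
    set e : E ≃ E := Equiv.swap x0 a with he
    have hfix : ∀ Z ⊆ B, Z.map e.toEmbedding = Z := by
      intro Z hZ
      ext y
      rw [Finset.mem_map]
      have hs : ∀ x ∈ Z, e x = x := fun x hx =>
        Equiv.swap_apply_of_ne_of_ne (fun h => hx0'.2 (h ▸ hZ hx)) (fun h => haB (h ▸ hZ hx))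
      constructor
      · rintro ⟨x, hx, rfl⟩
        show e x ∈ Z
        rw [hs x hx]
        exact hx
      · intro hy
        exact ⟨y, hy, hs y hy⟩
    have hins : ∀ Z ⊆ B, (insert x0 Z).map e.toEmbedding = insert a Z := by
      intro Z hZ
      rw [Finset.map_insert, hfix Z hZ]
      congr 1
      exact Equiv.swap_apply_left x0 a
    have hgR : gs R = insert x0 Tq := (Finset.insert_erase hx0'.1).symm
    have hrich : HasRich r ((q.1 ∪ C ∪ K, insert a (q.1 ∪ C ∪ K ∪ Tq)) : Itv E) := by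
      refine iso_rich (q := R) hR.1 (e := e) ?_ hwf' ?_ ⟨R, ⟨Finset.Subset.refl _, Finset.Subset.refl _⟩, hR⟩
      · rw [hgR', hgR, hins _ hTB]
      · intro S hS
        have kk := T.skew hr hK'
        have k0 := p1 K hK'
        by_cases hxS : x0 ∈ S
        · have hZ : S.erase x0 ⊆ B := by
            intro y hy
            have h2 := Finset.mem_erase.1 hy
            by_contra h3
            exact h2.1 (hu y (hS h2.2) h3)
          have e2 : insert x0 (S.erase x0) = S := Finset.insert_erase hxS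
          rw [← e2, hins _ hZ]
          have hKZ := Finset.union_subset hK' hZ
          have k1 := T.spn hr hKZ
          have k2 := p3 (K ∪ S.erase x0) hKZ
          rw [eI] at k2
          rw [← hX] at k1
          show r (q.1 ∪ C ∪ K ∪ insert a (S.erase x0)) - r (q.1 ∪ C ∪ K) = _
          rw [Finset.union_insert, Finset.union_insert, hk, hk0, uKZ]
          omega
        · have hZ : S ⊆ B := by
            intro y hy
            by_contra h3
            exact hxS ((hu y (hS hy) h3) ▸ hy)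
          rw [hfix _ hZ]
          have hKZ := Finset.union_subset hK' hZ
          have k1 := T.skew hr hKZ
          have k2 := p1 (K ∪ S) hKZ
          show r (q.1 ∪ C ∪ K ∪ S) - r (q.1 ∪ C ∪ K) = _
          rw [hk, hk0, uKZ]
          omega
    obtain ⟨z, hz1, hz2⟩ := hrich
    exact ⟨z, hsub'.trans hz1, hz2⟩

/-- a rich minor survives the removal of an element of the other side -/
theorem pin_rich (hr : Rk r) {q : Itv E} (hq : q.1 ⊆ q.2) {X : Finset E} (hX : X ⊆ gs q) (hl : QUB.lam r q X ≤ 1)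
    (hR : ∃ q', Sub q' q ∧ Rich r q' ∧ (gs q' ∩ X).card ≤ 1) {x : E} {s : Bool} (hx : x ∈ X)
    (h1 : 1 ≤ QUB.lam r (QUB.rm s x q) (gs q \ X)) :
    ∃ q', Sub q' (QUB.rm s x q) ∧ Rich r q' ∧ (gs q' ∩ X.erase x).card ≤ 1 := by
  obtain ⟨R, hs, hRi, hc⟩ := hR
  have hxq := hX hx
  set Y := gs q \ X with hY
  have hYq : Y ⊆ gs q := Finset.sdiff_subset
  have hYe : Y ⊆ (gs q).erase x := by
    intro y hy
    have h2 := Finset.mem_sdiff.1 hy
    refine Finset.mem_erase.2 ⟨?_, h2.1⟩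
    rintro rfl
    exact h2.2 hx
  have hlY : QUB.lam r q Y ≤ 1 := by
    rw [QUB.lam_compl r hq hX]
    exact hl
  have hlY1 : 1 ≤ QUB.lam r q Y := h1.trans (QUB.lam_rm_le hr hxq hYe)
  have hwf := QUB.wf_rm (t := s) hq hxq
  have hYq' : Y ⊆ gs (QUB.rm s x q) := by
    rw [QUB.gs_rm]
    exact hYe
  have hlY' : QUB.lam r (QUB.rm s x q) Y ≤ 1 := (QUB.lam_rm_le hr hxq hYe).trans hlY
  obtain ⟨C, a, T⟩ := tor_ex hr hq hYq hlY1 hlY
  obtain ⟨C2, a2, T2⟩ := tor_ex hr hwf hYq' h1 hlY'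
  have hxY : x ∉ Y := fun h => (Finset.mem_sdiff.1 h).2 hx
  obtain ⟨s1, s2⟩ := stab hr hq hYq hlY hxq hxY h1
  have hgR : gs R ⊆ gs q := by
    intro y hy
    have h2 := Finset.mem_sdiff.1 hy
    exact Finset.mem_sdiff.2 ⟨hs.2 h2.1, fun h => h2.2 (hs.1 h)⟩
  have hc' : (gs R \ Y).card ≤ 1 := by
    refine (Finset.card_le_card ?_).trans hc
    intro y hy
    have h2 := Finset.mem_sdiff.1 hy
    refine Finset.mem_inter.2 ⟨h2.1, ?_⟩
    by_contra h3
    exact h2.2 (Finset.mem_sdiff.2 ⟨hgR h2.1, h3⟩)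
  have hR1 := pin_tor_rich hr T hlY hs hRi hc'
  obtain ⟨z, hz1, hz2⟩ := tor_iso0 hr T T2 s1 s2 hR1
  refine ⟨z, T2.sub.trans hz1, hz2, ?_⟩
  have h5 : gs z ∩ X.erase x ⊆ {a2} := by
    intro y hy
    have h6 := Finset.mem_inter.1 hy
    have h7 : y ∈ gs (tb (QUB.rm s x q) Y C2 a2) := by
      have h8 := Finset.mem_sdiff.1 h6.1
      exact Finset.mem_sdiff.2 ⟨hz1.2 h8.1, fun h => h8.2 (hz1.1 h)⟩
    rw [T2.gs_eq] at h7
    rcases Finset.mem_insert.1 h7 with h9 | h9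
    · exact Finset.mem_singleton.2 h9
    · exact absurd (Finset.mem_of_mem_erase h6.2) (Finset.mem_sdiff.1 h9).2
  exact (Finset.card_le_card h5).trans (by rw [Finset.card_singleton])

end Pool.Agent.QU
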