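import Pool.Agent.QUW.PinA
import Pool.Agent.QUW.PinB
import Pool.Agent.QUB.Lam2
import Pool.Agent.QUB.Move
import Pool.Agent.QUL.LTransR

/-!
# QUW/Pin: the pairs at a minimum side of a mixed pair

`Pnm r p u v X`: `u` is deleted, `v` is contracted, `X` is a side of order at most one of `q = rm false v (rm true u p)`, a rich minor of `q` has at
most one element in `X`, and `X` is minimum among the heavy sides of all pairs with the last property.
`Bd` describes the elements for which one of the pairs with `u` or `v` may be bad (`pin_u`, `pin_v`); `pin_two`: the pairs inside of `X`.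
-/

set_option autoImplicit false

open QUB

namespace Pool.Agent.QU

variable {E : Type} [DecidableEq E] {r : Finset E → ℤ} {p : Itv E} {u v : E} {X : Finset E}

/-- a mixed pair `u` deleted, `v` contracted with a minimum side `X` -/
structure Pnm (r : Finset E → ℤ) (p : Itv E) (u v : E) (X : Finset E) : Prop where
  hp : p.1 ⊆ p.2
  hu : u ∈ gs p
  hv : v ∈ gs p
  huv : u ≠ v
  h3u : Th3 r (rm true u p)
  h3v : Th3 r (rm false v p)
  cq : Cn r (rm false v (rm true u p))
  hX : X ⊆ gs (rm false v (rm true u p))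
  hl : QUB.lam r (rm false v (rm true u p)) X ≤ 1
  X3 : 3 ≤ X.card
  rc : ∃ q', Sub q' (rm false v (rm true u p)) ∧ Rich r q' ∧ (gs q' ∩ X).card ≤ 1
  mn : ∀ (s : Bool) (a : E) (t : Bool) (b : E) (Z : Finset E), a ∈ gs p → b ∈ gs p → a ≠ b → Z ⊆ gs (rm s a (rm t b p)) →
    QUB.lam r (rm s a (rm t b p)) Z ≤ 1 → Hv r (rm s a (rm t b p)) Z →
    (∃ q', Sub q' (rm s a (rm t b p)) ∧ Rich r q' ∧ (gs q' ∩ Z).card ≤ 1) → X.card ≤ Z.card

/-- the elements the removal of which may be bad together with `u` or `v` -/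
def Bd (r : Finset E → ℤ) (p : Itv E) (u v : E) (X : Finset E) (s : Bool) (x : E) : Prop :=
  (s = true ∧ r (insert v (p.1 ∪ X.erase x)) = r (p.1 ∪ X.erase x) + 1) ∨
  (s = false ∧ r (insert u (p.1 ∪ insert x (gs (rm false v (rm true u p)) \ X))) = r (p.1 ∪ insert x (gs (rm false v (rm true u p)) \ X)))

/-! ### general facts -/

theorem lam_sd (hr : Rk r) {Q : Itv E} (hQ : Q.1 ⊆ Q.2) {t : Bool} {w : E} (hw : w ∈ gs Q) {A : Finset E} (hA : A ⊆ gs Q) :
    QUB.lam r (rm t w Q) (A \ {w}) ≤ QUB.lam r Q A := by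
  rw [Finset.sdiff_singleton_eq_erase]
  by_cases h : w ∈ A
  · have h1 := QUB.lam_rm_le' hr hQ (t := t) hw (A := A.erase w) (Finset.erase_subset_erase _ hA)
    rwa [Finset.insert_erase h] at h1
  · rw [Finset.erase_eq_of_notMem h]
    exact QUB.lam_rm_le hr hw (Finset.subset_erase.2 ⟨hA, h⟩)

/-- a box which is not `Ok` has a heavy side with at most one element of a given rich minor -/
theorem notOk_side (hr : Rk r) {Q R : Itv E} (hQ : Q.1 ⊆ Q.2) (hs : Sub R Q) (hR : Rich r R) (h : ¬ Ok r Q) :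
    ∃ A ⊆ gs Q, QUB.lam r Q A ≤ 1 ∧ Hv r Q A ∧ (gs R ∩ A).card ≤ 1 := by
  unfold Ok at h
  push Not at h
  obtain ⟨A, hA, hl, h1, h2⟩ := h
  rcases rich_side hr hQ hA hl hs hR with h3 | h3
  · exact ⟨A, hA, hl, h1, by rw [Finset.inter_comm]; exact h3⟩
  · refine ⟨gs Q \ A, Finset.sdiff_subset, ?_, h2, by rw [Finset.inter_comm]; exact h3⟩
    rw [QUB.lam_compl r hQ hA]
    exact hl

/-- drops at a set `S` which are zero after the removal of `u` and `v` are zero before -/
theorem drop4 (hr : Rk r) {P : Itv E} (hP : P.1 ⊆ P.2) {a b x : E} {s : Bool} (ha : a ∈ gs P) (hb : b ∈ gs P) (hx : x ∈ gs P)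
    (hab : a ≠ b) (hxa : x ≠ a) (hxb : x ≠ b) {S : Finset E} (hS : S ⊆ (((gs P).erase a).erase b).erase x)
    (h1 : 1 ≤ QUB.lam r (rm false b (rm true a P)) {x})
    (h2 : QUB.lam r (rm false b (rm true a P)) S ≤ QUB.lam r (rm s x (rm false b (rm true a P))) S) :
    QUB.lam r P S ≤ QUB.lam r (rm s x P) S ∧ QUB.lam r (rm true a P) S ≤ QUB.lam r (rm s x (rm true a P)) S ∧
      QUB.lam r (rm false b P) S ≤ QUB.lam r (rm s x (rm false b P)) S := by
  have wa := QUB.wf_rm (t := true) hP ha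
  have wb := QUB.wf_rm (t := false) hP hb
  have ga : gs (rm true a P) = (gs P).erase a := QUB.gs_rm _ _ _
  have gb : gs (rm false b P) = (gs P).erase b := QUB.gs_rm _ _ _
  have hba : b ∈ gs (rm true a P) := by
    rw [ga]
    exact Finset.mem_erase.2 ⟨hab.symm, hb⟩
  have hxa' : x ∈ gs (rm true a P) := by
    rw [ga]
    exact Finset.mem_erase.2 ⟨hxa, hx⟩
  have hab' : a ∈ gs (rm false b P) := by
    rw [gb]
    exact Finset.mem_erase.2 ⟨hab, ha⟩
  have hxb' : x ∈ gs (rm false b P) := by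
    rw [gb]
    exact Finset.mem_erase.2 ⟨hxb, hx⟩
  have hcm : rm false b (rm true a P) = rm true a (rm false b P) := QUB.rm_comm false true P
  have mS : ∀ y ∈ S, y ≠ x ∧ y ≠ b ∧ y ≠ a ∧ y ∈ gs P := by
    intro y hy
    have h3 := Finset.mem_erase.1 (hS hy)
    have h4 := Finset.mem_erase.1 h3.2
    have h5 := Finset.mem_erase.1 h4.2
    exact ⟨h3.1, h4.1, h5.1, h5.2⟩
  have k1 := QUB.lam_L4 hr wa (s := false) (t := s) (w := b) (e := x) (A := S) hba hxa' hxb (by
    intro y hy
    obtain ⟨i1, i2, i3, i4⟩ := mS y hy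
    rw [ga]
    exact Finset.mem_erase.2 ⟨i1, Finset.mem_erase.2 ⟨i2, Finset.mem_erase.2 ⟨i3, i4⟩⟩⟩) h1
  have k2 := QUB.lam_L4 hr wb (s := true) (t := s) (w := a) (e := x) (A := S) hab' hxb' hxa (by
    intro y hy
    obtain ⟨i1, i2, i3, i4⟩ := mS y hy
    rw [gb]
    exact Finset.mem_erase.2 ⟨i1, Finset.mem_erase.2 ⟨i3, Finset.mem_erase.2 ⟨i2, i4⟩⟩⟩) (by rw [← hcm]; exact h1)
  have h3 : 1 ≤ QUB.lam r (rm true a P) {x} := h1.trans (QUB.lam_rm_le hr hba (by
    rw [ga]
    exact Finset.singleton_subset_iff.2 (Finset.mem_erase.2 ⟨hxb, Finset.mem_erase.2 ⟨hxa, hx⟩⟩)))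
  have k3 := QUB.lam_L4 hr hP (s := true) (t := s) (w := a) (e := x) (A := S) ha hx hxa (by
    intro y hy
    obtain ⟨i1, i2, i3, i4⟩ := mS y hy
    exact Finset.mem_erase.2 ⟨i1, Finset.mem_erase.2 ⟨i3, i4⟩⟩) h3
  rw [← hcm] at k2
  refine ⟨by omega, by omega, by omega⟩


namespace Pnm

variable (h : Pnm r p u v X)
include h

theorem gq : gs (rm false v (rm true u p)) = ((gs p).erase u).erase v := by
  rw [QUB.gs_rm, QUB.gs_rm]

theorem gu : gs (rm true u p) = (gs p).erase u := QUB.gs_rm _ _ _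

theorem gv : gs (rm false v p) = (gs p).erase v := QUB.gs_rm _ _ _

theorem comm : rm false v (rm true u p) = rm true u (rm false v p) := QUB.rm_comm false true p

theorem hvu : v ∈ gs (rm true u p) := by
  rw [h.gu]
  exact Finset.mem_erase.2 ⟨h.huv.symm, h.hv⟩

theorem huv' : u ∈ gs (rm false v p) := by
  rw [h.gv]
  exact Finset.mem_erase.2 ⟨h.huv, h.hu⟩

theorem wu : (rm true u p).1 ⊆ (rm true u p).2 := QUB.wf_rm h.hp h.hu

theorem wv : (rm false v p).1 ⊆ (rm false v p).2 := QUB.wf_rm h.hp h.hv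

theorem wq : (rm false v (rm true u p)).1 ⊆ (rm false v (rm true u p)).2 := QUB.wf_rm h.wu h.hvu

/-- members of `gs q` -/
theorem mq {x : E} (hx : x ∈ gs (rm false v (rm true u p))) : x ∈ gs p ∧ x ≠ u ∧ x ≠ v := by
  rw [h.gq] at hx
  have h1 := Finset.mem_erase.1 hx
  have h2 := Finset.mem_erase.1 h1.2
  exact ⟨h2.2, h2.1, h1.1⟩

theorem mq' {x : E} (h1 : x ∈ gs p) (h2 : x ≠ u) (h3 : x ≠ v) : x ∈ gs (rm false v (rm true u p)) := by
  rw [h.gq]
  exact Finset.mem_erase.2 ⟨h3, Finset.mem_erase.2 ⟨h2, h1⟩⟩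

/-- the exchange of the two drops -/
theorem ex1 {S : Finset E} : QUB.lam r p S - QUB.lam r (rm true u p) S =
    QUB.lam r (rm false v p) S - QUB.lam r (rm false v (rm true u p)) S := by
  have e1 : QUB.lam r p S = r (p.1 ∪ S) + r (p.2 \ S) - r p.2 - r p.1 := rfl
  have e2 : QUB.lam r (rm true u p) S = r (p.1 ∪ S) + r (p.2.erase u \ S) - r (p.2.erase u) - r p.1 := rfl
  have e3 : QUB.lam r (rm false v p) S = r (insert v p.1 ∪ S) + r (p.2 \ S) - r p.2 - r (insert v p.1) := rfl
  have e4 : QUB.lam r (rm false v (rm true u p)) S = r (insert v p.1 ∪ S) + r (p.2.erase u \ S) - r (p.2.erase u) - r (insert v p.1) := rfl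
  rw [e1, e2, e3, e4]
  ring

/-- 2-sides -/
theorem val {S : Finset E} (hS : S ⊆ gs (rm false v (rm true u p))) (h2 : 2 ≤ S.card)
    (h2' : 2 ≤ (gs (rm false v (rm true u p)) \ S).card) (hl : QUB.lam r (rm false v (rm true u p)) S ≤ 1) :
    2 ≤ QUB.lam r (rm true u p) S ∧ 2 ≤ QUB.lam r (rm false v p) S ∧ 3 ≤ QUB.lam r p S := by
  have h1 : 2 ≤ QUB.lam r (rm true u p) S := by
    refine h.h3u S ?_ h2 (h2'.trans (Finset.card_le_card ?_))
    · rw [h.gu]
      intro x hx
      have := h.mq (hS hx)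
      exact Finset.mem_erase.2 ⟨this.2.1, this.1⟩
    · rw [h.gu, h.gq]
      exact Finset.sdiff_subset_sdiff (Finset.erase_subset _ _) (Finset.Subset.refl _)
  have h3 : 2 ≤ QUB.lam r (rm false v p) S := by
    refine h.h3v S ?_ h2 (h2'.trans (Finset.card_le_card ?_))
    · rw [h.gv]
      intro x hx
      have := h.mq (hS hx)
      exact Finset.mem_erase.2 ⟨this.2.2, this.1⟩
    · rw [h.gv, h.gq]
      refine Finset.sdiff_subset_sdiff ?_ (Finset.Subset.refl _)
      exact Finset.erase_subset_erase _ (Finset.erase_subset _ _)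
  have h4 := h.ex1 (S := S)
  exact ⟨h1, h3, by omega⟩

/-- 2-sides with `u`, `v` -/
theorem val' {S : Finset E} (hS : S ⊆ gs (rm false v (rm true u p))) (h2 : 2 ≤ S.card)
    (h2' : 2 ≤ (gs (rm false v (rm true u p)) \ S).card) (hl : QUB.lam r (rm false v (rm true u p)) S ≤ 1) :
    2 ≤ QUB.lam r (rm true u p) (insert v S) ∧ 2 ≤ QUB.lam r (rm false v p) (insert u S) ∧ 3 ≤ QUB.lam r p (insert u (insert v S)) := by
  have hl' : QUB.lam r (rm false v (rm true u p)) (gs (rm false v (rm true u p)) \ S) ≤ 1 := by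
    rw [QUB.lam_compl r h.wq hS]
    exact hl
  obtain ⟨a1, a2, a3⟩ := h.val (S := gs (rm false v (rm true u p)) \ S) Finset.sdiff_subset h2' (by
    rw [Finset.sdiff_sdiff_eq_self hS]
    exact h2) hl'
  have mS : ∀ y ∈ S, y ∈ gs p ∧ y ≠ u ∧ y ≠ v := fun y hy => h.mq (hS hy)
  have hu := h.hu
  have hv := h.hv
  have huv := h.huv
  have e1 : gs (rm true u p) \ insert v S = gs (rm false v (rm true u p)) \ S := by
    rw [h.gu, h.gq]
    ext y
    simp only [Finset.mem_sdiff, Finset.mem_erase, Finset.mem_insert]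
    tauto
  have e2 : gs (rm false v p) \ insert u S = gs (rm false v (rm true u p)) \ S := by
    rw [h.gv, h.gq]
    ext y
    simp only [Finset.mem_sdiff, Finset.mem_erase, Finset.mem_insert]
    tauto
  have e3 : gs p \ insert u (insert v S) = gs (rm false v (rm true u p)) \ S := by
    rw [h.gq]
    ext y
    simp only [Finset.mem_sdiff, Finset.mem_erase, Finset.mem_insert]
    tauto
  refine ⟨?_, ?_, ?_⟩
  · rw [← QUB.lam_compl r h.wu (A := insert v S) ?_, e1]
    · exact a1
    · rw [h.gu]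
      refine Finset.insert_subset (Finset.mem_erase.2 ⟨huv.symm, hv⟩) fun y hy => ?_
      exact Finset.mem_erase.2 ⟨(mS y hy).2.1, (mS y hy).1⟩
  · rw [← QUB.lam_compl r h.wv (A := insert u S) ?_, e2]
    · exact a2
    · rw [h.gv]
      refine Finset.insert_subset (Finset.mem_erase.2 ⟨huv, hu⟩) fun y hy => ?_
      exact Finset.mem_erase.2 ⟨(mS y hy).2.2, (mS y hy).1⟩
  · rw [← QUB.lam_compl r h.hp (A := insert u (insert v S)) ?_, e3]
    · exact a3
    · exact Finset.insert_subset hu (Finset.insert_subset hv fun y hy => (mS y hy).1)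

/-- no parallel pairs and no series pairs in `q` -/
theorem pair (hr : Rk r) (hc : 4 ≤ (gs (rm false v (rm true u p))).card) {x y : E} (hx : x ∈ gs (rm false v (rm true u p)))
    (hy : y ∈ gs (rm false v (rm true u p))) (hxy : x ≠ y) : 2 ≤ QUB.lam r (rm false v (rm true u p)) {x, y} := by
  by_contra hcon
  have hs : ({x, y} : Finset E) ⊆ gs (rm false v (rm true u p)) := Finset.insert_subset hx (Finset.singleton_subset_iff.2 hy)
  have h1 := (h.val hs (by rw [Finset.card_pair hxy]) (by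
    rw [Finset.card_sdiff_of_subset hs, Finset.card_pair hxy]
    omega) (by omega)).2.2
  have h2 := QUB.lam_sub (p := p) hr {x} {y}
  have h3 := QUB.lam_single_le (p := p) hr (h.mq hx).1
  have h4 := QUB.lam_single_le (p := p) hr (h.mq hy).1
  have e1 : ({x} : Finset E) ∩ {y} = ∅ := by
    ext z
    simp only [Finset.mem_inter, Finset.mem_singleton, Finset.notMem_empty, iff_false]
    rintro ⟨rfl, h5⟩
    exact hxy h5
  have e2 : ({x} : Finset E) ∪ {y} = {x, y} := rfl
  rw [e1, e2, QUB.lam_empty] at h2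
  omega


theorem Y4 : 4 ≤ (gs (rm false v (rm true u p)) \ X).card := by
  obtain ⟨R, h1, h2, h3⟩ := h.rc
  have h5 := h2.2.1
  have h6 := Finset.card_sdiff_add_card_inter (gs R) X
  have h7 : gs R \ X ⊆ gs (rm false v (rm true u p)) \ X := by
    refine Finset.sdiff_subset_sdiff ?_ (Finset.Subset.refl _)
    intro y hy
    have h8 := Finset.mem_sdiff.1 hy
    exact Finset.mem_sdiff.2 ⟨h1.2 h8.1, fun h9 => h8.2 (h1.1 h9)⟩
  have h8 := Finset.card_le_card h7
  omega

theorem q7 : 7 ≤ (gs (rm false v (rm true u p))).card := by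
  have h1 := h.Y4
  have h2 := h.X3
  have h3 := Finset.card_sdiff_add_card_inter (gs (rm false v (rm true u p))) X
  rw [Finset.inter_eq_right.2 h.hX] at h3
  omega

/-- no loops and coloops after a removal -/
theorem nl (hr : Rk r) {x y : E} {s : Bool} (hx : x ∈ gs (rm false v (rm true u p))) (hy : y ∈ gs (rm false v (rm true u p)))
    (hxy : x ≠ y) : 1 ≤ QUB.lam r (rm s x (rm false v (rm true u p))) {y} := by
  have h1 := h.pair hr (by have := h.q7; omega) hx hy hxy
  have h2 := QUB.lam_le_rm' hr (p := rm false v (rm true u p)) (t := s) (x := x) (A := {y}) hx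
    (Finset.singleton_subset_iff.2 (Finset.mem_erase.2 ⟨hxy.symm, hy⟩))
  have e1 : insert x ({y} : Finset E) = {x, y} := rfl
  rw [e1] at h2
  omega

theorem nl0 {y : E} (hy : y ∈ gs (rm false v (rm true u p))) : 1 ≤ QUB.lam r (rm false v (rm true u p)) {y} := by
  refine h.cq {y} (Finset.singleton_subset_iff.2 hy) (Finset.singleton_nonempty _) ?_
  apply Finset.card_pos.1
  have h2 := Finset.card_sdiff_add_card_inter (gs (rm false v (rm true u p))) {y}
  have h3 : (gs (rm false v (rm true u p)) ∩ {y}).card ≤ 1 := (Finset.card_le_card Finset.inter_subset_right).trans (by rw [Finset.card_singleton])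
  have h4 := h.q7
  omega

/-- the order of `Y` after the removal of an element of `X` -/
theorem lY {x : E} {s : Bool} (hx : x ∈ X) (hc : Cn r (rm s x (rm false v (rm true u p)))) :
    1 ≤ QUB.lam r (rm s x (rm false v (rm true u p))) (gs (rm false v (rm true u p)) \ X) := by
  have h4 := h.Y4
  have h3 := h.X3
  refine hc _ ?_ (Finset.card_pos.1 (by omega)) ?_
  · rw [show gs (rm s x (rm false v (rm true u p))) = (gs (rm false v (rm true u p))).erase x from QUB.gs_rm _ _ _]
    intro y hy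
    have h5 := Finset.mem_sdiff.1 hy
    refine Finset.mem_erase.2 ⟨?_, h5.1⟩
    rintro rfl
    exact h5.2 hx
  · obtain ⟨y, hy, hyx⟩ := Finset.exists_mem_ne (by omega : 1 < X.card) x
    refine ⟨y, Finset.mem_sdiff.2 ⟨?_, fun h5 => (Finset.mem_sdiff.1 h5).2 hy⟩⟩
    rw [show gs (rm s x (rm false v (rm true u p))) = (gs (rm false v (rm true u p))).erase x from QUB.gs_rm _ _ _]
    exact Finset.mem_erase.2 ⟨hyx, h.hX hy⟩

/-- the drops on `Y` -/
theorem dz (hr : Rk r) {x : E} {s : Bool} (hx : x ∈ X)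
    (h1 : 1 ≤ QUB.lam r (rm s x (rm false v (rm true u p))) (gs (rm false v (rm true u p)) \ X)) {S : Finset E}
    (hS : S ⊆ gs (rm false v (rm true u p)) \ X) :
    QUB.lam r (rm false v (rm true u p)) S ≤ QUB.lam r (rm s x (rm false v (rm true u p))) S := by
  have hY : gs (rm false v (rm true u p)) \ X ⊆ (gs (rm false v (rm true u p))).erase x := by
    intro y hy
    have h5 := Finset.mem_sdiff.1 hy
    refine Finset.mem_erase.2 ⟨?_, h5.1⟩
    rintro rfl
    exact h5.2 hx
  have h2 := QUB.lam_L3 hr (t := s) (h.hX hx) hS hY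
  have h3 := QUB.lam_compl r h.wq h.hX
  have h4 := h.hl
  omega

/-- drops of `x` on `Y` in the three larger boxes -/
theorem dz4 (hr : Rk r) {x : E} {s : Bool} (hx : x ∈ X)
    (h1 : 1 ≤ QUB.lam r (rm s x (rm false v (rm true u p))) (gs (rm false v (rm true u p)) \ X)) {S : Finset E}
    (hS : S ⊆ gs (rm false v (rm true u p)) \ X) :
    QUB.lam r p S ≤ QUB.lam r (rm s x p) S ∧ QUB.lam r (rm true u p) S ≤ QUB.lam r (rm s x (rm true u p)) S ∧
      QUB.lam r (rm false v p) S ≤ QUB.lam r (rm s x (rm false v p)) S := by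
  have hxm := h.mq (h.hX hx)
  refine drop4 hr h.hp h.hu h.hv hxm.1 h.huv hxm.2.1 hxm.2.2 ?_ (h.nl0 (h.hX hx)) (h.dz hr hx h1 hS)
  rw [← h.gq]
  intro y hy
  have h5 := Finset.mem_sdiff.1 (hS hy)
  refine Finset.mem_erase.2 ⟨?_, h5.1⟩
  rintro rfl
  exact h5.2 hx

/-- the sets -/
theorem sets {x : E} (hx : x ∈ X) :
    p.2 \ insert u (insert v (gs (rm false v (rm true u p)) \ X)) = p.1 ∪ X ∧
    (p.2.erase x) \ insert u (insert v (gs (rm false v (rm true u p)) \ X)) = p.1 ∪ X.erase x ∧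
    (rm false v (rm true u p)).2 \ (gs (rm false v (rm true u p)) \ X) = insert v (p.1 ∪ X) ∧
    (rm false v (rm true u p)).2.erase x \ (gs (rm false v (rm true u p)) \ X) = insert v (p.1 ∪ X.erase x) := by
  have hp := h.hp
  have hu := Finset.mem_sdiff.1 h.hu
  have hv := Finset.mem_sdiff.1 h.hv
  have huv := h.huv
  have hX : ∀ y ∈ X, y ∈ p.2 ∧ y ∉ p.1 ∧ y ≠ u ∧ y ≠ v := by
    intro y hy
    have h1 := h.mq (h.hX hy)
    have h2 := Finset.mem_sdiff.1 h1.1
    exact ⟨h2.1, h2.2, h1.2.1, h1.2.2⟩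
  have hg : ∀ y, y ∈ gs (rm false v (rm true u p)) ↔ y ≠ v ∧ y ≠ u ∧ y ∈ p.2 ∧ y ∉ p.1 := by
    intro y
    rw [h.gq, Finset.mem_erase, Finset.mem_erase, QUB.gs, Finset.mem_sdiff]
  have e2 : (rm false v (rm true u p)).2 = p.2.erase u := rfl
  have hxX := hX x hx
  refine ⟨?_, ?_, ?_, ?_⟩
  · ext y
    have a1 := @hp y
    have a2 := hX y
    have a3 := hg y
    have a4 : y = u → y ∉ p.1 := by rintro rfl; exact hu.2
    have a5 : y = v → y ∉ p.1 := by rintro rfl; exact hv.2
    simp only [Finset.mem_sdiff, Finset.mem_insert, Finset.mem_union]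
    clear hp hu hv hX hg hxX
    tauto
  · ext y
    have a1 := @hp y
    have a2 := hX y
    have a3 := hg y
    have a4 : y = u → y ∉ p.1 := by rintro rfl; exact hu.2
    have a5 : y = v → y ∉ p.1 := by rintro rfl; exact hv.2
    have a6 : y = x → y ∉ p.1 := by rintro rfl; exact hxX.2.1
    simp only [Finset.mem_sdiff, Finset.mem_insert, Finset.mem_union, Finset.mem_erase]
    clear hp hu hv hX hg hxX
    tauto
  · rw [e2]
    ext y
    have a1 := @hp y
    have a2 := hX y
    have a3 := hg y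
    have a4 : y = u → y ∉ p.1 := by rintro rfl; exact hu.2
    have a5 : y = v → y ∈ p.2 ∧ y ≠ u := by rintro rfl; exact ⟨hv.1, huv.symm⟩
    simp only [Finset.mem_sdiff, Finset.mem_insert, Finset.mem_union, Finset.mem_erase]
    clear hp hu hv hX hg hxX
    tauto
  · rw [e2]
    ext y
    have a1 := @hp y
    have a2 := hX y
    have a3 := hg y
    have a4 : y = u → y ∉ p.1 := by rintro rfl; exact hu.2
    have a5 : y = v → y ∈ p.2 ∧ y ≠ u := by rintro rfl; exact ⟨hv.1, huv.symm⟩
    have a6 : y = x → y ∉ p.1 ∧ y ≠ v := by rintro rfl; exact ⟨hxX.2.1, hxX.2.2.2⟩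
    simp only [Finset.mem_sdiff, Finset.mem_insert, Finset.mem_union, Finset.mem_erase]
    clear hp hu hv hX hg hxX
    tauto

/-- `v` is in the closure of `Y` -/
theorem vY (hr : Rk r) : r (insert v (p.1 ∪ (gs (rm false v (rm true u p)) \ X))) = r (p.1 ∪ (gs (rm false v (rm true u p)) \ X)) := by
  have h1 := h.Y4
  have h2 := h.X3
  have hl : QUB.lam r (rm false v (rm true u p)) (gs (rm false v (rm true u p)) \ X) ≤ 1 := by
    rw [QUB.lam_compl r h.wq h.hX]
    exact h.hl
  have h3 := (h.val (S := gs (rm false v (rm true u p)) \ X) Finset.sdiff_subset (by omega) (by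
    rw [Finset.sdiff_sdiff_eq_self h.hX]
    omega) hl).1
  have e1 : QUB.lam r (rm false v (rm true u p)) (gs (rm false v (rm true u p)) \ X) =
      r (insert v (p.1 ∪ (gs (rm false v (rm true u p)) \ X))) + r (p.2.erase u \ (gs (rm false v (rm true u p)) \ X)) - r (p.2.erase u)
        - r (insert v p.1) := by
    rw [← Finset.insert_union]
    rfl
  have e2 : QUB.lam r (rm true u p) (gs (rm false v (rm true u p)) \ X) =
      r (p.1 ∪ (gs (rm false v (rm true u p)) \ X)) + r (p.2.erase u \ (gs (rm false v (rm true u p)) \ X)) - r (p.2.erase u)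
        - r p.1 := rfl
  have h4 := hr.unit p.1 v
  have h5 := hr.mono _ _ (Finset.subset_insert v (p.1 ∪ (gs (rm false v (rm true u p)) \ X)))
  omega

/-- the last step: a drop of `x` at `Y + u + v` -/
theorem bd_of (hr : Rk r) {x : E} {s : Bool} (hx : x ∈ X)
    (h1 : 1 ≤ QUB.lam r (rm s x (rm false v (rm true u p))) (gs (rm false v (rm true u p)) \ X))
    (h2 : QUB.lam r (rm s x p) (insert u (insert v (gs (rm false v (rm true u p)) \ X))) + 1 ≤
      QUB.lam r p (insert u (insert v (gs (rm false v (rm true u p)) \ X)))) : Bd r p u v X s x := by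
  obtain ⟨e1, e2, e3, e4⟩ := h.sets hx
  have h3 := h.dz hr hx h1 (Finset.Subset.refl _)
  have h4 := h.nl0 (h.hX hx)
  have h5 : QUB.lam r (rm false v (rm true u p)) {x} =
      r (insert v p.1 ∪ {x}) + r (p.2.erase u \ {x}) - r (p.2.erase u) - r (insert v p.1) := rfl
  have h5' : insert v p.1 ∪ {x} = insert x (insert v p.1) := by
    rw [Finset.union_comm]
    rfl
  rw [h5', Finset.sdiff_singleton_eq_erase] at h5
  have u1 := hr.unit (insert v p.1) x
  have u2 := hr.mono _ _ (Finset.erase_subset x (p.2.erase u))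
  have f1 : QUB.lam r p (insert u (insert v (gs (rm false v (rm true u p)) \ X))) =
    r (p.1 ∪ insert u (insert v (gs (rm false v (rm true u p)) \ X))) + r (p.1 ∪ X) - r p.2 - r p.1 := by
    rw [← e1]
    rfl
  have f2 : QUB.lam r (rm false v (rm true u p)) (gs (rm false v (rm true u p)) \ X) =
    r (insert v p.1 ∪ (gs (rm false v (rm true u p)) \ X)) + r (insert v (p.1 ∪ X)) - r (p.2.erase u) - r (insert v p.1) := by
    rw [← e3]
    rfl
  cases s
  · right
    refine ⟨rfl, ?_⟩
    set Y := gs (rm false v (rm true u p)) \ X with hY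
    have f3 : QUB.lam r (rm false x p) (insert u (insert v Y)) =
      r (insert x p.1 ∪ insert u (insert v Y)) + r (p.1 ∪ X) - r p.2 - r (insert x p.1) := by
      rw [← e1]
      rfl
    have f4 : QUB.lam r (rm false x (rm false v (rm true u p))) Y =
      r (insert x (insert v p.1) ∪ Y) + r (insert v (p.1 ∪ X)) - r (p.2.erase u) - r (insert x (insert v p.1)) := by
      rw [← e3]
      rfl
    have h6 := h.vY hr
    rw [← hY] at h6
    have g1 : p.1 ∪ insert u (insert v Y) = insert u (insert v (p.1 ∪ Y)) := by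
      rw [Finset.union_insert, Finset.union_insert]
    have g2 : insert x p.1 ∪ insert u (insert v Y) = insert x (insert u (insert v (p.1 ∪ Y))) := by
      rw [Finset.insert_union, g1]
    have g3 : insert v p.1 ∪ Y = insert v (p.1 ∪ Y) := Finset.insert_union _ _ _
    have g4 : insert x (insert v p.1) ∪ Y = insert x (insert v (p.1 ∪ Y)) := by
      rw [Finset.insert_union, Finset.insert_union]
    have g5 : p.1 ∪ insert x Y = insert x (p.1 ∪ Y) := Finset.union_insert _ _ _
    rw [f1, f3, g1, g2] at h2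
    rw [f2, f4, g3, g4] at h3
    rw [g5]
    have u3 := hr.unit p.1 x
    have u4 := hr.unit (insert v (p.1 ∪ Y)) u
    have m1 := QUB.marg hr (Finset.subset_insert x (p.1 ∪ Y)) v
    rw [Finset.insert_comm v x] at m1
    have m2 := hr.mono (insert u (insert x (p.1 ∪ Y))) (insert x (insert u (insert v (p.1 ∪ Y)))) (by
      intro y hy
      simp only [Finset.mem_insert] at hy ⊢
      tauto)
    have m3 := hr.mono _ _ (Finset.subset_insert u (insert x (p.1 ∪ Y)))
    omega
  · left
    refine ⟨rfl, ?_⟩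
    have f3 : QUB.lam r (rm true x p) (insert u (insert v (gs (rm false v (rm true u p)) \ X))) =
      r (p.1 ∪ insert u (insert v (gs (rm false v (rm true u p)) \ X))) + r (p.1 ∪ X.erase x) - r (p.2.erase x) - r p.1 := by
      rw [← e2]
      rfl
    have f4 : QUB.lam r (rm true x (rm false v (rm true u p))) (gs (rm false v (rm true u p)) \ X) =
      r (insert v p.1 ∪ (gs (rm false v (rm true u p)) \ X)) + r (insert v (p.1 ∪ X.erase x)) - r ((p.2.erase u).erase x)
        - r (insert v p.1) := by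
      rw [← e4]
      rfl
    have u3 := hr.mono _ _ (Finset.erase_subset x p.2)
    have u4 := hr.mono _ _ (Finset.subset_insert v (p.1 ∪ X))
    have u5 := hr.unit (p.1 ∪ X.erase x) v
    omega

end Pnm

end Pool.Agent.QU
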