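import Pool.Agent.QUT.Iso
import Pool.Agent.QUN.Th

/-!
# QUW/PinA: the core lemma for the pairs at a minimum mixed side
-/

set_option autoImplicit false

open QUB

namespace Pool.Agent.QU

variable {E : Type} [DecidableEq E] {r : Finset E → ℤ}

/-- CORE LEMMA: `W` is removed from `Q`, the connected box `N` has the ground set `X + Y`; every side `S ⊆ Y` of order at most one pulls `W`. -/
theorem pn_core (hr : Rk r) {Q N : Itv E} {W X Y : Finset E} (hQ : Q.1 ⊆ Q.2) (hN : N.1 ⊆ N.2)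
    (hg : gs Q = W ∪ (X ∪ Y)) (hg' : gs N = X ∪ Y) (d1 : ∀ x ∈ W, x ∉ X) (d2 : ∀ x ∈ W, x ∉ Y) (d3 : ∀ x ∈ X, x ∉ Y)
    (hW : W.Nonempty) (hc : Cn r N) (hlY : QUB.lam r N Y ≤ 1) (hle : ∀ A ⊆ gs Q, QUB.lam r N (A \ W) ≤ QUB.lam r Q A)
    (pull : ∀ S ⊆ Y, 2 ≤ S.card → QUB.lam r N S ≤ 1 → ∀ A ⊆ gs Q, QUB.lam r Q A ≤ 1 → S ⊆ A → ((gs Q \ A) \ W).Nonempty → W ⊆ A)
    {A : Finset E} (hA : A ⊆ gs Q) (hl : QUB.lam r Q A ≤ 1) (hm : X.card + W.card ≤ A.card) (hB : 2 ≤ ((gs Q \ A) ∩ Y).card)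
    (hA2 : 2 ≤ (A \ W).card) : ∃ S ⊆ Y, 2 ≤ S.card ∧ QUB.lam r N S ≤ 1 ∧ QUB.lam r Q (S ∪ W) ≤ 1 := by
  have mQ : ∀ x, x ∈ gs Q ↔ x ∈ W ∨ x ∈ X ∨ x ∈ Y := by
    intro x
    rw [hg, Finset.mem_union, Finset.mem_union]
  have mN : ∀ x, x ∈ gs N ↔ x ∈ X ∨ x ∈ Y := by
    intro x
    rw [hg', Finset.mem_union]
  obtain ⟨w, hw⟩ := hW
  have hYN : Y ⊆ gs N := fun x hx => (mN x).2 (Or.inr hx)
  have hXN : X ⊆ gs N := fun x hx => (mN x).2 (Or.inl hx)
  have hS0 : ((gs Q \ A) ∩ Y).Nonempty := Finset.card_pos.1 (by omega)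
  obtain ⟨y0, hy0⟩ := hS0
  have hy0' := Finset.mem_inter.1 hy0
  have hy1 := Finset.mem_sdiff.1 hy0'.1
  have lA := hle A hA
  have hlX : QUB.lam r N X ≤ 1 := by
    have h1 := QUB.lam_compl r hN hYN
    have e1 : gs N \ Y = X := by
      ext x
      have h2 := mN x
      have h3 := d3 x
      rw [Finset.mem_sdiff]
      tauto
    rw [e1] at h1
    omega
  have hAN : A \ W ⊆ gs N := by
    intro x hx
    have h1 := Finset.mem_sdiff.1 hx
    have h2 := (mQ x).1 (hA h1.1)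
    rw [mN]
    tauto
  by_cases hAX : (A ∩ X).Nonempty
  · obtain ⟨a, ha⟩ := hAX
    have ha' := Finset.mem_inter.1 ha
    have haW : a ∉ W := fun h => d1 a h ha'.2
    -- the side in `Y`
    have u1 := QUB.lam_sub (p := N) hr (A \ W) X
    have v1 : 1 ≤ QUB.lam r N ((A \ W) ∩ X) := by
      refine hc _ (Finset.inter_subset_right.trans hXN) ⟨a, ?_⟩ ⟨y0, ?_⟩
      · exact Finset.mem_inter.2 ⟨Finset.mem_sdiff.2 ⟨ha'.1, haW⟩, ha'.2⟩
      · rw [Finset.mem_sdiff]
        exact ⟨hYN hy0'.2, fun h => d3 y0 (Finset.mem_inter.1 h).2 hy0'.2⟩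
    have v2 : QUB.lam r N ((gs Q \ A) ∩ Y) ≤ 1 := by
      have h1 := QUB.lam_compl r hN (A := (A \ W) ∪ X) (Finset.union_subset hAN hXN)
      have e1 : gs N \ ((A \ W) ∪ X) = (gs Q \ A) ∩ Y := by
        ext x
        have h2 := mN x
        have h3 := mQ x
        have h4 := d1 x
        have h5 := d2 x
        have h6 := d3 x
        simp only [Finset.mem_sdiff, Finset.mem_union, Finset.mem_inter]
        tauto
      rw [e1] at h1
      omega
    have hBl : QUB.lam r Q (gs Q \ A) ≤ 1 := by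
      rw [QUB.lam_compl r hQ hA]
      exact hl
    have hWB : W ⊆ gs Q \ A := by
      refine pull _ Finset.inter_subset_right hB v2 _ Finset.sdiff_subset hBl Finset.inter_subset_left ⟨a, ?_⟩
      rw [Finset.sdiff_sdiff_eq_self hA]
      exact Finset.mem_sdiff.2 ⟨ha'.1, haW⟩
    by_cases hBX : ((gs Q \ A) ∩ X).Nonempty
    · exfalso
      obtain ⟨b, hb⟩ := hBX
      have hb' := Finset.mem_inter.1 hb
      have hb1 := Finset.mem_sdiff.1 hb'.1
      have hbW : b ∉ W := fun h => d1 b h hb'.2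
      have u2 := QUB.lam_sub (p := N) hr (A \ W) Y
      have v3 : 1 ≤ QUB.lam r N ((A \ W) ∪ Y) := by
        refine hc _ (Finset.union_subset hAN hYN) ⟨y0, Finset.mem_union_right _ hy0'.2⟩ ⟨b, ?_⟩
        rw [Finset.mem_sdiff, Finset.mem_union, Finset.mem_sdiff]
        refine ⟨hXN hb'.2, ?_⟩
        rintro (h | h)
        · exact hb1.2 h.1
        · exact d3 b hb'.2 h
      have e2 : (A \ W) ∩ Y = A ∩ Y := by
        ext x
        have h5 := d2 x
        simp only [Finset.mem_sdiff, Finset.mem_inter]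
        tauto
      rw [e2] at u2
      have c1 : (A ∩ Y).card ≤ 1 := by
        by_contra hcon
        have h1 := pull (A ∩ Y) Finset.inter_subset_right (by omega) (by omega) A hA hl Finset.inter_subset_left
          ⟨b, Finset.mem_sdiff.2 ⟨hb'.1, hbW⟩⟩
        exact (Finset.mem_sdiff.1 (hWB hw)).2 (h1 hw)
      have c2 : (A ∩ X).card + 1 ≤ X.card := by
        have h1 : (A ∩ X) ⊂ X := by
          refine (Finset.ssubset_iff_of_subset Finset.inter_subset_right).2 ⟨b, hb'.2, fun h => hb1.2 (Finset.mem_inter.1 h).1⟩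
        exact Finset.card_lt_card h1
      have c3 : A.card ≤ (A ∩ X).card + (A ∩ Y).card := by
        have h1 : A ⊆ (A ∩ X) ∪ (A ∩ Y) := by
          intro x hx
          have h2 := (mQ x).1 (hA hx)
          rcases h2 with h2 | h2 | h2
          · exact absurd hx (Finset.mem_sdiff.1 (hWB h2)).2
          · exact Finset.mem_union_left _ (Finset.mem_inter.2 ⟨hx, h2⟩)
          · exact Finset.mem_union_right _ (Finset.mem_inter.2 ⟨hx, h2⟩)
        exact (Finset.card_le_card h1).trans (Finset.card_union_le _ _)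
      have c4 : 0 < W.card := Finset.card_pos.2 ⟨w, hw⟩
      omega
    · refine ⟨(gs Q \ A) ∩ Y, Finset.inter_subset_right, hB, v2, ?_⟩
      have e3 : (gs Q \ A) ∩ Y ∪ W = gs Q \ A := by
        ext x
        have h3 := mQ x
        have h4 : x ∈ W → x ∈ gs Q \ A := fun h => hWB h
        have h5 : ¬ (x ∈ gs Q \ A ∧ x ∈ X) := fun h => hBX ⟨x, Finset.mem_inter.2 h⟩
        simp only [Finset.mem_sdiff, Finset.mem_union, Finset.mem_inter] at *
        tauto
      rw [e3]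
      exact hBl
  · have hAX' : ∀ x ∈ A, x ∉ X := fun x h1 h2 => hAX ⟨x, Finset.mem_inter.2 ⟨h1, h2⟩⟩
    have hSY : A \ W ⊆ Y := by
      intro x hx
      have h1 := Finset.mem_sdiff.1 hx
      have h2 := (mQ x).1 (hA h1.1)
      have h3 := hAX' x h1.1
      tauto
    have hWA : W ⊆ A := by
      refine pull _ hSY hA2 (by omega) A hA hl Finset.sdiff_subset ⟨y0, ?_⟩
      exact Finset.mem_sdiff.2 ⟨hy0'.1, fun h => d2 y0 h hy0'.2⟩
    refine ⟨A \ W, hSY, hA2, by omega, ?_⟩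
    rw [Finset.sdiff_union_of_subset hWA]
    exact hl

end Pool.Agent.QU
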