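import Pool.Agent.QUW.Pin

/-!
# QUW/PinC: the pairs with one element in the minimum side

`pin_u`, `pin_v`: if the removal of `x` from `q` is connected then the pairs of `x` with `u` and with `v` are `Ok` unless `Bd`.
-/

set_option autoImplicit false

open QUB

namespace Pool.Agent.QU

variable {E : Type} [DecidableEq E] {r : Finset E → ℤ} {p : Itv E} {u v : E} {X : Finset E}

/-- the rich minor of a removal and a bad side give the sizes -/
theorem side_card {R : Itv E} {A X Y G : Finset E} (h5 : (gs R).card = 5) (h1 : (gs R ∩ A).card ≤ 1)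
    (h2 : (gs R ∩ X).card ≤ 1) (hg : ∀ y ∈ gs R, y ∈ X ∨ y ∈ Y) (hG : ∀ y ∈ gs R, y ∈ G) : 3 ≤ ((G \ A) ∩ Y).card := by
  have h3 : gs R ⊆ (gs R ∩ A) ∪ (gs R ∩ X) ∪ ((G \ A) ∩ Y) := by
    intro y hy
    simp only [Finset.mem_union, Finset.mem_inter, Finset.mem_sdiff]
    have a1 := hg y hy
    have a2 := hG y hy
    by_cases hA : y ∈ A
    · exact Or.inl (Or.inl ⟨hy, hA⟩)
    · rcases a1 with a1 | a1
      · exact Or.inl (Or.inr ⟨hy, a1⟩)
      · exact Or.inr ⟨⟨a2, hA⟩, a1⟩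
  have h4 := Finset.card_le_card h3
  have h6 := Finset.card_union_le ((gs R ∩ A) ∪ (gs R ∩ X)) ((G \ A) ∩ Y)
  have h7 := Finset.card_union_le (gs R ∩ A) (gs R ∩ X)
  omega

namespace Pnm

variable (h : Pnm r p u v X)
include h

/-- a bad pair of `x` with a base element: a side `S + w` -/
theorem one (hr : Rk r) {x : E} {s : Bool} (hx : x ∈ X) (hc : Cn r (rm s x (rm false v (rm true u p)))) {w w' : E} {t t' : Bool}
    (hb : (w = v ∧ t = false ∧ w' = u ∧ t' = true) ∨ (w = u ∧ t = true ∧ w' = v ∧ t' = false))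
    (hno : ¬ Ok r (rm s x (rm t' w' p))) :
    ∃ S ⊆ gs (rm false v (rm true u p)) \ X, 2 ≤ S.card ∧ QUB.lam r (rm false v (rm true u p)) S ≤ 1 ∧
      QUB.lam r (rm s x (rm t' w' p)) (S ∪ {w}) ≤ 1 := by
  set q := rm false v (rm true u p) with hq
  set Y := gs q \ X with hY
  have hqw : q = rm t w (rm t' w' p) := by
    rcases hb with ⟨rfl, rfl, rfl, rfl⟩ | ⟨rfl, rfl, rfl, rfl⟩
    · rfl
    · exact h.comm
  have hw : w ∈ gs p ∧ w' ∈ gs p ∧ w ≠ w' := by
    rcases hb with ⟨rfl, rfl, rfl, rfl⟩ | ⟨rfl, rfl, rfl, rfl⟩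
    · exact ⟨h.hv, h.hu, h.huv.symm⟩
    · exact ⟨h.hu, h.hv, h.huv⟩
  have hxq := h.hX hx
  have hxm := h.mq hxq
  have hxw : x ≠ w ∧ x ≠ w' := by
    rcases hb with ⟨rfl, rfl, rfl, rfl⟩ | ⟨rfl, rfl, rfl, rfl⟩
    · exact ⟨hxm.2.2, hxm.2.1⟩
    · exact ⟨hxm.2.1, hxm.2.2⟩
  have wP : (rm t' w' p).1 ⊆ (rm t' w' p).2 := QUB.wf_rm h.hp hw.2.1
  have gP : gs (rm t' w' p) = (gs p).erase w' := QUB.gs_rm _ _ _
  have gq' : gs q = ((gs p).erase w').erase w := by
    rw [hqw, QUB.gs_rm, gP]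
  have hxP : x ∈ gs (rm t' w' p) := by
    rw [gP]
    exact Finset.mem_erase.2 ⟨hxw.2, hxm.1⟩
  have hwP : w ∈ gs (rm t' w' p) := by
    rw [gP]
    exact Finset.mem_erase.2 ⟨hw.2.2, hw.1⟩
  set Q := rm s x (rm t' w' p) with hQ
  have wQ : Q.1 ⊆ Q.2 := QUB.wf_rm wP hxP
  have gQ : gs Q = ((gs p).erase w').erase x := by
    rw [hQ, QUB.gs_rm, gP]
  have hwQ : w ∈ gs Q := by
    rw [gQ]
    exact Finset.mem_erase.2 ⟨hxw.1.symm, Finset.mem_erase.2 ⟨hw.2.2, hw.1⟩⟩
  have hN : rm s x q = rm t w Q := by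
    rw [hqw, hQ]
    exact QUB.rm_comm s t _
  have wN : (rm s x q).1 ⊆ (rm s x q).2 := QUB.wf_rm h.wq hxq
  have gN : gs (rm s x q) = (gs q).erase x := QUB.gs_rm _ _ _
  have h1 := h.lY hx hc
  -- the rich minor
  obtain ⟨R, hR1, hR2, hR3⟩ := pin_rich hr h.wq h.hX h.hl h.rc hx h1
  have hRQ : Sub R Q := by
    rw [hN] at hR1
    exact (rm_sub t w Q).trans hR1
  obtain ⟨A, hA, hl, hH, hRA⟩ := notOk_side hr wQ hRQ hR2 hno
  have hm : X.card ≤ A.card := h.mn s x t' w' A hxm.1 hw.2.1 hxw.2 hA hl hH ⟨R, hRQ, hR2, hRA⟩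
  have gR : ∀ y ∈ gs R, y ∈ gs (rm s x q) := by
    intro y hy
    have h8 := Finset.mem_sdiff.1 hy
    exact Finset.mem_sdiff.2 ⟨hR1.2 h8.1, fun h9 => h8.2 (hR1.1 h9)⟩
  have hB := side_card (X := X.erase x) (Y := Y) (G := gs Q) hR2.2.1 hRA hR3 (by
    intro y hy
    have h2 := gR y hy
    rw [gN] at h2
    have h3 := Finset.mem_erase.1 h2
    by_cases h4 : y ∈ X
    · exact Or.inl (Finset.mem_erase.2 ⟨h3.1, h4⟩)
    · exact Or.inr (Finset.mem_sdiff.2 ⟨h3.2, h4⟩)) (by
    intro y hy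
    have h8 := Finset.mem_sdiff.1 hy
    exact Finset.mem_sdiff.2 ⟨hRQ.2 h8.1, fun h9 => h8.2 (hRQ.1 h9)⟩)
  have hX3 := h.X3
  have hc1 : (X.erase x).card + 1 = X.card := Finset.card_erase_add_one hx
  have hY4 := h.Y4
  -- the core lemma
  have mX : ∀ y ∈ X, y ∈ gs q := fun y hy => h.hX hy
  have mq : ∀ y, y ∈ gs q ↔ y ≠ w ∧ y ≠ w' ∧ y ∈ gs p := by
    intro y
    rw [gq', Finset.mem_erase, Finset.mem_erase]
  have mY : ∀ y, y ∈ Y ↔ y ∈ gs q ∧ y ∉ X := fun y => Finset.mem_sdiff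
  have pull : ∀ S ⊆ Y, 2 ≤ S.card → QUB.lam r (rm s x q) S ≤ 1 → ∀ A ⊆ gs Q, QUB.lam r Q A ≤ 1 → S ⊆ A →
      ((gs Q \ A) \ {w}).Nonempty → {w} ⊆ A := by
    intro S hS hS2 hlS A' hA' hlA' hSA hne
    have h2 := h.dz hr hx h1 hS
    rw [← hq] at h2
    have hSq : S ⊆ gs q := hS.trans Finset.sdiff_subset
    have hXS : X ⊆ gs q \ S := by
      intro y hy
      exact Finset.mem_sdiff.2 ⟨mX y hy, fun h4 => ((mY y).1 (hS h4)).2 hy⟩
    have hv1 := h.val hSq hS2 (by
      have := Finset.card_le_card hXS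
      rw [← hq]
      omega) (by
      rw [← hq]
      omega)
    have hd := h.dz4 hr hx h1 hS
    have hSQ : 2 ≤ QUB.lam r Q S := by
      rcases hb with ⟨rfl, rfl, rfl, rfl⟩ | ⟨rfl, rfl, rfl, rfl⟩
      · exact hv1.1.trans hd.2.1
      · exact hv1.2.1.trans hd.2.2
    rw [Finset.singleton_subset_iff]
    by_contra hwA
    have hA'' : A' ⊆ (gs Q).erase w := Finset.subset_erase.2 ⟨hA', hwA⟩
    have h3 := QUB.lam_L3 hr (t := t) hwQ hSA hA''
    rw [← hN] at h3
    have h4 : 1 ≤ QUB.lam r (rm s x q) A' := by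
      refine hc A' ?_ ?_ ?_
      · rw [hN, QUB.gs_rm]
        exact hA''
      · exact (Finset.card_pos.1 (by omega : 0 < S.card)).mono hSA
      · obtain ⟨y, hy⟩ := hne
        have h5 := Finset.mem_sdiff.1 hy
        have h6 := Finset.mem_sdiff.1 h5.1
        refine ⟨y, Finset.mem_sdiff.2 ⟨?_, h6.2⟩⟩
        rw [hN, QUB.gs_rm]
        exact Finset.mem_erase.2 ⟨fun h7 => h5.2 (Finset.mem_singleton.2 h7), h6.1⟩
    omega
  obtain ⟨S, hS1, hS2, hS3, hS4⟩ := pn_core hr (Q := Q) (N := rm s x q) (W := {w}) (X := X.erase x) (Y := Y) wQ wN (by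
      rw [gQ]
      ext y
      have a1 := mX y
      have a2 := mq y
      have a3 := mY y
      have a4 : y = w → y ∈ gs p ∧ y ≠ w' ∧ y ≠ x := by
        rintro rfl
        exact ⟨hw.1, hw.2.2, hxw.1.symm⟩
      simp only [Finset.mem_union, Finset.mem_erase, Finset.mem_singleton]
      clear hb hno h hR1 hR2 hR3 hRQ hl hH hRA hm gR hB hc1 mX mq mY
      have a5 : y = x → y ∈ X := by
        rintro rfl
        exact hx
      tauto) (by
      rw [gN]
      ext y
      have a1 := mX y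
      have a3 := mY y
      have a5 : y = x → y ∈ X := by
        rintro rfl
        exact hx
      simp only [Finset.mem_union, Finset.mem_erase]
      clear hb hno h hR1 hR2 hR3 hRQ hl hH hRA hm gR hB hc1 mX mq mY
      tauto) (by
      intro y hy h4
      have h5 := (mq y).1 (mX y (Finset.mem_of_mem_erase h4))
      exact h5.1 (Finset.mem_singleton.1 hy)) (by
      intro y hy h4
      have h5 := (mq y).1 ((mY y).1 h4).1
      exact h5.1 (Finset.mem_singleton.1 hy)) (by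
      intro y hy h4
      exact ((mY y).1 h4).2 (Finset.mem_of_mem_erase hy)) (Finset.singleton_nonempty _) hc (by
      refine (QUB.lam_rm_le hr hxq ?_).trans ?_
      · intro y hy
        have h5 := (mY y).1 hy
        refine Finset.mem_erase.2 ⟨?_, h5.1⟩
        rintro rfl
        exact h5.2 hx
      · rw [QUB.lam_compl r h.wq h.hX]
        exact h.hl) (by
      intro A' hA'
      rw [hN]
      exact lam_sd hr wQ hwQ hA') pull hA hl (by rw [Finset.card_singleton]; omega) (by omega) (by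
      rw [Finset.sdiff_singleton_eq_erase]
      have := Finset.pred_card_le_card_erase (s := A) (a := w)
      omega)
  refine ⟨S, hS1, hS2, ?_, hS4⟩
  have h2 := h.dz hr hx h1 hS1
  rw [← hq] at h2
  omega

/-- pairs of `x` and `u` -/
theorem pin_u (hr : Rk r) {x : E} {s : Bool} (hx : x ∈ X) (hc : Cn r (rm s x (rm false v (rm true u p))))
    (hb : ¬ (s = true ∧ Bd r p u v X true x)) : Ok r (rm s x (rm true u p)) := by
  by_contra hno
  obtain ⟨S, hS, hS2, hl, hlQ⟩ := h.one hr hx hc (w := v) (w' := u) (t := false) (t' := true) (Or.inl ⟨rfl, rfl, rfl, rfl⟩) hno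
  set Y := gs (rm false v (rm true u p)) \ X with hY
  have h1 := h.lY hx hc
  rw [← hY] at h1
  have hSq : S ⊆ gs (rm false v (rm true u p)) := hS.trans Finset.sdiff_subset
  have hXS : X ⊆ gs (rm false v (rm true u p)) \ S := by
    intro y hy
    exact Finset.mem_sdiff.2 ⟨h.hX hy, fun h4 => (Finset.mem_sdiff.1 (hS h4)).2 hy⟩
  have hX3 := h.X3
  have hv1 := h.val' hSq hS2 (by
    have := Finset.card_le_card hXS
    omega) hl
  have hxm := h.mq (h.hX hx)
  have hxu : x ∈ gs (rm true u p) := by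
    rw [h.gu]
    exact Finset.mem_erase.2 ⟨hxm.2.1, hxm.1⟩
  have mY : ∀ y ∈ Y, y ∈ gs p ∧ y ≠ u ∧ y ≠ v ∧ y ≠ x := by
    intro y hy
    have h2 := Finset.mem_sdiff.1 hy
    have h3 := h.mq h2.1
    exact ⟨h3.1, h3.2.1, h3.2.2, fun h4 => h2.2 (h4 ▸ hx)⟩
  have hYe : insert v Y ⊆ (gs (rm true u p)).erase x := by
    rw [h.gu]
    refine Finset.insert_subset (Finset.mem_erase.2 ⟨hxm.2.2.symm, Finset.mem_erase.2 ⟨h.huv.symm, h.hv⟩⟩) fun y hy => ?_
    have h2 := mY y hy
    exact Finset.mem_erase.2 ⟨h2.2.2.2, Finset.mem_erase.2 ⟨h2.2.1, h2.1⟩⟩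
  have k1 := QUB.lam_L3 hr (t := s) hxu (Finset.insert_subset_insert v hS) hYe
  have e1 : S ∪ {v} = insert v S := by
    rw [Finset.union_comm]
    rfl
  rw [e1] at hlQ
  have hd := h.dz hr hx h1 (Finset.Subset.refl _)
  rw [← hY] at hd
  have hYee : Y ⊆ ((gs (rm true u p)).erase x).erase v := by
    rw [h.gu]
    intro y hy
    have h2 := mY y hy
    exact Finset.mem_erase.2 ⟨h2.2.2.1, Finset.mem_erase.2 ⟨h2.2.2.2, Finset.mem_erase.2 ⟨h2.2.1, h2.1⟩⟩⟩
  cases s
  · have k2 := QUB.lam_L6 hr h.wu (t := false) (w := x) (e := v) (A := Y) hxu h.hvu hxm.2.2.symm hYee (h.nl0 (h.hX hx))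
    rw [QUB.rm_comm false false] at hd
    have k3 : QUB.lam r (rm false x (rm false v (rm true u p))) Y = QUB.lam r (rm false v (rm false x (rm true u p))) Y := by
      rw [QUB.rm_comm false false]
    omega
  · refine hb ⟨rfl, h.bd_of hr hx h1 ?_⟩
    rw [← hY]
    have k2 := QUB.lam_L5 hr h.hp (s := true) (t := true) (w := u) (e := x) (A := insert v Y) h.hu hxm.1 hxm.2.1 (by
      refine Finset.insert_subset (Finset.mem_erase.2 ⟨hxm.2.2.symm, Finset.mem_erase.2 ⟨h.huv.symm, h.hv⟩⟩) fun y hy => ?_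
      have h2 := mY y hy
      exact Finset.mem_erase.2 ⟨h2.2.2.2, Finset.mem_erase.2 ⟨h2.2.1, h2.1⟩⟩)
    omega

/-- pairs of `x` and `v` -/
theorem pin_v (hr : Rk r) {x : E} {s : Bool} (hx : x ∈ X) (hc : Cn r (rm s x (rm false v (rm true u p))))
    (hb : ¬ (s = false ∧ Bd r p u v X false x)) : Ok r (rm s x (rm false v p)) := by
  by_contra hno
  obtain ⟨S, hS, hS2, hl, hlQ⟩ := h.one hr hx hc (w := u) (w' := v) (t := true) (t' := false) (Or.inr ⟨rfl, rfl, rfl, rfl⟩) hno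
  set Y := gs (rm false v (rm true u p)) \ X with hY
  have h1 := h.lY hx hc
  rw [← hY] at h1
  have hSq : S ⊆ gs (rm false v (rm true u p)) := hS.trans Finset.sdiff_subset
  have hXS : X ⊆ gs (rm false v (rm true u p)) \ S := by
    intro y hy
    exact Finset.mem_sdiff.2 ⟨h.hX hy, fun h4 => (Finset.mem_sdiff.1 (hS h4)).2 hy⟩
  have hX3 := h.X3
  have hv1 := h.val' hSq hS2 (by
    have := Finset.card_le_card hXS
    omega) hl
  have hxm := h.mq (h.hX hx)
  have hxv : x ∈ gs (rm false v p) := by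
    rw [h.gv]
    exact Finset.mem_erase.2 ⟨hxm.2.2, hxm.1⟩
  have mY : ∀ y ∈ Y, y ∈ gs p ∧ y ≠ u ∧ y ≠ v ∧ y ≠ x := by
    intro y hy
    have h2 := Finset.mem_sdiff.1 hy
    have h3 := h.mq h2.1
    exact ⟨h3.1, h3.2.1, h3.2.2, fun h4 => h2.2 (h4 ▸ hx)⟩
  have hYe : insert u Y ⊆ (gs (rm false v p)).erase x := by
    rw [h.gv]
    refine Finset.insert_subset (Finset.mem_erase.2 ⟨hxm.2.1.symm, Finset.mem_erase.2 ⟨h.huv, h.hu⟩⟩) fun y hy => ?_
    have h2 := mY y hy
    exact Finset.mem_erase.2 ⟨h2.2.2.2, Finset.mem_erase.2 ⟨h2.2.2.1, h2.1⟩⟩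
  have k1 := QUB.lam_L3 hr (t := s) hxv (Finset.insert_subset_insert u hS) hYe
  have e1 : S ∪ {u} = insert u S := by
    rw [Finset.union_comm]
    rfl
  rw [e1] at hlQ
  have hd := h.dz hr hx h1 (Finset.Subset.refl _)
  rw [← hY] at hd
  have hYee : Y ⊆ ((gs (rm false v p)).erase x).erase u := by
    rw [h.gv]
    intro y hy
    have h2 := mY y hy
    exact Finset.mem_erase.2 ⟨h2.2.1, Finset.mem_erase.2 ⟨h2.2.2.2, Finset.mem_erase.2 ⟨h2.2.2.1, h2.1⟩⟩⟩
  cases s
  · refine hb ⟨rfl, h.bd_of hr hx h1 ?_⟩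
    rw [← hY]
    have k2 := QUB.lam_L5 hr h.hp (s := false) (t := false) (w := v) (e := x) (A := insert u Y) h.hv hxm.1 hxm.2.2 (by
      refine Finset.insert_subset (Finset.mem_erase.2 ⟨hxm.2.1.symm, Finset.mem_erase.2 ⟨h.huv, h.hu⟩⟩) fun y hy => ?_
      have h2 := mY y hy
      exact Finset.mem_erase.2 ⟨h2.2.2.2, Finset.mem_erase.2 ⟨h2.2.2.1, h2.1⟩⟩)
    rw [Finset.insert_comm u v]
    omega
  · rw [h.comm] at hd
    have k0 := h.nl0 (h.hX hx)
    rw [h.comm] at k0
    have k2 := QUB.lam_L6 hr h.wv (t := true) (w := x) (e := u) (A := Y) hxv h.huv' hxm.2.1.symm hYee k0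
    have k3 : QUB.lam r (rm true x (rm true u (rm false v p))) Y = QUB.lam r (rm true u (rm true x (rm false v p))) Y := by
      rw [QUB.rm_comm true true]
    omega

/-- the bad elements: the side `X - x` of the pair `(u, x)` -/
theorem bd_lam (hr : Rk r) {x : E} {s : Bool} (hx : x ∈ X) (hb : Bd r p u v X s x) :
    (s = true → QUB.lam r (rm true x (rm true u p)) (X.erase x) ≤ 1) ∧ (s = false → QUB.lam r (rm false x (rm false v p)) (X.erase x) ≤ 1) := by
  have hlX : ∀ t : Bool, QUB.lam r (rm t x (rm false v (rm true u p))) (X.erase x) ≤ 1 := by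
    intro t
    have h1 := QUB.lam_rm_le' hr h.wq (t := t) (h.hX hx) (A := X.erase x) (Finset.erase_subset_erase _ h.hX)
    rw [Finset.insert_erase hx] at h1
    exact h1.trans h.hl
  constructor
  · intro hs
    rcases hb with ⟨-, h1⟩ | ⟨h1, -⟩
    · have h2 := hlX true
      have e1 : QUB.lam r (rm true x (rm false v (rm true u p))) (X.erase x) =
        r (insert v p.1 ∪ X.erase x) + r ((p.2.erase u).erase x \ X.erase x) - r ((p.2.erase u).erase x) - r (insert v p.1) := rfl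
      have e2 : QUB.lam r (rm true x (rm true u p)) (X.erase x) =
        r (p.1 ∪ X.erase x) + r ((p.2.erase u).erase x \ X.erase x) - r ((p.2.erase u).erase x) - r p.1 := rfl
      rw [Finset.insert_union] at e1
      have h3 := hr.unit p.1 v
      omega
    · rw [hs] at h1
      exact absurd h1 (by decide)
  · intro hs
    rcases hb with ⟨h1, -⟩ | ⟨-, h1⟩
    · rw [hs] at h1
      exact absurd h1 (by decide)
    · have h2 := hlX false
      set Y := gs (rm false v (rm true u p)) \ X with hY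
      have mX : ∀ y ∈ X, y ∈ gs p ∧ y ≠ u ∧ y ≠ v := fun y hy => h.mq (h.hX hy)
      have hu := Finset.mem_sdiff.1 h.hu
      have hp := h.hp
      have huv := h.huv
      have hv := Finset.mem_sdiff.1 h.hv
      have mY : ∀ y, y ∈ Y ↔ (y ≠ v ∧ y ≠ u ∧ y ∈ gs p) ∧ y ∉ X := by
        intro y
        rw [hY, Finset.mem_sdiff, h.gq, Finset.mem_erase, Finset.mem_erase]
      have e3 : p.2 \ X.erase x = insert u (insert v (p.1 ∪ insert x Y)) := by
        ext y
        have a1 := mX y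
        have a2 := mY y
        have a3 : y ∈ gs p ↔ y ∈ p.2 ∧ y ∉ p.1 := Finset.mem_sdiff
        have a4 := @hp y
        have a5 : y = u → y ∈ p.2 ∧ y ∉ p.1 := by rintro rfl; exact hu
        have a6 : y = v → y ∈ p.2 ∧ y ∉ p.1 := by rintro rfl; exact hv
        have a7 : y = x → y ∈ X := by rintro rfl; exact hx
        simp only [Finset.mem_sdiff, Finset.mem_erase, Finset.mem_insert, Finset.mem_union]
        clear h h1 h2 hlX hs hY mX mY hu hv hp
        tauto
      have e4 : p.2.erase u \ X.erase x = insert v (p.1 ∪ insert x Y) := by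
        ext y
        have a1 := mX y
        have a2 := mY y
        have a3 : y ∈ gs p ↔ y ∈ p.2 ∧ y ∉ p.1 := Finset.mem_sdiff
        have a4 := @hp y
        have a5 : y = u → y ∈ p.2 ∧ y ∉ p.1 := by rintro rfl; exact hu
        have a6 : y = v → y ∈ p.2 ∧ y ∉ p.1 ∧ y ≠ u := by rintro rfl; exact ⟨hv.1, hv.2, huv.symm⟩
        have a7 : y = x → y ∈ X := by rintro rfl; exact hx
        simp only [Finset.mem_sdiff, Finset.mem_erase, Finset.mem_insert, Finset.mem_union]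
        clear h h1 h2 hlX hs hY mX mY hu hv hp
        tauto
      have e1 : QUB.lam r (rm false x (rm false v (rm true u p))) (X.erase x) =
        r (insert x (insert v p.1) ∪ X.erase x) + r (p.2.erase u \ X.erase x) - r (p.2.erase u) - r (insert x (insert v p.1)) := rfl
      have e2 : QUB.lam r (rm false x (rm false v p)) (X.erase x) =
        r (insert x (insert v p.1) ∪ X.erase x) + r (p.2 \ X.erase x) - r p.2 - r (insert x (insert v p.1)) := rfl
      rw [e4] at e1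
      rw [e3] at e2
      have h3 := QUB.marg hr (Finset.subset_insert v (p.1 ∪ insert x Y)) u
      have h4 := hr.mono _ _ (Finset.erase_subset u p.2)
      omega

end Pnm

end Pool.Agent.QU
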